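import Pool.Agent.Lib.MP_3cd67d_lc.Rows

/-!
# The vertical paths
-/

namespace Pool.Agent.EPDP

namespace Lay

variable {G : Lay} {l l' : List (ℕ × ℕ)} {ρ : ℕ}

/-- A vertical path: it cannot use the rails. -/
structure ColPath (G : Lay) (l : List (ℕ × ℕ)) (ρ : ℕ) : Prop where
  path : IsDiPath G.Arc l (15 + ρ, 18 * G.M + 6 * G.N) (15 * G.M + ρ, 18 * G.M + 6 * G.N)
  le : ρ ≤ 12
  right : ∀ x y, 14 ≤ x → x < 15 * G.M → good x → 18 * G.M ≤ y → y < 18 * G.M + 6 * G.N →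
    y % 6 < 4 → ¬ PE l (x, y) (x + 1, y)
  left : ∀ x y, 14 ≤ x → x < 15 * G.M → 18 * G.M ≤ y → y < 18 * G.M + 6 * G.N →
    4 ≤ y % 6 → ¬ PE l (x + 1, y) (x, y)

theorem colPath_of {p q : List (ℕ × ℕ)} (hp : G.RowPath p) (hq : G.RowPath q)
    (hpq : Disj p q) (h1 : Disj l p) (h2 : Disj l q) (hρ : ρ ≤ 12)
    (hl : IsDiPath G.Arc l (15 + ρ, 18 * G.M + 6 * G.N) (15 * G.M + ρ, 18 * G.M + 6 * G.N)) :
    G.ColPath l ρ where
  path := hl
  le := hρ
  right x y a b c d e f g := by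
    rcases occ_right hp hq hpq a b c d e f (arc_right (hl.arc g)) with h | h
    · exact h1 _ _ g h
    · exact h2 _ _ g h
  left x y a b d e f g := by
    rcases occ_left hp hq hpq a b d e f with h | h
    · exact h1 _ _ g h
    · exact h2 _ _ g h

theorem U_grid {x y : ℕ} (h : G.U x y) (_ : 15 ≤ x) (_ : x < 15 * G.M) :
    x % 15 = 5 ∨ x % 15 = 8 ∨ x % 15 = 11 := by
  rcases h with h | h | h | ⟨_, h⟩
  · omega
  · omega
  · omega
  · have := (G.tile h).2.2.1; omega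

/-- Out of the top row of a group of columns. -/
theorem top_out {x a b : ℕ} (h1 : 15 ≤ x) (h2 : x < 15 * G.M)
    (h : G.Arc (x, 18 * G.M + 6 * G.N) (a, b)) :
    (a = x + 1 ∧ b = 18 * G.M + 6 * G.N ∧ x % 15 < 10) ∨
      (a = x ∧ b + 1 = 18 * G.M + 6 * G.N ∧ G.D x b) := by
  have hM := G.hM
  rcases arc_cases h with ⟨rfl, rfl, h3⟩ | ⟨rfl, rfl, h3⟩ | ⟨rfl, rfl, h3⟩ | ⟨rfl, h4, h3⟩
  · left
    refine ⟨rfl, rfl, ?_⟩
    rcases h3 with h | h | (h | h) | h | h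
    · omega
    · omega
    · have := G.tile h; omega
    · have := G.tile h; omega
    · omega
    · omega
  · exfalso
    rcases h3 with h | h | h | h | h
    · omega
    · omega
    · omega
    · omega
    · omega
  · exfalso
    rcases h3 with h | h | h | ⟨_, h⟩
    · omega
    · omega
    · omega
    · have := G.tile h; omega
  · exact Or.inr ⟨rfl, h4.symm, h3⟩

theorem ColPath.top (hl : G.ColPath l ρ) : ∀ k x, 10 - x % 15 = k → 15 ≤ x → x < 15 * G.M →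
    x % 15 ≤ 10 → (x, 18 * G.M + 6 * G.N) ∈ l → ∃ x', x' / 15 = x / 15 ∧ x' % 15 ≤ 10 ∧
      x' < 15 * G.M ∧ 15 ≤ x' ∧
      PE l (x', 18 * G.M + 6 * G.N) (x', 18 * G.M + 6 * G.N - 1) := by
  have hM := G.hM
  intro k
  induction k with
  | zero =>
    intro x hk h1 h2 h3 h
    obtain ⟨⟨a, b⟩, hw⟩ := hl.path.next h (by rw [Ne, Prod.mk.injEq]; omega)
    rcases top_out h1 h2 (hl.path.arc hw) with ⟨rfl, rfl, h4⟩ | ⟨rfl, h4, _⟩
    · omega
    · refine ⟨a, rfl, h3, h2, h1, ?_⟩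
      convert hw using 2
      omega
  | succ k ih =>
    intro x hk h1 h2 h3 h
    obtain ⟨⟨a, b⟩, hw⟩ := hl.path.next h (by rw [Ne, Prod.mk.injEq]; omega)
    rcases top_out h1 h2 (hl.path.arc hw) with ⟨rfl, rfl, h4⟩ | ⟨rfl, h4, _⟩
    · obtain ⟨x', e1, e2, e3, e4, e5⟩ := ih (x + 1) (by omega) (by omega) (by omega) (by omega)
        hw.mem_right
      exact ⟨x', by omega, e2, e3, e4, e5⟩
    · refine ⟨a, rfl, h3, h2, h1, ?_⟩
      convert hw using 2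
      omega

/-- The first columns of the tiles. -/
def tcol (a : ℕ) : Prop := a % 15 = 3 ∨ a % 15 = 6 ∨ a % 15 = 9

theorem ColPath.laneB (hl : G.ColPath l ρ) {a y : ℕ} (h1 : 15 ≤ a) (h2 : a < 15 * G.M)
    (h3 : tcol a) (h4 : 18 * G.M ≤ y + 1) (h5 : y + 1 < 18 * G.M + 6 * G.N)
    (h : (a + 1, y + 1) ∈ l) : PE l (a + 1, y + 1) (a + 1, y) := by
  have hM := G.hM
  have h3' : a % 15 = 3 ∨ a % 15 = 6 ∨ a % 15 = 9 := h3
  have hlt : a + 1 < 15 * G.M := by omega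
  have hg : good (a + 1) := by simp only [good]; omega
  obtain ⟨⟨p, q⟩, hw⟩ := hl.path.next h (by
    rw [Ne, Prod.mk.injEq]; clear h3 h3' hg; omega)
  rcases arc_cases (hl.path.arc hw) with ⟨rfl, rfl, h6⟩ | ⟨h7, rfl, h6⟩ | ⟨rfl, rfl, h6⟩ |
    ⟨rfl, h7, h6⟩
  · exfalso
    have h8 := band_R h6 h4 h5 (by clear h3 h3'; omega)
    refine hl.right (a + 1) (y + 1) (by omega) hlt hg h4 h5 ?_ hw
    clear h3 h3'
    omega
  · exfalso
    obtain rfl : a = p := by omega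
    have h8 := band_L h6 h4 h5 (by clear h3 h3'; omega)
    refine hl.left a (y + 1) (by omega) h2 h4 h5 ?_ hw
    clear h3 h3'
    omega
  · exfalso
    have := U_grid h6 (by omega) hlt
    omega
  · obtain rfl : y = q := by omega
    exact hw

theorem ColPath.laneA (hl : G.ColPath l ρ) {a y : ℕ} (h1 : 15 ≤ a) (h2 : a < 15 * G.M)
    (h3 : tcol a) (h4 : 18 * G.M ≤ y + 1) (h5 : y + 1 < 18 * G.M + 6 * G.N)
    (h : (a, y + 1) ∈ l) : Through l a y := by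
  have hM := G.hM
  have h3' : a % 15 = 3 ∨ a % 15 = 6 ∨ a % 15 = 9 := h3
  obtain ⟨⟨p, q⟩, hw⟩ := hl.path.next h (by
    rw [Ne, Prod.mk.injEq]; clear h3 h3'; omega)
  rcases arc_cases (hl.path.arc hw) with ⟨rfl, rfl, h6⟩ | ⟨h7, rfl, h6⟩ | ⟨rfl, rfl, h6⟩ |
    ⟨rfl, h7, h6⟩
  · exact Or.inr (hl.laneB h1 h2 h3 h4 h5 hw.mem_right)
  · exfalso
    obtain rfl : a = p + 1 := by omega
    have h8 := band_L h6 h4 h5 (by clear h3 h3'; omega)
    refine hl.left p (y + 1) (by omega) (by clear h3 h3'; omega) h4 h5 ?_ hw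
    clear h3 h3'
    omega
  · exfalso
    have := U_grid h6 (by omega) h2
    omega
  · obtain rfl : y = q := by omega
    exact Or.inl hw

theorem ColPath.lane (hl : G.ColPath l ρ) {a : ℕ} (h1 : 15 ≤ a) (h2 : a < 15 * G.M)
    (h3 : tcol a) (h : Through l a (18 * G.M + 6 * G.N - 1)) :
    ∀ k y, y + k + 1 = 18 * G.M + 6 * G.N → 18 * G.M ≤ y + 1 → Through l a y := by
  have hM := G.hM
  intro k
  induction k with
  | zero =>
    intro y hy _
    have : y = 18 * G.M + 6 * G.N - 1 := by omega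
    rwa [this]
  | succ k ih =>
    intro y hy hy2
    rcases ih (y + 1) (by omega) (by omega) with h4 | h4
    · exact hl.laneA h1 h2 h3 hy2 (by omega) h4.mem_right
    · exact Or.inr (hl.laneB h1 h2 h3 hy2 (by omega) h4.mem_right)

/-- Out of the bottom row of a group of columns. -/
theorem bot_out {x a b : ℕ} (h1 : 15 ≤ x) (h2 : x < 15 * G.M)
    (h : G.Arc (x, 18 * G.M - 1) (a, b)) :
    (x = a + 1 ∧ b = 18 * G.M - 1 ∧ a % 15 < 10 ∧ 15 ≤ a) ∨
      (a = x ∧ b = 18 * G.M - 2 ∧ x % 3 = 0) := by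
  have hM := G.hM
  rcases arc_cases h with ⟨rfl, rfl, h3⟩ | ⟨rfl, rfl, h3⟩ | ⟨rfl, rfl, h3⟩ | ⟨rfl, h4, h3⟩
  · exfalso
    rcases h3 with h | h | (h | h) | h | h
    · omega
    · omega
    · have := G.tile h; omega
    · have := G.tile h; omega
    · omega
    · omega
  · rcases h3 with h | h | h | h | h <;> omega
  · exfalso
    rcases h3 with h | h | h | ⟨_, h⟩
    · omega
    · omega
    · omega
    · have := G.tile h; omega
  · right
    refine ⟨rfl, by omega, ?_⟩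
    rcases h3 with h | h | h <;> omega

theorem ColPath.bot (hl : G.ColPath l ρ) : ∀ k x, x % 15 = k → 15 ≤ x → x < 15 * G.M →
    (x, 18 * G.M - 1) ∈ l → x % 15 ≤ 10 → ∃ c, c % 3 = 0 ∧ c / 15 = x / 15 ∧ c % 15 ≤ 10 ∧
      PE l (c, 18 * G.M - 1) (c, 18 * G.M - 2) := by
  have hM := G.hM
  intro k
  induction k with
  | zero =>
    intro x hk h1 h2 h h3
    obtain ⟨⟨a, b⟩, hw⟩ := hl.path.next h (by rw [Ne, Prod.mk.injEq]; omega)
    rcases bot_out h1 h2 (hl.path.arc hw) with ⟨rfl, rfl, h4, h5⟩ | ⟨rfl, rfl, h4⟩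
    · omega
    · exact ⟨a, h4, rfl, h3, hw⟩
  | succ k ih =>
    intro x hk h1 h2 h h3
    obtain ⟨⟨a, b⟩, hw⟩ := hl.path.next h (by rw [Ne, Prod.mk.injEq]; omega)
    rcases bot_out h1 h2 (hl.path.arc hw) with ⟨rfl, rfl, h4, h5⟩ | ⟨rfl, rfl, h4⟩
    · obtain ⟨c, e1, e2, e3, e4⟩ := ih a (by omega) h5 (by omega) hw.mem_right (by omega)
      exact ⟨c, e1, by omega, e3, e4⟩
    · exact ⟨a, h4, rfl, h3, hw⟩

end Lay

end Pool.Agent.EPDP
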