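import Pool.Agent.Lib.MP_3cd67d_lc.Grid

/-!
# The two guards

The guards `W1` and `W2` occupy one arc each on every return line.
-/

namespace Pool.Agent.EPDP

/-- Two paths have no arc in common. -/
def Disj (l l' : List (ℕ × ℕ)) : Prop := ∀ u v, PE l u v → ¬ PE l' u v

theorem Disj.symm {l l' : List (ℕ × ℕ)} (h : Disj l l') : Disj l' l :=
  fun u v h1 h2 => h u v h2 h1

namespace Lay

variable {G : Lay}

/-- The starting point and the end point of the guards. -/
def rW1 (G : Lay) : ℕ × ℕ := (15 * G.M + 33, 15 * G.M)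
def sW1 (G : Lay) : ℕ × ℕ := (30 * G.M + 15, 30 * G.M - 15)
def rW2 (G : Lay) : ℕ × ℕ := (30 * G.M + 15, 30 * G.M + 12)
def sW2 (G : Lay) : ℕ × ℕ := (15 * G.M + 33, 45 * G.M - 3)

variable {W1 W2 : List (ℕ × ℕ)}

/-- Along a return line, from the entry of `W1` upwards. -/
theorem guard (h1 : IsDiPath G.Arc W1 G.rW1 G.sW1) (h2 : IsDiPath G.Arc W2 G.rW2 G.sW2)
    (hd : Disj W1 W2) : ∀ t x, x = 15 * G.M + 33 + 3 * t → x ≤ 30 * G.M + 15 →
      PE W1 (x, x - 31) (x, x - 30) ∧ PE W2 (x, 60 * G.M + 29 - x) (x, 60 * G.M + 30 - x) := by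
  have hM := G.hM
  intro t
  induction t with
  | zero =>
    intro x hx hx2
    constructor
    · have hstart : (x, x - 33) ∈ W1 := by
        have := h1.mem_head
        rw [rW1] at this
        convert this using 2 <;> omega
      have h := h1.run_up (x := x) (y0 := x - 33) (x - 30) hstart
        (fun y _ _ e => by
          rw [sW1, Prod.mk.injEq] at e; omega)
        (fun y w _ _ hw => by
          obtain ⟨a, b⟩ := w; rw [Prod.mk.injEq];
          (have hh := Lay.arc_num hw
           rcases hh with ⟨k1, k2, k3 | k3 | k3 | k3 | k3⟩ |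
            ⟨k1, k2, k3 | k3 | k3 | k3 | k3⟩ | ⟨k1, k2, k3 | k3 | k3 | k3⟩ |
            ⟨k1, k2, k3 | k3 | k3⟩ <;> omega)) (x - 31) (by omega) (by omega)
      have := h.2 (by omega)
      rwa [show x - 31 + 1 = x - 30 by omega] at this
    · have hend : (x, 60 * G.M + 30 - x) ∈ W2 := by
        have := h2.mem_last
        rw [sW2] at this
        convert this using 2 <;> omega
      refine h2.back hend (fun e => by rw [rW2, Prod.mk.injEq] at e; omega) fun w hw => ?_
      obtain ⟨a, b⟩ := w; rw [Prod.mk.injEq];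
      (have hh := Lay.arc_num hw
       rcases hh with ⟨k1, k2, k3 | k3 | k3 | k3 | k3⟩ |
        ⟨k1, k2, k3 | k3 | k3 | k3 | k3⟩ | ⟨k1, k2, k3 | k3 | k3 | k3⟩ |
        ⟨k1, k2, k3 | k3 | k3⟩ <;> omega)
  | succ t ih =>
    intro x' hx' hx2
    obtain ⟨x, rfl⟩ : ∃ x, x' = x + 3 := ⟨x' - 3, by omega⟩
    obtain ⟨i1, i2⟩ := ih x (by omega) (by omega)
    constructor
    · -- `W1` leaves the line `x` along the link
      have hmem := i1.mem_right
      obtain ⟨w, hw⟩ := h1.next hmem (fun e => by rw [sW1, Prod.mk.injEq] at e; omega)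
      have hlink : w = (x + 1, x - 30) := by
        have hcase : w = (x, x - 30 + 1) ∨ w = (x + 1, x - 30) := by
          have harc := h1.arc hw
          obtain ⟨a, b⟩ := w
          rw [Prod.mk.injEq, Prod.mk.injEq];
          (have hh := Lay.arc_num harc
           rcases hh with ⟨k1, k2, k3 | k3 | k3 | k3 | k3⟩ |
            ⟨k1, k2, k3 | k3 | k3 | k3 | k3⟩ | ⟨k1, k2, k3 | k3 | k3 | k3⟩ |
            ⟨k1, k2, k3 | k3 | k3⟩ <;> omega)
        rcases hcase with rfl | rfl
        · exfalso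
          have h := h1.run_up (x := x) (y0 := x - 30 + 1) (60 * G.M + 30 - x) hw.mem_right
            (fun y _ _ e => by rw [sW1, Prod.mk.injEq] at e; omega)
            (fun y w _ _ hw => by
              obtain ⟨a, b⟩ := w; rw [Prod.mk.injEq];
              (have hh := Lay.arc_num hw
               rcases hh with ⟨k1, k2, k3 | k3 | k3 | k3 | k3⟩ |
                ⟨k1, k2, k3 | k3 | k3 | k3 | k3⟩ | ⟨k1, k2, k3 | k3 | k3 | k3⟩ |
                ⟨k1, k2, k3 | k3 | k3⟩ <;> omega))
            (60 * G.M + 29 - x) (by omega) (by omega)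
          have h' := h.2 (by omega)
          rw [show 60 * G.M + 29 - x + 1 = 60 * G.M + 30 - x by omega] at h'
          exact hd _ _ h' i2
        · rfl
      subst hlink
      have hr := (h1.run_right (y := x - 30) (x0 := x + 1) (x + 3) hw.mem_right
        (fun y _ _ e => by rw [sW1, Prod.mk.injEq] at e; omega)
        (fun y w _ _ hw => by
          obtain ⟨a, b⟩ := w; rw [Prod.mk.injEq];
          (have hh := Lay.arc_num hw
           rcases hh with ⟨k1, k2, k3 | k3 | k3 | k3 | k3⟩ |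
            ⟨k1, k2, k3 | k3 | k3 | k3 | k3⟩ | ⟨k1, k2, k3 | k3 | k3 | k3⟩ |
            ⟨k1, k2, k3 | k3 | k3⟩ <;> omega)) (x + 3) (by omega) le_rfl).1
      have h := h1.run_up (x := x + 3) (y0 := x - 30) (x + 3 - 30) hr
        (fun y _ _ e => by
          rw [sW1, Prod.mk.injEq] at e; omega)
        (fun y w _ _ hw => by
          obtain ⟨a, b⟩ := w; rw [Prod.mk.injEq];
          (have hh := Lay.arc_num hw
           rcases hh with ⟨k1, k2, k3 | k3 | k3 | k3 | k3⟩ |
            ⟨k1, k2, k3 | k3 | k3 | k3 | k3⟩ | ⟨k1, k2, k3 | k3 | k3 | k3⟩ |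
            ⟨k1, k2, k3 | k3 | k3⟩ <;> omega)) (x + 3 - 31) (by omega) (by omega)
      have := h.2 (by omega)
      rwa [show x + 3 - 31 + 1 = x + 3 - 30 by omega] at this
    · -- `W2` reaches the line `x` along the link
      have hb := (h2.back_up (x := x) (y1 := 60 * G.M + 29 - x) (60 * G.M + 27 - x)
        i2.mem_left (fun y _ _ e => by rw [rW2, Prod.mk.injEq] at e; omega)
        (fun y w _ _ hw => by
          obtain ⟨a, b⟩ := w; rw [Prod.mk.injEq];
          (have hh := Lay.arc_num hw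
           rcases hh with ⟨k1, k2, k3 | k3 | k3 | k3 | k3⟩ |
            ⟨k1, k2, k3 | k3 | k3 | k3 | k3⟩ | ⟨k1, k2, k3 | k3 | k3 | k3⟩ |
            ⟨k1, k2, k3 | k3 | k3⟩ <;> omega)) (60 * G.M + 27 - x) le_rfl
        (by omega)).1
      obtain ⟨w, hw⟩ := h2.prev hb (fun e => by rw [rW2, Prod.mk.injEq] at e; omega)
      have hlink : w = (x + 1, 60 * G.M + 27 - x) := by
        have hcase : w = (x, 60 * G.M + 26 - x) ∨ w = (x + 1, 60 * G.M + 27 - x) := by
          have harc := h2.arc hw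
          obtain ⟨a, b⟩ := w
          rw [Prod.mk.injEq, Prod.mk.injEq];
          (have hh := Lay.arc_num harc
           rcases hh with ⟨k1, k2, k3 | k3 | k3 | k3 | k3⟩ |
            ⟨k1, k2, k3 | k3 | k3 | k3 | k3⟩ | ⟨k1, k2, k3 | k3 | k3 | k3⟩ |
            ⟨k1, k2, k3 | k3 | k3⟩ <;> omega)
        rcases hcase with rfl | rfl
        · exfalso
          have h := h2.back_up (x := x) (y1 := 60 * G.M + 26 - x) (x - 31) hw.mem_left
            (fun y _ _ e => by rw [rW2, Prod.mk.injEq] at e; omega)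
            (fun y w _ _ hw => by
              obtain ⟨a, b⟩ := w; rw [Prod.mk.injEq];
              (have hh := Lay.arc_num hw
               rcases hh with ⟨k1, k2, k3 | k3 | k3 | k3 | k3⟩ |
                ⟨k1, k2, k3 | k3 | k3 | k3 | k3⟩ | ⟨k1, k2, k3 | k3 | k3 | k3⟩ |
                ⟨k1, k2, k3 | k3 | k3⟩ <;> omega)) (x - 31) le_rfl (by omega)
          have h' := h.2 (by omega)
          rw [show x - 31 + 1 = x - 30 by omega] at h'
          exact hd _ _ i1 h'
        · rfl
      subst hlink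
      have hr := h2.back_left (y := 60 * G.M + 27 - x) (x0 := x + 1) (x + 3) hw.mem_left
        (fun y _ _ e => by rw [rW2, Prod.mk.injEq] at e; omega)
        (fun y w _ _ hw => by
          obtain ⟨a, b⟩ := w; rw [Prod.mk.injEq];
          (have hh := Lay.arc_num hw
           rcases hh with ⟨k1, k2, k3 | k3 | k3 | k3 | k3⟩ |
            ⟨k1, k2, k3 | k3 | k3 | k3 | k3⟩ | ⟨k1, k2, k3 | k3 | k3 | k3⟩ |
            ⟨k1, k2, k3 | k3 | k3⟩ <;> omega)) (x + 3) (by omega) le_rfl
      rw [show 60 * G.M + 27 - x = 60 * G.M + 30 - (x + 3) by omega] at hr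
      refine h2.back hr (fun e => by rw [rW2, Prod.mk.injEq] at e; omega) fun w hw => ?_
      obtain ⟨a, b⟩ := w; rw [Prod.mk.injEq];
      (have hh := Lay.arc_num hw
       rcases hh with ⟨k1, k2, k3 | k3 | k3 | k3 | k3⟩ |
        ⟨k1, k2, k3 | k3 | k3 | k3 | k3⟩ | ⟨k1, k2, k3 | k3 | k3 | k3⟩ |
        ⟨k1, k2, k3 | k3 | k3⟩ <;> omega)

/-- The guards occupy one arc each on every return line. -/
theorem guards (h1 : IsDiPath G.Arc W1 G.rW1 G.sW1) (h2 : IsDiPath G.Arc W2 G.rW2 G.sW2)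
    (hd : Disj W1 W2) {x : ℕ} (hx : x % 3 = 0) (hx1 : 15 * G.M + 30 < x)
    (hx2 : x ≤ 30 * G.M + 15) :
    PE W1 (x, x - 31) (x, x - 30) ∧ PE W2 (x, 60 * G.M + 29 - x) (x, 60 * G.M + 30 - x) :=
  guard h1 h2 hd ((x - (15 * G.M + 33)) / 3) x (by omega) hx2

end Lay

end Pool.Agent.EPDP
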