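import Pool.Agent.Lib.MP_3cd67d_lc.Walks
import Pool.Agent.Lib.MP_3cd67d_lc.Guards

/-!
# From a satisfying assignment to the paths
-/

namespace Pool.Agent.EPDP

open Relation (ReflTransGen)

namespace Lay

variable {G : Lay}

/-- The arcs of the eleven paths. -/
def E (G : Lay) (val : ℕ → Prop) (ch : ℕ → ℕ) (i : ℕ) : ℕ × ℕ → ℕ × ℕ → Prop :=
  if i = 0 then G.RowE val True True else
  if i = 1 then G.RowE (fun v => ¬ val v) (¬ True) True else
  if i = 2 then G.RowE (fun _ => True) True False else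
  if i = 3 then G.RowE (fun _ => ¬ True) (¬ True) False else
  if i < 9 then G.ColE ch (3 * (i - 4)) else
  if i = 9 then G.G1E else G.G2E

theorem E_row {val : ℕ → Prop} {ch : ℕ → ℕ} {i : ℕ} (hi : i < 4) :
    ∃ τ σ, G.E val ch i = G.RowE τ σ (i < 2) := by
  have h : i = 0 ∨ i = 1 ∨ i = 2 ∨ i = 3 := by omega
  rcases h with rfl | rfl | rfl | rfl
  · exact ⟨val, True, by simp [E]⟩
  · exact ⟨fun v => ¬ val v, ¬ True, by simp [E]⟩
  · exact ⟨fun _ => True, True, by simp [E]⟩
  · exact ⟨fun _ => ¬ True, ¬ True, by simp [E]⟩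

theorem E_col {val : ℕ → Prop} {ch : ℕ → ℕ} {i : ℕ} (hi : 4 ≤ i) (hi' : i < 9) :
    G.E val ch i = G.ColE ch (3 * (i - 4)) := by
  rw [E, if_neg (by omega), if_neg (by omega), if_neg (by omega), if_neg (by omega),
    if_pos hi']

theorem E_nine {val : ℕ → Prop} {ch : ℕ → ℕ} : G.E val ch 9 = G.G1E := by simp [E]
theorem E_ten {val : ℕ → Prop} {ch : ℕ → ℕ} : G.E val ch 10 = G.G2E := by simp [E]

/-- The chosen tiles are on the rail of the second path. -/
def ValOk (G : Lay) (val : ℕ → Prop) (ch : ℕ → ℕ) : Prop :=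
  ∀ g, 1 ≤ g → g < G.M → (∀ v, G.tl (15 * g + 3 * ch g) (18 * G.M + 6 * v) → val v) ∧
    (∀ v, G.tl (15 * g + 3 * ch g) (18 * G.M + 6 * v + 2) → ¬ val v)

theorem E_disj_lt {val : ℕ → Prop} {ch : ℕ → ℕ} (hch : G.ChOk ch) (hv : G.ValOk val ch)
    {i j : ℕ} (hij : i < j) (hf : forb i j) {p q : ℕ × ℕ} (h : G.E val ch i p q) :
    ¬ G.E val ch j p q := by
  have hM := G.hM
  obtain ⟨f1, f2, f3, f4, f5⟩ := hf
  simp only [share] at f4 f5
  rcases Nat.lt_or_ge i 4 with hi | hi
  · rcases Nat.lt_or_ge j 4 with hj | hj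
    · have hc : (i = 0 ∧ j = 1) ∨ (i = 2 ∧ j = 3) := by omega
      rcases hc with ⟨rfl, rfl⟩ | ⟨rfl, rfl⟩
      · have e0 : G.E val ch 0 = G.RowE val True True := by simp [E]
        have e1 : G.E val ch 1 = G.RowE (fun v => ¬ val v) (¬ True) True := by simp [E]
        rw [e0] at h
        rw [e1]
        exact row_row h
      · have e0 : G.E val ch 2 = G.RowE (fun _ => True) True False := by simp [E]
        have e1 : G.E val ch 3 = G.RowE (fun _ => ¬ True) (¬ True) False := by simp [E]
        rw [e0] at h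
        rw [e1]
        exact row_row h
    rcases Nat.lt_or_ge j 9 with hj9 | hj9
    · rw [E_col hj hj9]
      rcases Nat.eq_or_lt_of_le hj with h4 | h4
      · -- the fourth path
        have hi1 : i ≠ 1 := by omega
        rcases Nat.eq_zero_or_pos i with rfl | hi0
        · have e0 : G.E val ch 0 = G.RowE val True True := by simp [E]
          rw [e0] at h
          refine row_col ?_ h
          rintro x y (⟨_, h0, ht, hon⟩ | ⟨h0, _⟩) h1 h2
          · have htt := G.tile ht
            rintro (⟨_, h5⟩ | ⟨h5, _⟩)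
            · have hg1 : 1 ≤ x / 15 := by omega
              have hg2 : x / 15 < G.M := by omega
              obtain ⟨v1, v2⟩ := hv (x / 15) hg1 hg2
              have hx : x - 1 = 15 * (x / 15) + 3 * ch (x / 15) := by omega
              rw [hx] at ht
              rcases hon with ⟨h6, h7⟩ | ⟨h6, h7, h8⟩
              · refine h7 (v1 _ ?_)
                rwa [show 18 * G.M + 6 * (y / 6 - 3 * G.M) = y by omega]
              · refine v2 (y / 6 - 3 * G.M) ?_ h8
                rwa [show 18 * G.M + 6 * (y / 6 - 3 * G.M) + 2 = y by omega]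
            · omega
          · exact absurd trivial h0
        · obtain ⟨τ, σ, e⟩ := E_row (G := G) (val := val) (ch := ch) hi
          rw [e] at h
          refine row_col ?_ h
          rintro x y (⟨h0, _⟩ | ⟨_, ht, _⟩) h1 h2
          · omega
          · have htt := (G.tile ht).2.2.1
            rintro (⟨_, h5⟩ | ⟨h5, _⟩)
            · omega
            · omega
      · obtain ⟨τ, σ, e⟩ := E_row (G := G) (val := val) (ch := ch) hi
        rw [e] at h
        refine row_col ?_ h
        rintro x y (⟨h0, h00, ht, _⟩ | ⟨h0, ht, _⟩) h1 h2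
        · have htt := (G.tile ht).2.2.1
          rintro (⟨h6, h5⟩ | ⟨_, h5⟩) <;> omega
        · have htt := (G.tile ht).2.2.1
          rintro (⟨h6, h5⟩ | ⟨_, h5⟩) <;> omega
    · obtain ⟨τ, σ, e⟩ := E_row (G := G) (val := val) (ch := ch) hi
      rw [e] at h
      have hc : j = 9 ∨ j = 10 := by omega
      rcases hc with rfl | rfl
      · rw [E_nine]
        exact row_guard1 h
      · rw [E_ten]
        exact row_guard2 h
  rcases Nat.lt_or_ge j 9 with hj9 | hj9
  · rw [E_col hi (by omega)] at h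
    rw [E_col (by omega) hj9]
    exact col_col hch (by omega) (by omega) (by omega) h
  · have hc : i = 9 ∧ j = 10 := by omega
    obtain ⟨rfl, rfl⟩ := hc
    rw [E_nine] at h
    rw [E_ten]
    exact guard_guard h

theorem E_disj {val : ℕ → Prop} {ch : ℕ → ℕ} (hch : G.ChOk ch) (hv : G.ValOk val ch)
    {i j : ℕ} (hf : forb i j) {p q : ℕ × ℕ} (h : G.E val ch i p q) : ¬ G.E val ch j p q := by
  rcases Nat.lt_trichotomy i j with hij | hij | hij
  · exact E_disj_lt hch hv hij hf h
  · exact absurd hij hf.2.2.1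
  · exact fun h' => E_disj_lt hch hv hij (forb_symm hf) h' h

theorem E_sub {val : ℕ → Prop} {ch : ℕ → ℕ} (hch : G.ChOk ch) {i : ℕ} (hi : i < 11)
    {p q : ℕ × ℕ} (h : G.E val ch i p q) : G.Arc p q := by
  rcases Nat.lt_or_ge i 4 with h4 | h4
  · obtain ⟨τ, σ, e⟩ := E_row (G := G) (val := val) (ch := ch) h4
    rw [e] at h
    exact RowE_sub h
  rcases Nat.lt_or_ge i 9 with h9 | h9
  · rw [E_col h4 h9] at h
    exact ColE_sub hch (by omega) (by omega) h
  · have hc : i = 9 ∨ i = 10 := by omega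
    rcases hc with rfl | rfl
    · rw [E_nine] at h
      exact G1E_sub h
    · rw [E_ten] at h
      exact G2E_sub h

theorem E_walk {val : ℕ → Prop} {ch : ℕ → ℕ} (hch : G.ChOk ch) {i : ℕ} (hi : i < 11) :
    ReflTransGen (G.E val ch i) (G.src i) (G.tgt i) := by
  have hM := G.hM
  rcases Nat.lt_or_ge i 4 with h4 | h4
  · obtain ⟨τ, σ, e⟩ := E_row (G := G) (val := val) (ch := ch) h4
    rw [e, src, tgt, if_pos h4, if_pos h4]
    exact walk_row
  rcases Nat.lt_or_ge i 9 with h9 | h9
  · have e1 : G.src i = (15 + 3 * (i - 4), 18 * G.M + 6 * G.N) := by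
      rw [src, if_neg (by omega), if_pos h9]
    have e2 : G.tgt i = (15 * G.M + 3 * (i - 4), 18 * G.M + 6 * G.N) := by
      rw [tgt, if_neg (by omega), if_pos h9]
    rw [E_col h4 h9, e1, e2]
    exact walk_col hch (by omega) (by omega)
  · have hc : i = 9 ∨ i = 10 := by omega
    rcases hc with rfl | rfl
    · rw [E_nine]
      simp only [src, tgt]
      have := walk_g1 (G := G) (5 * G.M - 6) (30 * G.M + 15) (by omega) le_rfl
      exact this
    · rw [E_ten]
      simp only [src, tgt]
      have := walk_g2 (G := G) (5 * G.M - 6) (15 * G.M + 33) (by omega) le_rfl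
      rw [show 60 * G.M + 30 - (15 * G.M + 33) = 45 * G.M - 3 by omega] at this
      exact this

theorem complete {val : ℕ → Prop} {ch : ℕ → ℕ} (hch : G.ChOk ch) (hv : G.ValOk val ch) :
    ∃ P : ℕ → List (ℕ × ℕ), (∀ i < 11, IsDiPath G.Arc (P i) (G.src i) (G.tgt i)) ∧
      ∀ i j, forb i j → Disj (P i) (P j) := by
  have h : ∀ i, ∃ l, i < 11 → IsDiPath (G.E val ch i) l (G.src i) (G.tgt i) := by
    intro i
    by_cases hi : i < 11
    · obtain ⟨l, hl⟩ := exists_path (E_walk (G := G) (val := val) hch hi)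
      exact ⟨l, fun _ => hl⟩
    · exact ⟨[], fun h => absurd h hi⟩
  choose P hP using h
  refine ⟨P, fun i hi => (hP i hi).mono fun u v h => E_sub hch hi h, fun i j hf u v h1 h2 => ?_⟩
  exact E_disj hch hv hf ((hP i hf.1).arc h1) ((hP j hf.2.1).arc h2)

end Lay

end Pool.Agent.EPDP
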