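import Pool.Agent.Lib.MP_3cd67d_lc.Path

/-!
# The grid digraph

A digraph whose vertices are lattice points and whose arcs are unit steps, given by four local
rules.
-/

namespace Pool.Agent.EPDP

/-- A digraph on lattice points given by four rules: a step to the right from `(x, y)`, a step
to the left into `(x, y)`, a step up from `(x, y)`, a step down into `(x, y)`. -/
def rules (R L U D : ℕ → ℕ → Prop) (p q : ℕ × ℕ) : Prop :=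
  (q.1 = p.1 + 1 ∧ q.2 = p.2 ∧ R p.1 p.2) ∨ (p.1 = q.1 + 1 ∧ q.2 = p.2 ∧ L q.1 q.2) ∨
  (q.1 = p.1 ∧ q.2 = p.2 + 1 ∧ U p.1 p.2) ∨ (q.1 = p.1 ∧ p.2 = q.2 + 1 ∧ D q.1 q.2)

/-- The data of the construction: `M - 1` groups of columns, `N` levels, and the positions of
the tiles. -/
structure Lay where
  M : ℕ
  N : ℕ
  tl : ℕ → ℕ → Prop
  hM : 2 ≤ M
  tile : ∀ {x y}, tl x y → 15 ≤ x ∧ x < 15 * M ∧ (x % 15 = 3 ∨ x % 15 = 6 ∨ x % 15 = 9) ∧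
    18 * M ≤ y ∧ y < 18 * M + 6 * N ∧ (y % 6 = 0 ∨ y % 6 = 2)

namespace Lay

variable (G : Lay)

/-- Steps to the right. -/
def R (x y : ℕ) : Prop :=
  (y % 3 = 0 ∧ 15 ≤ y ∧ y < 15 * G.M ∧ y ≤ x ∧ x + y < 30 * G.M + 30) ∨
  (18 * G.M ≤ y ∧ y < 18 * G.M + 6 * G.N ∧ ((y % 6 = 1 ∧ 14 ≤ x ∧ x < 15 * G.M) ∨
    (y % 6 = 3 ∧ 13 ≤ x ∧ x ≤ 15 * G.M)) ∧ ¬ (x % 3 = 1 ∧ G.tl (x - 1) (y - 1))) ∨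
  (G.tl x y ∨ G.tl (x - 1) y) ∨
  (y = 18 * G.M + 6 * G.N ∧ 15 ≤ x ∧ x < 15 * G.M ∧ x % 15 < 10) ∨
  (y % 3 = 0 ∧ 15 * G.M < y ∧ y + 18 ≤ 30 * G.M ∧ y + 30 ≤ x ∧ x < y + 33)

/-- Steps to the left. -/
def L (x y : ℕ) : Prop :=
  (y % 3 = 0 ∧ 45 * G.M + 6 * G.N < y ∧ y + 15 ≤ 60 * G.M + 6 * G.N ∧
    60 * G.M + 6 * G.N + 15 ≤ x + y ∧ x + 30 * G.M + 6 * G.N < y + 30) ∨
  (18 * G.M ≤ y ∧ y < 18 * G.M + 6 * G.N ∧ ((y % 6 = 4 ∧ 14 ≤ x ∧ x < 15 * G.M) ∨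
    (y % 6 = 5 ∧ 14 ≤ x ∧ x ≤ 15 * G.M))) ∨
  (x = 13 ∧ y % 6 = 5 ∧ 18 * G.M ≤ y + 1 ∧ y + 1 < 18 * G.M + 6 * G.N) ∨
  (y + 1 = 18 * G.M ∧ 15 ≤ x ∧ x < 15 * G.M ∧ x % 15 < 10) ∨
  (y % 3 = 0 ∧ 30 * G.M + 15 ≤ y ∧ y + 3 < 45 * G.M ∧ 60 * G.M + 27 ≤ x + y ∧
    x + y < 60 * G.M + 30)

/-- Steps up. -/
def U (x y : ℕ) : Prop :=
  (x % 3 = 0 ∧ 15 * G.M + 30 < x ∧ x ≤ 30 * G.M + 15 ∧ 30 * G.M + 30 ≤ x + y ∧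
    y + 30 < x + 30 * G.M + 6 * G.N) ∨
  (18 * G.M ≤ y ∧ y < 18 * G.M + 6 * G.N ∧ ((x = 15 * G.M ∧ 1 ≤ y % 6 ∧ y % 6 ≤ 3) ∨
    (x = 15 * G.M + 1 ∧ 3 ≤ y % 6 ∧ y % 6 ≤ 4) ∨ (x = 14 ∧ y % 6 = 4))) ∨
  (18 * G.M ≤ y + 1 ∧ ((x = 14 ∧ (y + 1) % 6 ≤ 1 ∧ y + 6 ≤ 18 * G.M + 6 * G.N) ∨
    (x = 13 ∧ (y + 1) % 6 ≤ 3 ∧ y + 4 ≤ 18 * G.M + 6 * G.N))) ∨
  (2 ≤ x ∧ G.tl (x - 2) y)

/-- Steps down. -/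
def D (x y : ℕ) : Prop :=
  (15 ≤ x ∧ x < 15 * G.M ∧ 18 * G.M ≤ y + 1 ∧ y < 18 * G.M + 6 * G.N ∧
    (x % 15 = 3 ∨ x % 15 = 4 ∨ x % 15 = 6 ∨ x % 15 = 7 ∨ x % 15 = 9 ∨ x % 15 = 10 ∨
      x % 15 = 12)) ∨
  (x % 3 = 0 ∧ 15 ≤ x ∧ x < 15 * G.M ∧ x ≤ y ∧ y + 1 < 18 * G.M) ∨
  (x % 3 = 0 ∧ 30 ≤ x ∧ x < 15 * G.M + 15 ∧ 18 * G.M + 6 * G.N ≤ y ∧
    y + x < 60 * G.M + 6 * G.N + 15)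

/-- The arcs of the grid digraph. -/
def Arc : ℕ × ℕ → ℕ × ℕ → Prop := rules G.R G.L G.U G.D

variable {G}

/-- The numerical part of the rules. -/
theorem arc_num {x y x' y' : ℕ} (h : G.Arc (x, y) (x', y')) :
  (x' = x + 1 ∧ y' = y ∧
    ((y % 3 = 0 ∧ 15 ≤ y ∧ y < 15 * G.M ∧ y ≤ x ∧ x + y < 30 * G.M + 30) ∨
    (18 * G.M ≤ y ∧ y < 18 * G.M + 6 * G.N ∧ ((y % 6 = 1 ∧ 14 ≤ x ∧ x < 15 * G.M) ∨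
      (y % 6 = 3 ∧ 13 ≤ x ∧ x ≤ 15 * G.M))) ∨
    (18 * G.M ≤ y ∧ y < 18 * G.M + 6 * G.N ∧ (y % 6 = 0 ∨ y % 6 = 2) ∧ 15 ≤ x ∧
      x < 15 * G.M ∧ (x % 15 = 3 ∨ x % 15 = 4 ∨ x % 15 = 6 ∨ x % 15 = 7 ∨ x % 15 = 9 ∨
        x % 15 = 10)) ∨
    (y = 18 * G.M + 6 * G.N ∧ 15 ≤ x ∧ x < 15 * G.M ∧ x % 15 < 10) ∨
    (y % 3 = 0 ∧ 15 * G.M < y ∧ y + 18 ≤ 30 * G.M ∧ y + 30 ≤ x ∧ x < y + 33))) ∨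
  (x = x' + 1 ∧ y' = y ∧
    ((y % 3 = 0 ∧ 45 * G.M + 6 * G.N < y ∧ y + 15 ≤ 60 * G.M + 6 * G.N ∧
      60 * G.M + 6 * G.N + 15 ≤ x' + y ∧ x' + 30 * G.M + 6 * G.N < y + 30) ∨
    (18 * G.M ≤ y ∧ y < 18 * G.M + 6 * G.N ∧ ((y % 6 = 4 ∧ 14 ≤ x' ∧ x' < 15 * G.M) ∨
      (y % 6 = 5 ∧ 14 ≤ x' ∧ x' ≤ 15 * G.M))) ∨
    (x' = 13 ∧ y % 6 = 5 ∧ 18 * G.M ≤ y + 1 ∧ y + 1 < 18 * G.M + 6 * G.N) ∨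
    (y + 1 = 18 * G.M ∧ 15 ≤ x' ∧ x' < 15 * G.M ∧ x' % 15 < 10) ∨
    (y % 3 = 0 ∧ 30 * G.M + 15 ≤ y ∧ y + 3 < 45 * G.M ∧ 60 * G.M + 27 ≤ x' + y ∧
      x' + y < 60 * G.M + 30))) ∨
  (x' = x ∧ y' = y + 1 ∧
    ((x % 3 = 0 ∧ 15 * G.M + 30 < x ∧ x ≤ 30 * G.M + 15 ∧ 30 * G.M + 30 ≤ x + y ∧
      y + 30 < x + 30 * G.M + 6 * G.N) ∨
    (18 * G.M ≤ y ∧ y < 18 * G.M + 6 * G.N ∧ ((x = 15 * G.M ∧ 1 ≤ y % 6 ∧ y % 6 ≤ 3) ∨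
      (x = 15 * G.M + 1 ∧ 3 ≤ y % 6 ∧ y % 6 ≤ 4) ∨ (x = 14 ∧ y % 6 = 4))) ∨
    (18 * G.M ≤ y + 1 ∧ ((x = 14 ∧ (y + 1) % 6 ≤ 1 ∧ y + 6 ≤ 18 * G.M + 6 * G.N) ∨
      (x = 13 ∧ (y + 1) % 6 ≤ 3 ∧ y + 4 ≤ 18 * G.M + 6 * G.N))) ∨
    (17 ≤ x ∧ x < 15 * G.M ∧ (x % 15 = 5 ∨ x % 15 = 8 ∨ x % 15 = 11) ∧ 18 * G.M ≤ y ∧
      y < 18 * G.M + 6 * G.N ∧ (y % 6 = 0 ∨ y % 6 = 2)))) ∨
  (x' = x ∧ y = y' + 1 ∧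
    ((15 ≤ x ∧ x < 15 * G.M ∧ 18 * G.M ≤ y ∧ y ≤ 18 * G.M + 6 * G.N ∧
      (x % 15 = 3 ∨ x % 15 = 4 ∨ x % 15 = 6 ∨ x % 15 = 7 ∨ x % 15 = 9 ∨ x % 15 = 10 ∨
        x % 15 = 12)) ∨
    (x % 3 = 0 ∧ 15 ≤ x ∧ x < 15 * G.M ∧ x ≤ y' ∧ y < 18 * G.M) ∨
    (x % 3 = 0 ∧ 30 ≤ x ∧ x < 15 * G.M + 15 ∧ 18 * G.M + 6 * G.N ≤ y' ∧
      y' + x < 60 * G.M + 6 * G.N + 15))) := by
  rcases h with ⟨h1, h2, h3⟩ | ⟨h1, h2, h3⟩ | ⟨h1, h2, h3⟩ | ⟨h1, h2, h3⟩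
  · left
    simp only at h1 h2 h3
    refine ⟨h1, h2, ?_⟩
    rcases h3 with h3 | h3 | (h3 | h3) | h3 | h3
    · exact Or.inl h3
    · exact Or.inr (Or.inl ⟨h3.1, h3.2.1, h3.2.2.1⟩)
    · have := G.tile h3
      exact Or.inr (Or.inr (Or.inl (by omega)))
    · have := G.tile h3
      exact Or.inr (Or.inr (Or.inl (by omega)))
    · exact Or.inr (Or.inr (Or.inr (Or.inl h3)))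
    · exact Or.inr (Or.inr (Or.inr (Or.inr h3)))
  · right; left
    simp only at h1 h2 h3
    subst h2
    exact ⟨h1, rfl, h3⟩
  · right; right; left
    simp only at h1 h2 h3
    refine ⟨h1, h2, ?_⟩
    rcases h3 with h3 | h3 | h3 | h3
    · exact Or.inl h3
    · exact Or.inr (Or.inl h3)
    · exact Or.inr (Or.inr (Or.inl h3))
    · have := G.tile h3.2
      exact Or.inr (Or.inr (Or.inr (by omega)))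
  · right; right; right
    simp only at h1 h2 h3
    subst h1
    refine ⟨rfl, h2, ?_⟩
    rcases h3 with h3 | h3 | h3
    · exact Or.inl (by omega)
    · exact Or.inr (Or.inl (by omega))
    · exact Or.inr (Or.inr h3)

end Lay

namespace Lay

variable {G : Lay}

/-- The only arc leaving a vertex on the vertical part of a return line. -/
theorem out_vert {x y : ℕ} {w : ℕ × ℕ} (h : G.Arc (x, y) w) (hx : x % 3 = 0)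
    (h1 : 15 * G.M + 30 < x) (h2 : x ≤ 30 * G.M + 15) (h3 : 30 * G.M + 30 ≤ x + y)
    (h4 : y + 30 < x + 30 * G.M + 6 * G.N) (h5 : y + 30 ≠ x) (h6 : x + y ≠ 60 * G.M + 30) :
    w = (x, y + 1) := by
  have := G.hM
  obtain ⟨a, b⟩ := w
  rw [Prod.mk.injEq]
  (have hh := Lay.arc_num h
   rcases hh with ⟨k1, k2, k3 | k3 | k3 | k3 | k3⟩ |
    ⟨k1, k2, k3 | k3 | k3 | k3 | k3⟩ | ⟨k1, k2, k3 | k3 | k3 | k3⟩ |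
    ⟨k1, k2, k3 | k3 | k3⟩ <;> omega)

end Lay

end Pool.Agent.EPDP
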