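import Pool.Agent.Lib.MP_3cd67d_lc.Defs
import Pool.Agent.Lib.MP_3cd67d_lc.Grid
import Pool.Agent.Lib.MP_a08d7f_lc.Defs

/-!
# The digraph of a 3-CNF formula
-/

namespace Pool.Agent.EPDP

open Pool.Agent.PolyTime Pool.Agent.PathSys

/-- A bound on the indices of the variables. -/
def nvar (φ : CNF3) : ℕ := (φ.map fun c => c.1.1 + (c.2.1.1 + c.2.2.1)).sum + 1

/-- The three literals of a clause. -/
def litAt (c : Lit × (Lit × Lit)) (k : ℕ) : Lit :=
  if k = 1 then c.1 else if k = 2 then c.2.1 else c.2.2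

/-- The tiles: for the clause number `x / 15 - 1` and its literal number `x % 15 / 3`, there is
a tile in the level of the variable, on the lower rail for a positive literal and on the upper
rail for a negative one. -/
def tlOf (φ : CNF3) (x y : ℕ) : Prop :=
  (15 ≤ x ∧ x < 15 * (φ.length + 2) ∧ (x % 15 = 3 ∨ x % 15 = 6 ∨ x % 15 = 9) ∧
    18 * (φ.length + 2) ≤ y ∧ y < 18 * (φ.length + 2) + 6 * nvar φ ∧ (y % 6 = 0 ∨ y % 6 = 2)) ∧
  (φ[x / 15 - 1]?).map (fun c => litAt c (x % 15 / 3)) =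
    some (y / 6 - 3 * (φ.length + 2), decide (y % 6 = 0))

/-- The layout of a formula. -/
def layout (φ : CNF3) : Lay where
  M := φ.length + 2
  N := nvar φ
  tl := tlOf φ
  hM := by omega
  tile h := h.1

namespace Lay

variable (G : Lay)

/-- The lattice points of a box containing the digraph. -/
def cells : List (ℕ × ℕ) :=
  (List.range (30 * G.M + 31)).flatMap fun x =>
    (List.range (60 * G.M + 6 * G.N + 1)).map fun y => (x, y)

/-- The number of a lattice point. -/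
def code (p : ℕ × ℕ) : ℕ := Nat.pair p.1 p.2

open Classical in
/-- The list of the arcs. -/
noncomputable def arcs : List (ℕ × ℕ) :=
  ((G.cells.filter fun p => decide (G.R p.1 p.2)).map fun p => (code p, code (p.1 + 1, p.2))) ++
  (((G.cells.filter fun p => decide (G.L p.1 p.2)).map fun p => (code (p.1 + 1, p.2), code p)) ++
  (((G.cells.filter fun p => decide (G.U p.1 p.2)).map fun p => (code p, code (p.1, p.2 + 1))) ++
  ((G.cells.filter fun p => decide (G.D p.1 p.2)).map fun p => (code (p.1, p.2 + 1), code p))))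

/-- The number of vertices: all points with code below this number. -/
def size : ℕ := (60 * G.M + 6 * G.N + 2) ^ 2

variable {G}

theorem mem_cells {x y : ℕ} :
    (x, y) ∈ G.cells ↔ x < 30 * G.M + 31 ∧ y < 60 * G.M + 6 * G.N + 1 := by
  simp only [cells, List.mem_flatMap, List.mem_range, List.mem_map, Prod.mk.injEq]
  constructor
  · rintro ⟨a, ha, b, hb, rfl, rfl⟩
    exact ⟨ha, hb⟩
  · rintro ⟨ha, hb⟩
    exact ⟨x, ha, y, hb, rfl, rfl⟩

theorem R_box {x y : ℕ} (h : G.R x y) : x < 30 * G.M + 30 ∧ y < 60 * G.M + 6 * G.N := by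
  have := G.hM
  rcases h with h | h | (h | h) | h | h
  · omega
  · obtain ⟨_, _, h, _⟩ := h; omega
  · have := G.tile h; omega
  · have := G.tile h; omega
  · omega
  · omega

theorem L_box {x y : ℕ} (h : G.L x y) : x < 30 * G.M + 30 ∧ y < 60 * G.M + 6 * G.N := by
  have := G.hM
  rcases h with h | h | h | h | h <;> omega

theorem U_box {x y : ℕ} (h : G.U x y) : x < 30 * G.M + 30 ∧ y < 60 * G.M + 6 * G.N := by
  have := G.hM
  rcases h with h | h | h | h
  · omega
  · omega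
  · omega
  · have := G.tile h.2; omega

theorem D_box {x y : ℕ} (h : G.D x y) : x < 30 * G.M + 30 ∧ y < 60 * G.M + 6 * G.N := by
  have := G.hM
  rcases h with h | h | h <;> omega

theorem mem_arcs {u v : ℕ} : (u, v) ∈ G.arcs ↔ G.Arc u.unpair v.unpair := by
  have key : ∀ p : ℕ × ℕ, ∀ u : ℕ, code p = u ↔ u.unpair = p := by
    intro p u
    constructor
    · rintro rfl
      exact Nat.unpair_pair _ _
    · rintro rfl
      exact Nat.pair_unpair u
  simp only [arcs, List.mem_append, List.mem_map, List.mem_filter, decide_eq_true_eq, Arc, rules,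
    Prod.mk.injEq, key]
  constructor
  · rintro (⟨⟨x, y⟩, ⟨_, h⟩, h1, h2⟩ | ⟨⟨x, y⟩, ⟨_, h⟩, h1, h2⟩ | ⟨⟨x, y⟩, ⟨_, h⟩, h1, h2⟩ |
      ⟨⟨x, y⟩, ⟨_, h⟩, h1, h2⟩)
    · rw [h1, h2]; exact Or.inl ⟨rfl, rfl, h⟩
    · rw [h1, h2]; exact Or.inr (Or.inl ⟨rfl, rfl, h⟩)
    · rw [h1, h2]; exact Or.inr (Or.inr (Or.inl ⟨rfl, rfl, h⟩))
    · rw [h1, h2]; exact Or.inr (Or.inr (Or.inr ⟨rfl, rfl, h⟩))
  · generalize u.unpair = p
    generalize v.unpair = q
    obtain ⟨x, y⟩ := p
    obtain ⟨a, b⟩ := q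
    rintro (⟨h1, h2, h⟩ | ⟨h1, h2, h⟩ | ⟨h1, h2, h⟩ | ⟨h1, h2, h⟩)
    · simp only at h1 h2 h
      subst h1 h2
      have := R_box h
      exact Or.inl ⟨(x, b), ⟨mem_cells.2 ⟨by omega, by omega⟩, h⟩, rfl, rfl⟩
    · simp only at h1 h2 h
      subst h1 h2
      have := L_box h
      exact Or.inr (Or.inl ⟨(a, b), ⟨mem_cells.2 ⟨by omega, by omega⟩, h⟩, rfl, rfl⟩)
    · simp only at h1 h2 h
      subst h1 h2
      have := U_box h
      exact Or.inr (Or.inr (Or.inl ⟨(a, y), ⟨mem_cells.2 ⟨by omega, by omega⟩, h⟩, rfl, rfl⟩))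
    · simp only at h1 h2 h
      subst h1 h2
      have := D_box h
      exact Or.inr (Or.inr (Or.inr ⟨(a, b), ⟨mem_cells.2 ⟨by omega, by omega⟩, h⟩, rfl, rfl⟩))

theorem nodup_cells : G.cells.Nodup := by
  rw [cells, List.nodup_flatMap]
  refine ⟨fun x _ => (List.nodup_range).map fun a b h => by simpa using h, ?_⟩
  refine List.Pairwise.imp ?_ List.nodup_range
  intro a b hab p hp hq
  simp only [List.mem_map, List.mem_range] at hp hq
  obtain ⟨_, _, rfl⟩ := hp
  obtain ⟨_, _, h⟩ := hq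
  simp only [Prod.mk.injEq] at h
  exact hab h.1.symm

theorem code_inj {p q : ℕ × ℕ} (h : code p = code q) : p = q := by
  have := congrArg Nat.unpair h
  simpa [code, Nat.unpair_pair] using this

theorem nodup_arcs : G.arcs.Nodup := by
  have hm : ∀ (Q : ℕ × ℕ → Bool) (f : ℕ × ℕ → ℕ × ℕ), Function.Injective f →
      ((G.cells.filter Q).map f).Nodup := fun Q f hf => (nodup_cells.filter Q).map hf
  rw [arcs, List.nodup_append', List.nodup_append', List.nodup_append']
  refine ⟨hm _ _ fun p q h => code_inj (Prod.mk.inj h).1,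
    ⟨hm _ _ fun p q h => code_inj (Prod.mk.inj h).2,
    ⟨hm _ _ fun p q h => code_inj (Prod.mk.inj h).1,
    hm _ _ fun p q h => code_inj (Prod.mk.inj h).2, ?_⟩, ?_⟩, ?_⟩
  all_goals
    intro e h1 h2
    simp only [List.mem_append, List.mem_map] at h1 h2
    obtain ⟨⟨x, y⟩, _, rfl⟩ := h1
  · obtain ⟨⟨a, b⟩, _, h⟩ := h2
    obtain ⟨g1, g2⟩ := Prod.mk.inj h
    have g1 := code_inj g1
    have g2 := code_inj g2
    simp only [Prod.mk.injEq] at g1 g2
    omega
  · rcases h2 with ⟨⟨a, b⟩, _, h⟩ | ⟨⟨a, b⟩, _, h⟩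
    all_goals
      obtain ⟨g1, g2⟩ := Prod.mk.inj h
      have g1 := code_inj g1
      have g2 := code_inj g2
      simp only [Prod.mk.injEq] at g1 g2
      omega
  · rcases h2 with ⟨⟨a, b⟩, _, h⟩ | ⟨⟨a, b⟩, _, h⟩ | ⟨⟨a, b⟩, _, h⟩
    all_goals
      obtain ⟨g1, g2⟩ := Prod.mk.inj h
      have g1 := code_inj g1
      have g2 := code_inj g2
      simp only [Prod.mk.injEq] at g1 g2
      omega

/-- One of the points is the neighbour of the other on a horizontal or vertical line. -/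
def Unit (p q : ℕ × ℕ) : Prop :=
  (q.1 = p.1 + 1 ∧ q.2 = p.2) ∨ (p.1 = q.1 + 1 ∧ q.2 = p.2) ∨
  (q.1 = p.1 ∧ q.2 = p.2 + 1) ∨ (q.1 = p.1 ∧ p.2 = q.2 + 1)

theorem Arc.unit {p q : ℕ × ℕ} (h : G.Arc p q) : Unit p q := by
  rcases h with ⟨h1, h2, _⟩ | ⟨h1, h2, _⟩ | ⟨h1, h2, _⟩ | ⟨h1, h2, _⟩
  · exact Or.inl ⟨h1, h2⟩
  · exact Or.inr (Or.inl ⟨h1, h2⟩)
  · exact Or.inr (Or.inr (Or.inl ⟨h1, h2⟩))
  · exact Or.inr (Or.inr (Or.inr ⟨h1, h2⟩))

theorem Arc.box {p q : ℕ × ℕ} (h : G.Arc p q) :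
    (p.1 ≤ 30 * G.M + 30 ∧ p.2 ≤ 60 * G.M + 6 * G.N) ∧
    (q.1 ≤ 30 * G.M + 30 ∧ q.2 ≤ 60 * G.M + 6 * G.N) := by
  rcases h with ⟨h1, h2, h⟩ | ⟨h1, h2, h⟩ | ⟨h1, h2, h⟩ | ⟨h1, h2, h⟩
  · have := R_box h; omega
  · have := L_box h; omega
  · have := U_box h; omega
  · have := D_box h; omega

theorem code_lt {x y : ℕ} (hx : x ≤ 30 * G.M + 30) (hy : y ≤ 60 * G.M + 6 * G.N) :
    Nat.pair x y < G.size := by
  have hM := G.hM
  refine lt_of_lt_of_le (Nat.pair_lt_max_add_one_sq x y) ?_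
  exact Nat.pow_le_pow_left (by omega) 2

variable (G) in
/-- The digraph. -/
noncomputable def dig : DiG where
  n := G.size
  arcs := G.arcs
  nodup := nodup_arcs
  lt := by
    rintro ⟨u, v⟩ h
    have := (mem_arcs.1 h).box
    constructor
    · have := code_lt (G := G) this.1.1 this.1.2
      rwa [Nat.pair_unpair] at this
    · have := code_lt (G := G) this.2.1 this.2.2
      rwa [Nat.pair_unpair] at this
  loopless := by
    rintro ⟨u, v⟩ h h1
    have := (mem_arcs.1 h).unit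
    simp only at h1
    subst h1
    rcases this with h | h | h | h <;> omega

variable (G)

/-- The starting points of the paths.  The paths `0, 1, 2, 3` are the horizontal ones, the
paths `4, …, 8` the vertical ones, and `9`, `10` are the guards. -/
def src (i : ℕ) : ℕ × ℕ :=
  if i < 4 then (14, 18 * G.M - 1) else
  if i < 9 then (15 + 3 * (i - 4), 18 * G.M + 6 * G.N) else
  if i = 9 then (15 * G.M + 33, 15 * G.M) else
  if i = 10 then (30 * G.M + 15, 30 * G.M + 12) else (0, 0)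

/-- The end points of the paths. -/
def tgt (i : ℕ) : ℕ × ℕ :=
  if i < 4 then (14, 18 * G.M + 6 * G.N - 1) else
  if i < 9 then (15 * G.M + 3 * (i - 4), 18 * G.M + 6 * G.N) else
  if i = 9 then (30 * G.M + 15, 30 * G.M - 15) else
  if i = 10 then (15 * G.M + 33, 45 * G.M - 3) else (0, 0)

variable {G} in
theorem src_lt (i : ℕ) : code (G.src i) < G.size := by
  have := G.hM
  unfold src code
  split_ifs <;> exact code_lt (by simp only; omega) (by simp only; omega)

variable {G} in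
theorem tgt_lt (i : ℕ) : code (G.tgt i) < G.size := by
  have := G.hM
  unfold tgt code
  split_ifs <;> exact code_lt (by simp only; omega) (by simp only; omega)

end Lay

/-- The pairs of paths which may share arcs. -/
def share (i j : ℕ) : Prop :=
  (i < 2 ∧ 2 ≤ j ∧ j < 4) ∨ (i = 1 ∧ j = 4) ∨ (2 ≤ i ∧ i < 4 ∧ 5 ≤ j ∧ j < 8) ∨
  (9 ≤ i ∧ i < 11 ∧ 4 ≤ j ∧ j < 9)

/-- The pairs of paths which may not share arcs. -/
def forb (i j : ℕ) : Prop := i < 11 ∧ j < 11 ∧ i ≠ j ∧ ¬ share i j ∧ ¬ share j i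

theorem forb_symm {i j : ℕ} (h : forb i j) : forb j i :=
  ⟨h.2.1, h.1, h.2.2.1.symm, h.2.2.2.2, h.2.2.2.1⟩

open Classical in
/-- The set of the pairs of paths which may not share arcs. -/
noncomputable def forbSet (k : ℕ) : Finset (Sym2 (Fin k)) :=
  Finset.univ.filter fun p => ∃ i j : Fin k, p = s(i, j) ∧ forb i.1 j.1

theorem mem_forbSet {k : ℕ} {i j : Fin k} : s(i, j) ∈ forbSet k ↔ forb i.1 j.1 := by
  simp only [forbSet, Finset.mem_filter, Finset.mem_univ, true_and]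
  constructor
  · rintro ⟨a, b, h, h'⟩
    rcases Sym2.eq_iff.1 h with ⟨rfl, rfl⟩ | ⟨rfl, rfl⟩
    · exact h'
    · exact forb_symm h'
  · intro h
    exact ⟨i, j, rfl, h⟩

/-- The instance of a layout. -/
noncomputable def instOf (G : Lay) (hp : G.dig.Planar) (k : ℕ) : Inst k where
  D := G.dig
  planar := hp
  r i := Lay.code (G.src i)
  s i := Lay.code (G.tgt i)
  r_lt i := Lay.src_lt i
  s_lt i := Lay.tgt_lt i
  F := forbSet k
  F_ne i h := (mem_forbSet.1 h).2.2.1 rfl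

end Pool.Agent.EPDP
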