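import Pool.Agent.Lib.MP_3cd67d_lc.Groups
import Pool.Agent.Lib.MP_3cd67d_lc.Reduction

/-!
# From the paths to a satisfying assignment
-/

namespace Pool.Agent.EPDP

namespace Lay

variable {G : Lay}

theorem three_through {p q r : List (ℕ × ℕ)} {a y : ℕ} (h1 : Disj p q) (h2 : Disj p r)
    (h3 : Disj q r) (hp : Through p a y) (hq : Through q a y) (hr : Through r a y) : False := by
  rcases hp with hp | hp <;> rcases hq with hq | hq <;> rcases hr with hr | hr
  · exact h1 _ _ hp hq
  · exact h1 _ _ hp hq
  · exact h2 _ _ hp hr
  · exact h3 _ _ hq hr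
  · exact h3 _ _ hq hr
  · exact h2 _ _ hp hr
  · exact h1 _ _ hp hq
  · exact h1 _ _ hp hq

theorem sound {P : ℕ → List (ℕ × ℕ)} (hP : ∀ i < 11, IsDiPath G.Arc (P i) (G.src i) (G.tgt i))
    (hd : ∀ i j, forb i j → Disj (P i) (P j)) :
    ∃ val : ℕ → Bool, ∀ g, 1 ≤ g → g < G.M → ∀ (v : Fin 3 → ℕ) (s : Fin 3 → Bool),
      (∀ t, v t < G.N ∧ G.tl (15 * g + 3 * (t.1 + 1))
        (18 * G.M + 6 * v t + if s t then 0 else 2)) → ∃ t, val (v t) = s t := by
  classical
  have hM := G.hM
  have hfb : ∀ i j, i < 11 → j < 11 → i ≠ j → ¬ share i j → ¬ share j i → Disj (P i) (P j) :=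
    fun i j h1 h2 h3 h4 h5 => hd i j ⟨h1, h2, h3, h4, h5⟩
  -- the horizontal paths
  have hrow : ∀ i, i < 4 → G.RowPath (P i) := by
    intro i hi
    refine ⟨?_, ?_⟩
    · have := hP i (by omega)
      simpa only [src, tgt, if_pos hi, rRow, sRow] using this
    · intro x h1 h2 h3 h4
      have h9 := hP 9 (by omega)
      have h10 := hP 10 (by omega)
      have := (guards (W1 := P 9) (W2 := P 10) h9 h10
        (hfb 9 10 (by omega) (by omega) (by omega) (by simp only [share]; omega)
          (by simp only [share]; omega)) h1 h2 h3).1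
      exact hfb i 9 (by omega) (by omega) (by omega) (by simp only [share]; omega)
        (by simp only [share]; omega) _ _ h4 this
  have h01 : Disj (P 0) (P 1) := hfb 0 1 (by omega) (by omega) (by omega)
    (by simp only [share]; omega) (by simp only [share]; omega)
  have h23 : Disj (P 2) (P 3) := hfb 2 3 (by omega) (by omega) (by omega)
    (by simp only [share]; omega) (by simp only [share]; omega)
  -- the vertical paths
  have hcp : ∀ i, 4 ≤ i → i < 9 → IsDiPath G.Arc (P i)
      (15 + 3 * (i - 4), 18 * G.M + 6 * G.N) (15 * G.M + 3 * (i - 4), 18 * G.M + 6 * G.N) := by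
    intro i h4 h9
    have := hP i (by omega)
    simpa only [src, tgt, if_neg (show ¬ i < 4 by omega), if_pos h9] using this
  have hcols : G.Cols (fun i : Fin 4 => P (4 + i.1)) (P 8) := by
    refine ⟨fun i => ?_, ?_, fun i j hij => ?_, fun i => ?_⟩
    · have hi := i.2
      have h := hcp (4 + i.1) (by omega) (by omega)
      rw [show 3 * (4 + i.1 - 4) = 3 * i.1 by omega] at h
      rcases Nat.eq_zero_or_pos i.1 with h0 | h0
      · refine colPath_of (hrow 2 (by omega)) (hrow 3 (by omega)) h23 ?_ ?_ (by omega) h
        · exact hfb _ _ (by omega) (by omega) (by omega) (by simp only [share]; omega)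
            (by simp only [share]; omega)
        · exact hfb _ _ (by omega) (by omega) (by omega) (by simp only [share]; omega)
            (by simp only [share]; omega)
      · refine colPath_of (hrow 0 (by omega)) (hrow 1 (by omega)) h01 ?_ ?_ (by omega) h
        · exact hfb _ _ (by omega) (by omega) (by omega) (by simp only [share]; omega)
            (by simp only [share]; omega)
        · exact hfb _ _ (by omega) (by omega) (by omega) (by simp only [share]; omega)
            (by simp only [share]; omega)
    · have h := hcp 8 (by omega) (by omega)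
      refine colPath_of (hrow 0 (by omega)) (hrow 1 (by omega)) h01 ?_ ?_ (by omega) h
      · exact hfb _ _ (by omega) (by omega) (by omega) (by simp only [share]; omega)
          (by simp only [share]; omega)
      · exact hfb _ _ (by omega) (by omega) (by omega) (by simp only [share]; omega)
          (by simp only [share]; omega)
    · have hi := i.2
      have hj := j.2
      have hne : i.1 ≠ j.1 := fun h => hij (Fin.ext h)
      exact hfb _ _ (by omega) (by omega) (by omega) (by simp only [share]; omega)
        (by simp only [share]; omega)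
    · have hi := i.2
      exact hfb _ _ (by omega) (by omega) (by omega) (by simp only [share]; omega)
        (by simp only [share]; omega)
  refine ⟨fun v => decide (G.onT (P 0) v 14), fun g hg hgM v s hvs => ?_⟩
  -- the columns used by the vertical paths
  have hlane : ∀ i : Fin 4, ∃ t : Fin 3, ∀ y, 18 * G.M ≤ y + 1 → y < 18 * G.M + 6 * G.N →
      Through (P (4 + i.1)) (15 * g + 3 * (t.1 + 1)) y := by
    intro i
    obtain ⟨a, h1, h2, h3⟩ := lanes hcols hg hgM i
    have h2' : a % 15 = 3 ∨ a % 15 = 6 ∨ a % 15 = 9 := h2
    rcases h2' with h | h | h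
    · refine ⟨0, fun y hy1 hy2 => ?_⟩
      have := h3 y hy1 hy2
      rwa [show a = 15 * g + 3 * ((0 : Fin 3).1 + 1) by
        change a = 15 * g + 3 * (0 + 1); omega] at this
    · refine ⟨1, fun y hy1 hy2 => ?_⟩
      have := h3 y hy1 hy2
      rwa [show a = 15 * g + 3 * ((1 : Fin 3).1 + 1) by
        change a = 15 * g + 3 * (1 + 1); omega] at this
    · refine ⟨2, fun y hy1 hy2 => ?_⟩
      have := h3 y hy1 hy2
      rwa [show a = 15 * g + 3 * ((2 : Fin 3).1 + 1) by
        change a = 15 * g + 3 * (2 + 1); omega] at this
  choose τ hτ using hlane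
  -- the row of the tile
  have hrange : ∀ t, 18 * G.M ≤ (18 * G.M + 6 * v t + if s t then 0 else 2) + 1 ∧
      (18 * G.M + 6 * v t + if s t then 0 else 2) < 18 * G.M + 6 * G.N := by
    intro t
    have := (hvs t).1
    split_ifs <;> omega
  -- a horizontal path passes every tile
  have hX : ∀ t, ∃ x, x < 2 ∧ Through (P x) (15 * g + 3 * (t.1 + 1))
      (18 * G.M + 6 * v t + if s t then 0 else 2) ∧
      (decide (G.onT (P 0) (v t) 14) ≠ s t → x = 0) := by
    intro t
    obtain ⟨h1, h2⟩ := hvs t
    by_cases hT : G.onT (P 0) (v t) 14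
    · cases hs : s t with
      | true =>
        rw [hs] at h2
        refine ⟨1, by omega, ?_, ?_⟩
        · simpa using (tile_F (hrow 0 (by omega)) (hrow 1 (by omega)) h01 h1
            (by simpa using h2)).1 hT
        · intro h; simp [hT] at h
      | false =>
        rw [hs] at h2
        refine ⟨0, by omega, ?_, fun _ => rfl⟩
        simpa using (tile_T (hrow 0 (by omega)) (hrow 1 (by omega)) h01 h1
          (by simpa using h2)).1 hT
    · cases hs : s t with
      | true =>
        rw [hs] at h2
        refine ⟨0, by omega, ?_, fun _ => rfl⟩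
        simpa using (tile_F (hrow 0 (by omega)) (hrow 1 (by omega)) h01 h1
          (by simpa using h2)).2 hT
      | false =>
        rw [hs] at h2
        refine ⟨1, by omega, ?_, ?_⟩
        · simpa using (tile_T (hrow 0 (by omega)) (hrow 1 (by omega)) h01 h1
            (by simpa using h2)).2 hT
        · intro h; simp [hT] at h
  -- the three auxiliary vertical paths use different tiles
  let σ : Fin 3 → Fin 3 := fun t => τ t.succ
  have hσ : Function.Injective σ := by
    intro a b hab
    by_contra hne
    obtain ⟨x, hx, hx1, _⟩ := hX (σ a)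
    have ha := hτ a.succ _ (hrange (σ a)).1 (hrange (σ a)).2
    have hb := hτ b.succ _ (hrange (σ a)).1 (hrange (σ a)).2
    change τ a.succ = τ b.succ at hab
    rw [← hab] at hb
    have ha1 : (a.succ).1 = a.1 + 1 := rfl
    have hb1 : (b.succ).1 = b.1 + 1 := rfl
    have ha2 := a.2
    have hb2 := b.2
    have hne' : a.1 ≠ b.1 := fun h => hne (Fin.ext h)
    refine three_through (p := P (4 + (a.succ).1)) (q := P (4 + (b.succ).1)) (r := P x)
      ?_ ?_ ?_ ha hb hx1
    · rw [ha1, hb1]
      exact hfb _ _ (by omega) (by omega) (by omega) (by simp only [share]; omega)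
        (by simp only [share]; omega)
    · rw [ha1]
      exact hfb _ _ (by omega) (by omega) (by omega) (by simp only [share]; omega)
        (by simp only [share]; omega)
    · rw [hb1]
      exact hfb _ _ (by omega) (by omega) (by omega) (by simp only [share]; omega)
        (by simp only [share]; omega)
  obtain ⟨a, ha⟩ := (Finite.injective_iff_surjective.1 hσ) (τ 0)
  refine ⟨τ 0, ?_⟩
  by_contra hne
  obtain ⟨x, hx, hx1, hx2⟩ := hX (τ 0)
  obtain rfl := hx2 hne
  have h0 := hτ 0 _ (hrange (τ 0)).1 (hrange (τ 0)).2
  have h1 := hτ a.succ _ (hrange (τ 0)).1 (hrange (τ 0)).2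
  change τ a.succ = τ 0 at ha
  rw [ha] at h1
  have ha1 : (a.succ).1 = a.1 + 1 := rfl
  have ha2 := a.2
  refine three_through (p := P (4 + (0 : Fin 4).1)) (q := P (4 + (a.succ).1)) (r := P 0)
    ?_ ?_ ?_ h0 h1 hx1
  · rw [ha1]
    change Disj (P (4 + 0)) _
    exact hfb _ _ (by omega) (by omega) (by omega) (by simp only [share]; omega)
      (by simp only [share]; omega)
  · change Disj (P (4 + 0)) _
    exact hfb _ _ (by omega) (by omega) (by omega) (by simp only [share]; omega)
      (by simp only [share]; omega)
  · rw [ha1]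
    exact hfb _ _ (by omega) (by omega) (by omega) (by simp only [share]; omega)
      (by simp only [share]; omega)

end Lay

end Pool.Agent.EPDP
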