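import Pool.Agent.Lib.MP_3cd67d_lc.Complete
import Pool.Agent.Lib.MP_3cd67d_lc.Sound

/-!
# Correctness of the reduction
-/

namespace Pool.Agent.EPDP

open Pool.Agent.PolyTime Pool.Agent.PathSys

section Map

variable {V W : Type*} {A : V → V → Prop} {B : W → W → Prop} {l : List V} {r s : V}

theorem IsDiPath.map (f : V → W) (hf : Function.Injective f)
    (hAB : ∀ u v, A u v → B (f u) (f v)) (h : IsDiPath A l r s) :
    IsDiPath B (l.map f) (f r) (f s) where
  chain := List.isChain_map_of_isChain f (fun _ _ h => hAB _ _ h) h.chain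
  nodup := h.nodup.map hf
  head := by rw [List.head?_map, h.head]; rfl
  last := by rw [List.getLast?_map, h.last]; rfl

theorem PE.of_map (f : V → W) {u v : W} (h : PE (l.map f) u v) :
    ∃ p q, PE l p q ∧ f p = u ∧ f q = v := by
  obtain ⟨i, hi, h1, h2⟩ := pe_iff.1 h
  rw [List.length_map] at hi
  rw [List.getElem_map] at h1 h2
  exact ⟨_, _, pe_iff.2 ⟨i, hi, rfl, rfl⟩, h1, h2⟩

end Map

theorem unpair_injective : Function.Injective Nat.unpair := by
  intro a b h
  rw [← Nat.pair_unpair a, h, Nat.pair_unpair]

theorem code_injective : Function.Injective Lay.code := fun _ _ h => Lay.code_inj h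

theorem unpair_code (p : ℕ × ℕ) : (Lay.code p).unpair = p := Nat.unpair_pair _ _

theorem code_unpair (n : ℕ) : Lay.code n.unpair = n := Nat.pair_unpair n

/-- The instance is solvable iff the paths exist in the grid. -/
theorem solvable_iff {G : Lay} (hp : G.dig.Planar) {k : ℕ} (hk : 11 ≤ k) :
    (instOf G hp k).Solvable ↔ ∃ P : ℕ → List (ℕ × ℕ),
      (∀ i < 11, IsDiPath G.Arc (P i) (G.src i) (G.tgt i)) ∧
      ∀ i j, forb i j → Disj (P i) (P j) := by
  constructor
  · rintro ⟨P, h1, h2⟩
    refine ⟨fun i => if h : i < k then (P ⟨i, h⟩).map Nat.unpair else [], fun i hi => ?_,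
      fun i j hf u v e1 e2 => ?_⟩
    · have hik : i < k := by omega
      simp only [dif_pos hik]
      have := (h1 ⟨i, hik⟩).map (B := G.Arc) Nat.unpair unpair_injective
        (fun u v h => Lay.mem_arcs.1 h)
      simpa only [instOf, unpair_code] using this
    · have hik : i < k := by have := hf.1; omega
      have hjk : j < k := by have := hf.2.1; omega
      simp only [dif_pos hik] at e1
      simp only [dif_pos hjk] at e2
      obtain ⟨p, q, e3, rfl, rfl⟩ := e1.of_map
      obtain ⟨p', q', e4, e5, e6⟩ := e2.of_map
      rw [unpair_injective e5, unpair_injective e6] at e4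
      exact h2 ⟨i, hik⟩ ⟨j, hjk⟩ (mem_forbSet.2 hf) p q ⟨e3, e4⟩
  · rintro ⟨P, h1, h2⟩
    refine ⟨fun i => if i.1 < 11 then (P i.1).map Lay.code else [Lay.code (0, 0)],
      fun i => ?_, fun i j hf u v h => ?_⟩
    · by_cases hi : i.1 < 11
      · simp only [if_pos hi]
        refine (h1 i.1 hi).map Lay.code code_injective fun u v h => ?_
        change (Lay.code u, Lay.code v) ∈ G.arcs
        rw [Lay.mem_arcs, unpair_code, unpair_code]
        exact h
      · simp only [if_neg hi]
        have e1 : G.src i.1 = (0, 0) := by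
          rw [Lay.src, if_neg (by omega), if_neg (by omega), if_neg (by omega),
            if_neg (by omega)]
        have e2 : G.tgt i.1 = (0, 0) := by
          rw [Lay.tgt, if_neg (by omega), if_neg (by omega), if_neg (by omega),
            if_neg (by omega)]
        refine ⟨List.isChain_singleton _, List.nodup_singleton _, ?_, ?_⟩
        · change some _ = some (Lay.code (G.src i.1))
          rw [e1]
        · change some _ = some (Lay.code (G.tgt i.1))
          rw [e2]
          rfl
    · have hf := mem_forbSet.1 hf
      simp only [if_pos hf.1, if_pos hf.2.1] at h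
      obtain ⟨p, q, e3, rfl, rfl⟩ := h.1.of_map
      obtain ⟨p', q', e4, e5, e6⟩ := h.2.of_map
      rw [code_injective e5, code_injective e6] at e4
      exact h2 _ _ hf _ _ e3 e4

theorem litAt_one (c : Lit × (Lit × Lit)) : litAt c 1 = c.1 := rfl
theorem litAt_two (c : Lit × (Lit × Lit)) : litAt c 2 = c.2.1 := rfl
theorem litAt_three (c : Lit × (Lit × Lit)) : litAt c 3 = c.2.2 := rfl

theorem var_lt {φ : CNF3} {c : Lit × (Lit × Lit)} (hc : c ∈ φ) (t : ℕ) :
    (litAt c t).1 < nvar φ := by
  have h : c.1.1 + (c.2.1.1 + c.2.2.1) ≤ (φ.map fun c => c.1.1 + (c.2.1.1 + c.2.2.1)).sum :=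
    List.single_le_sum (by simp) _ (List.mem_map.2 ⟨c, hc, rfl⟩)
  unfold nvar litAt
  split_ifs <;> omega

/-- The correctness of the reduction on the level of the grid. -/
theorem sat_iff_paths (φ : CNF3) : Sat3 φ ↔ ∃ P : ℕ → List (ℕ × ℕ),
      (∀ i < 11, IsDiPath (layout φ).Arc (P i) ((layout φ).src i) ((layout φ).tgt i)) ∧
      ∀ i j, forb i j → Disj (P i) (P j) := by
  constructor
  · rintro ⟨v, hv⟩
    have hch : ∀ g, ∃ t, 1 ≤ t ∧ t ≤ 3 ∧ ∀ c, φ[g - 1]? = some c → litVal v (litAt c t) := by
      intro g
      cases hc : φ[g - 1]? with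
      | none => exact ⟨1, le_rfl, by omega, fun c h => by cases h⟩
      | some c =>
        rcases hv c (List.mem_of_getElem? hc) with h | h | h
        · exact ⟨1, by omega, by omega, fun c' h' => by cases h'; exact h⟩
        · exact ⟨2, by omega, by omega, fun c' h' => by cases h'; exact h⟩
        · exact ⟨3, by omega, by omega, fun c' h' => by cases h'; exact h⟩
    choose ch h1 h2 h3 using hch
    refine Lay.complete (val := fun i => v i = true) (ch := ch)
      (fun g _ _ => ⟨h1 g, h2 g⟩) ?_
    intro g hg hgM
    have ha := h1 g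
    have hb := h2 g
    have e1 : (15 * g + 3 * ch g) / 15 - 1 = g - 1 := by omega
    have e2 : (15 * g + 3 * ch g) % 15 / 3 = ch g := by omega
    have key : ∀ y, (layout φ).tl (15 * g + 3 * ch g) y →
        v (y / 6 - 3 * (layout φ).M) = decide (y % 6 = 0) := by
      intro y hy
      have hy2 : (φ[(15 * g + 3 * ch g) / 15 - 1]?).map
          (fun c => litAt c ((15 * g + 3 * ch g) % 15 / 3)) =
          some (y / 6 - 3 * (φ.length + 2), decide (y % 6 = 0)) := hy.2
      rw [e1, e2, Option.map_eq_some_iff] at hy2
      obtain ⟨c, hc, hc2⟩ := hy2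
      have := h3 g c hc
      rw [hc2] at this
      exact this
    constructor
    · intro w hw
      have := key _ hw
      rw [show (18 * (layout φ).M + 6 * w) / 6 - 3 * (layout φ).M = w by omega] at this
      rw [this]
      have : (18 * (layout φ).M + 6 * w) % 6 = 0 := by omega
      simp [this]
    · intro w hw
      have := key _ hw
      rw [show (18 * (layout φ).M + 6 * w + 2) / 6 - 3 * (layout φ).M = w by omega] at this
      have h6 : (18 * (layout φ).M + 6 * w + 2) % 6 = 2 := by omega
      rw [h6] at this
      change ¬ v w = true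
      rw [this]
      simp
  · rintro ⟨P, h1, h2⟩
    obtain ⟨val, hval⟩ := Lay.sound h1 h2
    refine ⟨val, fun c hc => ?_⟩
    obtain ⟨j, hj, rfl⟩ := List.getElem_of_mem hc
    have hM : (layout φ).M = φ.length + 2 := rfl
    have hN : (layout φ).N = nvar φ := rfl
    obtain ⟨t, ht⟩ := hval (j + 1) (by omega) (by omega)
      (fun t => (litAt φ[j] (t.1 + 1)).1) (fun t => (litAt φ[j] (t.1 + 1)).2) (by
        intro t
        have htlt := t.2
        have hv := var_lt hc (t.1 + 1)
        refine ⟨hv, ?_⟩
        generalize hl : litAt φ[j] (t.1 + 1) = lit at hv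
        obtain ⟨w, b⟩ := lit
        have e1 : (15 * (j + 1) + 3 * (t.1 + 1)) / 15 - 1 = j := by omega
        have e2 : (15 * (j + 1) + 3 * (t.1 + 1)) % 15 / 3 = t.1 + 1 := by omega
        simp only at hv ⊢
        cases b with
        | true =>
          simp only [if_pos]
          refine ⟨⟨by omega, by omega, by omega, by rw [hM]; omega, by rw [hM]; omega,
            by rw [hM]; omega⟩, ?_⟩
          rw [e1, e2, List.getElem?_eq_getElem hj, hM]
          simp only [Option.map_some, hl, Option.some.injEq, Prod.mk.injEq]
          constructor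
          · omega
          · have : (18 * (φ.length + 2) + 6 * w + 0) % 6 = 0 := by omega
            rw [this]
            rfl
        | false =>
          simp only [Bool.false_eq_true, if_false]
          refine ⟨⟨by omega, by omega, by omega, by rw [hM]; omega, by rw [hM]; omega,
            by rw [hM]; omega⟩, ?_⟩
          rw [e1, e2, List.getElem?_eq_getElem hj, hM]
          simp only [Option.map_some, hl, Option.some.injEq, Prod.mk.injEq]
          constructor
          · omega
          · have : (18 * (φ.length + 2) + 6 * w + 2) % 6 = 2 := by omega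
            rw [this]
            rfl)
    have ht' : litVal val (litAt φ[j] (t.1 + 1)) := ht
    have htlt := t.2
    have hc3 : t.1 + 1 = 1 ∨ t.1 + 1 = 2 ∨ t.1 + 1 = 3 := by omega
    rcases hc3 with h | h | h
    · rw [h, litAt_one] at ht'
      exact Or.inl ht'
    · rw [h, litAt_two] at ht'
      exact Or.inr (Or.inl ht')
    · rw [h, litAt_three] at ht'
      exact Or.inr (Or.inr ht')

end Pool.Agent.EPDP
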