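import Pool.Agent.Lib.MP_3cd67d_lc.Path
import Pool.Agent.Lib.PolyTime.More

/-!
# The edge-disjoint partially disjoint paths problem in planar digraphs
-/

namespace Pool.Agent.EPDP

open Pool.Agent.PolyTime

/-- A finite digraph without loops and parallel arcs.  Its vertices are `0, …, n - 1`, and
`arcs` is the list of its arcs `(tail, head)`. -/
structure DiG where
  n : ℕ
  arcs : List (ℕ × ℕ)
  nodup : arcs.Nodup
  lt : ∀ a ∈ arcs, a.1 < n ∧ a.2 < n
  loopless : ∀ a ∈ arcs, a.1 ≠ a.2

/-- The digraph can be drawn in the plane without crossings: the vertices are distinct points,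
every arc is a simple curve from its tail to its head whose inner points avoid all vertices,
and the curves of two different arcs have no inner point in common. -/
def DiG.Planar (D : DiG) : Prop :=
  ∃ (pos : ℕ → ℝ × ℝ) (γ : ℕ × ℕ → ℝ → ℝ × ℝ),
    (∀ u < D.n, ∀ v < D.n, pos u = pos v → u = v) ∧
    ∀ a ∈ D.arcs, ContinuousOn (γ a) (Set.Icc 0 1) ∧ Set.InjOn (γ a) (Set.Icc 0 1) ∧
      γ a 0 = pos a.1 ∧ γ a 1 = pos a.2 ∧
      (∀ t ∈ Set.Ioo (0 : ℝ) 1, ∀ v < D.n, γ a t ≠ pos v) ∧
      ∀ b ∈ D.arcs, b ≠ a → ∀ t ∈ Set.Ioo (0 : ℝ) 1, ∀ u ∈ Set.Ioo (0 : ℝ) 1, γ a t ≠ γ b u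

/-- An instance of the problem: a planar digraph, the terminals `r i` and `s i`, and a set `F`
of unordered pairs of indices. -/
structure Inst (k : ℕ) where
  D : DiG
  planar : D.Planar
  r : Fin k → ℕ
  s : Fin k → ℕ
  r_lt : ∀ i, r i < D.n
  s_lt : ∀ i, s i < D.n
  F : Finset (Sym2 (Fin k))
  F_ne : ∀ i, s(i, i) ∉ F

/-- There are directed paths from `r i` to `s i` such that the paths of every pair in `F` have
no arc in common. -/
def Inst.Solvable {k : ℕ} (I : Inst k) : Prop :=
  ∃ P : Fin k → List ℕ,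
    (∀ i, IsDiPath (fun u v => (u, v) ∈ I.D.arcs) (P i) (I.r i) (I.s i)) ∧
    ∀ i j, s(i, j) ∈ I.F → ∀ u v, ¬ (PE (P i) u v ∧ PE (P j) u v)

/-- The data written on the tape for an instance: the number of vertices, the list of arcs, the
lists of the terminals, and the matrix of the set `F`. -/
def Inst.data {k : ℕ} (I : Inst k) :
    ℕ × (List (ℕ × ℕ) × (List ℕ × (List ℕ × List (List Bool)))) :=
  (I.D.n, (I.D.arcs, ((List.finRange k).map I.r, ((List.finRange k).map I.s,
    (List.finRange k).map fun i => (List.finRange k).map fun j => decide (s(i, j) ∈ I.F)))))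

instance {k : ℕ} : Rep (Inst k) := ⟨fun I => toT I.data⟩

theorem map_finRange_inj {n : ℕ} {β : Type*} {f g : Fin n → β}
    (h : (List.finRange n).map f = (List.finRange n).map g) : f = g := by
  funext i
  exact (List.map_inj_left.1 h) i (List.mem_finRange i)

theorem Inst.data_injective {k : ℕ} : Function.Injective (Inst.data (k := k)) := by
  intro I I' h
  obtain ⟨⟨n, arcs, h1, h2, h3⟩, pl, r, s, hr, hs, F, hF⟩ := I
  obtain ⟨⟨n', arcs', h1', h2', h3'⟩, pl', r', s', hr', hs', F', hF'⟩ := I'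
  unfold Inst.data at h
  simp only [Prod.mk.injEq] at h
  obtain ⟨e1, e2, e3, e4, e5⟩ := h
  subst e1 e2
  have f3 := map_finRange_inj e3
  have f4 := map_finRange_inj e4
  have f5 : F = F' := by
    ext p
    induction p with
    | _ i j =>
      have := congrFun (map_finRange_inj (congrFun (map_finRange_inj e5) i)) j
      simpa using this
  subst f3 f4 f5
  rfl

instance {k : ℕ} : InjRep (Inst k) := ⟨fun _ _ h => Inst.data_injective
  (InjRep.inj (α := ℕ × (List (ℕ × ℕ) × (List ℕ × (List ℕ × List (List Bool))))) h)⟩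

end Pool.Agent.EPDP
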