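import Pool.Agent.Lib.MP_3cd67d_lc.Guards

/-!
# Arcs entering certain regions of the grid
-/

namespace Pool.Agent.EPDP
namespace Lay
variable {G : Lay}

theorem arc_right {x y : ℕ} (h : G.Arc (x, y) (x + 1, y)) : G.R x y := by
  rcases h with ⟨_, _, h⟩ | ⟨h, _⟩ | ⟨h, _⟩ | ⟨h, _⟩
  · exact h
  all_goals simp only at h; omega

theorem arc_left {x y : ℕ} (h : G.Arc (x + 1, y) (x, y)) : G.L x y := by
  rcases h with ⟨h, _⟩ | ⟨_, _, h⟩ | ⟨h, _⟩ | ⟨h, _⟩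
  · simp only at h; omega
  · exact h
  all_goals simp only at h; omega

/-- The four cases of an arc. -/
theorem arc_cases {x y a b : ℕ} (h : G.Arc (x, y) (a, b)) :
    (a = x + 1 ∧ b = y ∧ G.R x y) ∨ (x = a + 1 ∧ b = y ∧ G.L a y) ∨
    (a = x ∧ b = y + 1 ∧ G.U x y) ∨ (a = x ∧ y = b + 1 ∧ G.D x b) := by
  rcases h with ⟨h1, h2, h⟩ | ⟨h1, h2, h⟩ | ⟨h1, h2, h⟩ | ⟨h1, h2, h⟩
  · exact Or.inl ⟨h1, h2, h⟩
  · simp only at h1 h2 h; subst h2; exact Or.inr (Or.inl ⟨h1, rfl, h⟩)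
  · exact Or.inr (Or.inr (Or.inl ⟨h1, h2, h⟩))
  · simp only at h1 h2 h; subst h1; exact Or.inr (Or.inr (Or.inr ⟨rfl, h2, h⟩))

theorem band_R {x y : ℕ} (h : G.R x y) (_ : 18 * G.M ≤ y) (_ : y < 18 * G.M + 6 * G.N)
    (_ : x < 15 * G.M + 30) : (y % 6 = 1 ∧ 14 ≤ x ∧ x < 15 * G.M) ∨
    (y % 6 = 3 ∧ 13 ≤ x ∧ x ≤ 15 * G.M) ∨ ((y % 6 = 0 ∨ y % 6 = 2) ∧ 15 ≤ x ∧ x < 15 * G.M) := by
  have := G.hM
  rcases h with h | h | (h | h) | h | h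
  · omega
  · obtain ⟨_, _, h, _⟩ := h; omega
  · have := G.tile h; omega
  · have := G.tile h; omega
  · omega
  · omega

theorem band_L {x y : ℕ} (h : G.L x y) (_ : 18 * G.M ≤ y) (_ : y < 18 * G.M + 6 * G.N)
    (_ : x < 15 * G.M + 30) : (y % 6 = 4 ∧ 14 ≤ x ∧ x < 15 * G.M) ∨
    (y % 6 = 5 ∧ 13 ≤ x ∧ x ≤ 15 * G.M) := by
  have := G.hM
  rcases h with h | h | h | h | h <;> omega

theorem band_U {x y : ℕ} (h : G.U x y) (_ : 18 * G.M ≤ y + 1) (_ : y < 18 * G.M + 6 * G.N)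
    (_ : x < 15 * G.M + 30) : (x = 15 * G.M ∧ 1 ≤ y % 6 ∧ y % 6 ≤ 3) ∨
    (x = 15 * G.M + 1 ∧ 3 ≤ y % 6 ∧ y % 6 ≤ 4) ∨ (x = 14 ∧ (y % 6 = 4 ∨ y % 6 = 5 ∨ y % 6 = 0)) ∨
    (x = 13 ∧ (y + 1) % 6 ≤ 3) ∨ (17 ≤ x ∧ x < 15 * G.M ∧ (y % 6 = 0 ∨ y % 6 = 2)) := by
  have := G.hM
  rcases h with h | h | h | h
  · omega
  · omega
  · omega
  · have := G.tile h.2; omega

theorem enter_gen (P : ℕ → ℕ → Prop) {x y a b : ℕ} (h : G.Arc (x, y) (a, b))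
    (h1 : ¬ ((x < 15 * G.M + 30 ∧ P x y) ∨ (15 * G.M + 30 ≤ x ∧ x ≤ y + 30))) 
    (h2 : (a < 15 * G.M + 30 ∧ P a b) ∨ (15 * G.M + 30 ≤ a ∧ a ≤ b + 30)) :
    (a = x ∧ b = y + 1 ∧ y + 31 = x ∧ x % 3 = 0 ∧ 15 * G.M + 30 < x ∧ x ≤ 30 * G.M + 15) ∨
    (x < 15 * G.M + 30 ∧ a < 15 * G.M + 30 ∧ ¬ P x y ∧ P a b) := by
  have := G.hM
  rcases h2 with ⟨h2, h3⟩ | ⟨h2, h3⟩
  · right
    have hx : x < 15 * G.M + 30 := by
      by_contra hx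
      refine h1 (Or.inr ⟨by omega, ?_⟩)
      clear h1 h3
      (have hh := Lay.arc_num h
       rcases hh with ⟨k1, k2, k3 | k3 | k3 | k3 | k3⟩ |
        ⟨k1, k2, k3 | k3 | k3 | k3 | k3⟩ | ⟨k1, k2, k3 | k3 | k3 | k3⟩ |
        ⟨k1, k2, k3 | k3 | k3⟩ <;> omega)
    exact ⟨hx, h2, fun hp => h1 (Or.inl ⟨hx, hp⟩), h3⟩
  · left
    have hx : 15 * G.M + 30 ≤ x := by
      by_contra hx
      clear h1
      (have hh := Lay.arc_num h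
       rcases hh with ⟨k1, k2, k3 | k3 | k3 | k3 | k3⟩ |
        ⟨k1, k2, k3 | k3 | k3 | k3 | k3⟩ | ⟨k1, k2, k3 | k3 | k3 | k3⟩ |
        ⟨k1, k2, k3 | k3 | k3⟩ <;> omega)
    have hx2 : y + 30 < x := by
      by_contra hx2
      exact h1 (Or.inr ⟨hx, by omega⟩)
    clear h1
    (have hh := Lay.arc_num h
     rcases hh with ⟨k1, k2, k3 | k3 | k3 | k3 | k3⟩ |
      ⟨k1, k2, k3 | k3 | k3 | k3 | k3⟩ | ⟨k1, k2, k3 | k3 | k3 | k3⟩ |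
      ⟨k1, k2, k3 | k3 | k3⟩ <;> omega)

/-- The part of the plane given by `P` on the left and the part after the guard on the right. -/
def Reg (G : Lay) (P : ℕ → ℕ → Prop) (p : ℕ × ℕ) : Prop :=
  (p.1 < 15 * G.M + 30 ∧ P p.1 p.2) ∨ (15 * G.M + 30 ≤ p.1 ∧ p.1 ≤ p.2 + 30)

def PL (G : Lay) (i x y : ℕ) : Prop :=
  18 * G.M + 6 * i ≤ y ∨ (18 * G.M + 6 * i ≤ y + 1 ∧ x ≤ 14)
def PR (G : Lay) (i x y : ℕ) : Prop :=
  18 * G.M + 6 * i + 4 ≤ y ∨ (18 * G.M + 6 * i + 3 ≤ y ∧ 15 * G.M ≤ x)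
def PC (G : Lay) (i x0 x y : ℕ) : Prop :=
  18 * G.M + 6 * i + 4 ≤ y ∨ (18 * G.M + 6 * i ≤ y ∧ x0 < x)
def PD (G : Lay) (i x0 x y : ℕ) : Prop :=
  18 * G.M + 6 * i + 6 ≤ y ∨ (18 * G.M + 6 * i + 4 ≤ y ∧ x ≤ x0)
def PS (G : Lay) (i a y0 x y : ℕ) : Prop :=
  18 * G.M + 6 * i + 4 ≤ y ∨ (18 * G.M + 6 * i ≤ y ∧ a + 1 < x) ∨ (y = y0 ∧ (x = a ∨ x = a + 1))

theorem enter_PL {i : ℕ} (hi : i ≤ G.N) {x y a b : ℕ} (h : G.Arc (x, y) (a, b))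
    (hx : x < 15 * G.M + 30) (hx' : a < 15 * G.M + 30)
    (h1 : ¬ G.PL i x y) (h2 : G.PL i a b) : a = 14 ∧ b + 1 = 18 * G.M + 6 * i := by
  have := G.hM
  simp only [PL] at h1 h2
  rcases arc_cases h with ⟨rfl, rfl, h3⟩ | ⟨rfl, rfl, h3⟩ | ⟨rfl, rfl, h3⟩ | ⟨rfl, rfl, h3⟩
  · omega
  · omega
  · rcases Nat.lt_or_ge y (18 * G.M + 6 * G.N) with h4 | h4
    · rcases Nat.lt_or_ge (y + 1) (18 * G.M) with h5 | h5
      · rcases h3 with h3 | h3 | h3 | h3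
        · omega
        · omega
        · omega
        · have := G.tile h3.2; omega
      · have := band_U h3 h5 h4 hx; omega
    · omega
  · omega

theorem enter_PR {i : ℕ} (hi : i < G.N) {x y a b : ℕ} (h : G.Arc (x, y) (a, b))
    (hx : x < 15 * G.M + 30) (hx' : a < 15 * G.M + 30)
    (h1 : ¬ G.PR i x y) (h2 : G.PR i a b) : a = 15 * G.M ∧ b = 18 * G.M + 6 * i + 3 := by
  have := G.hM
  simp only [PR] at h1 h2
  rcases arc_cases h with ⟨rfl, rfl, h3⟩ | ⟨rfl, rfl, h3⟩ | ⟨rfl, rfl, h3⟩ | ⟨rfl, rfl, h3⟩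
  · have := band_R h3 (by omega) (by omega) hx; omega
  · omega
  · have := band_U h3 (by omega) (by omega) hx; omega
  · omega

theorem enter_PC {i x0 : ℕ} (hi : i < G.N) (hx : 14 ≤ x0) (hx' : x0 < 15 * G.M)
    {x y a b : ℕ} (h : G.Arc (x, y) (a, b)) 
    (hx : x < 15 * G.M + 30) (hx' : a < 15 * G.M + 30)
    (h1 : ¬ G.PC i x0 x y) (h2 : G.PC i x0 a b) :
    x = x0 ∧ a = x0 + 1 ∧ b = y ∧ 18 * G.M + 6 * i ≤ y ∧ y ≤ 18 * G.M + 6 * i + 3 := by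
  have := G.hM
  simp only [PC] at h1 h2
  rcases arc_cases h with ⟨rfl, rfl, h3⟩ | ⟨rfl, rfl, h3⟩ | ⟨rfl, rfl, h3⟩ | ⟨rfl, rfl, h3⟩
  · omega
  · omega
  · have := band_U h3 (by omega) (by omega) hx; omega
  · omega

theorem enter_PD {i x0 : ℕ} (hi : i < G.N) (hx : 14 ≤ x0) (hx' : x0 < 15 * G.M)
    {x y a b : ℕ} (h : G.Arc (x, y) (a, b)) 
    (hx : x < 15 * G.M + 30) (hx' : a < 15 * G.M + 30)
    (h1 : ¬ G.PD i x0 x y) (h2 : G.PD i x0 a b) :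
    x = x0 + 1 ∧ a = x0 ∧ b = y ∧ (y = 18 * G.M + 6 * i + 4 ∨ y = 18 * G.M + 6 * i + 5) := by
  have := G.hM
  simp only [PD] at h1 h2
  rcases arc_cases h with ⟨rfl, rfl, h3⟩ | ⟨rfl, rfl, h3⟩ | ⟨rfl, rfl, h3⟩ | ⟨rfl, rfl, h3⟩
  · omega
  · omega
  · have := band_U h3 (by omega) (by omega) hx; omega
  · omega

theorem enter_ST {i x0 : ℕ} (hi : i < G.N) (hx : 14 ≤ x0) (hx' : x0 < 15 * G.M)
    {x y a b : ℕ} (h : G.Arc (x, y) (a, b))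
    (h1 : ¬ (x0 < x ∧ x < 15 * G.M ∧ 18 * G.M + 6 * i + 2 ≤ y ∧ y ≤ 18 * G.M + 6 * i + 3))
    (h2 : x0 < a ∧ a < 15 * G.M ∧ 18 * G.M + 6 * i + 2 ≤ b ∧ b ≤ 18 * G.M + 6 * i + 3) :
    (x = x0 ∧ a = x0 + 1 ∧ b = y ∧ (y = 18 * G.M + 6 * i + 2 ∨ y = 18 * G.M + 6 * i + 3)) ∨
      (a = x ∧ y = 18 * G.M + 6 * i + 4 ∧ b = 18 * G.M + 6 * i + 3 ∧ x < 15 * G.M) := by
  have := G.hM
  rcases arc_cases h with ⟨rfl, rfl, h3⟩ | ⟨rfl, rfl, h3⟩ | ⟨rfl, rfl, h3⟩ | ⟨rfl, rfl, h3⟩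
  · omega
  · have := band_L h3 (by omega) (by omega) (by omega); omega
  · have := band_U h3 (by omega) (by omega) (by omega); omega
  · omega

theorem enter_PS {i a0 y0 : ℕ} (hi : i < G.N) (ht : G.tl a0 y0)
    (hy : y0 = 18 * G.M + 6 * i ∨ y0 = 18 * G.M + 6 * i + 2)
    {x y a b : ℕ} (h : G.Arc (x, y) (a, b)) (hx : x < 15 * G.M + 30) (hx' : a < 15 * G.M + 30)
    (h1 : ¬ G.PS i a0 y0 x y) (h2 : G.PS i a0 y0 a b) :
    (x = a0 ∧ y = y0 + 1 ∧ a = a0 ∧ b = y0) ∨ (x = a0 + 1 ∧ y = y0 + 1 ∧ a = a0 + 1 ∧ b = y0) ∨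
    (x = a0 + 1 ∧ a = a0 + 2 ∧ b = y ∧ y ≠ y0 ∧ 18 * G.M + 6 * i ≤ y ∧
      y ≤ 18 * G.M + 6 * i + 3) := by
  have hM := G.hM
  simp only [PS, not_or, not_and] at h1
  obtain ⟨g1, g2, g3⟩ := h1
  rcases arc_cases h with ⟨rfl, rfl, h3⟩ | ⟨rfl, rfl, h3⟩ | ⟨rfl, rfl, h3⟩ | ⟨rfl, rfl, h3⟩
  · rcases h2 with h2 | ⟨h2, h4⟩ | ⟨h2, h4⟩
    · exact absurd h2 g1
    · have := g2 h2
      right; right
      refine ⟨by omega, by omega, rfl, ?_, h2, by omega⟩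
      rintro rfl
      exact (g3 rfl).2 (by omega)
    · obtain ⟨g3, g4⟩ := g3 h2
      exfalso
      have h5 : x + 1 = a0 := by clear hy; omega
      have ht' := (G.tile ht).2.2
      clear hx' g1 g2 g3 g4 h4
      subst h2
      rcases h3 with h3 | h3 | (h3 | h3) | h3 | h3
      · omega
      · obtain ⟨_, _, h3, _⟩ := h3; omega
      · have := G.tile h3; omega
      · have := (G.tile h3).2.2.1; omega
      · omega
      · omega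
  · have hc : b = y0 := by
      rcases h2 with h2 | ⟨h2, h4⟩ | ⟨h2, h4⟩
      · exact absurd h2 g1
      · exact absurd (by omega) (g2 h2)
      · exact h2
    clear h2 g1 g2 g3
    have := band_L h3 (by omega) (by omega) (by omega)
    omega
  · exfalso
    rcases h2 with h2 | ⟨h2, h4⟩ | ⟨h2, h4⟩
    · have := band_U h3 (by omega) (by omega) (by omega)
      have hg := g2 (by omega)
      have ht' := (G.tile ht).2.1
      have ht2 := (G.tile ht).2.2.1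
      clear g2 g3 hy h ht hx'
      have hy : y = 18 * G.M + 6 * i + 3 := by omega
      clear h2 g1
      omega
    · have := band_U h3 (by omega) (by omega) (by omega)
      have hy : y + 1 = 18 * G.M + 6 * i := by
        by_contra hc
        exact g2 (by omega) h4
      have ht' := (G.tile ht).1
      clear h2 g1 g2 g3
      omega
    · have := band_U h3 (by omega) (by omega) (by omega)
      clear g1 g2 g3
      have ht' := (G.tile ht).2.2.1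
      rcases this with h | h | h | h | h
      · omega
      · omega
      · omega
      · omega
      · omega
  · rcases h2 with h2 | ⟨h2, h4⟩ | ⟨h2, h4⟩
    · omega
    · exact absurd h4 (g2 (by omega))
    · clear g1 g2 g3 hy
      omega
end Lay
end Pool.Agent.EPDP
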