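import Pool.Agent.Lib.MP_3cd67d_lc.Lines

/-!
# The induction over the groups of columns
-/

namespace Pool.Agent.EPDP

namespace Lay

variable {G : Lay} {l : List (ℕ × ℕ)} {ρ : ℕ}

/-- The path runs through the first guarded arc of the return line of column `c`. -/
def F1 (G : Lay) (l : List (ℕ × ℕ)) (c : ℕ) : Prop :=
  PE l (30 * G.M + 30 - c, 30 * G.M + 30 - c - 31) (30 * G.M + 30 - c, 30 * G.M + 30 - c - 30)

/-- The path runs through the second guarded arc of the return line of column `c`. -/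
def F2 (G : Lay) (l : List (ℕ × ℕ)) (c : ℕ) : Prop :=
  PE l (30 * G.M + 30 - c, 60 * G.M + 29 - (30 * G.M + 30 - c))
    (30 * G.M + 30 - c, 60 * G.M + 30 - (30 * G.M + 30 - c))

/-- The five vertical paths. -/
structure Cols (G : Lay) (K : Fin 4 → List (ℕ × ℕ)) (Q : List (ℕ × ℕ)) : Prop where
  hK : ∀ i, G.ColPath (K i) (3 * i.1)
  hQ : G.ColPath Q 12
  hKK : ∀ i j, i ≠ j → Disj (K i) (K j)
  hKQ : ∀ i, Disj (K i) Q

variable {K : Fin 4 → List (ℕ × ℕ)} {Q : List (ℕ × ℕ)}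

/-- The first four paths are at the top of group `g`, and `Q` blocks the line before. -/
structure Four (G : Lay) (K : Fin 4 → List (ℕ × ℕ)) (Q : List (ℕ × ℕ)) (g : ℕ) : Prop where
  top : ∀ i, ∃ x, x / 15 = g ∧ x % 15 ≤ 10 ∧ (x, 18 * G.M + 6 * G.N) ∈ K i
  prev : 2 ≤ g → G.F1 Q (15 * g - 3)

theorem ColPath.f2_of (hl : G.ColPath l ρ) {c : ℕ} (h0 : c % 3 = 0) (h1 : 15 ≤ c)
    (h2 : c < 15 * G.M) (h : G.F1 l c) (hn : 18 ≤ c → ¬ G.F1 l (c - 3)) : G.F2 l c := by
  have hM := G.hM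
  refine hl.line2 (V := 30 * G.M + 30 - c) (by omega) (by omega) (by omega) h.mem_right ?_
  intro h3 h4
  refine hn (by omega) ?_
  unfold F1
  convert h4 using 2 <;> omega

theorem ColPath.next_of (hl : G.ColPath l ρ) {c : ℕ} (h0 : c % 3 = 0) (h1 : 15 ≤ c)
    (h2 : c < 15 * G.M) (h : G.F2 l c) (hn : c + 3 < 15 * G.M → ¬ G.F2 l (c + 3)) :
    (c + 15, 18 * G.M + 6 * G.N) ∈ l := by
  have hM := G.hM
  refine hl.line3 (V := 30 * G.M + 30 - c) (c := c) (by omega) (by omega) (by omega) (by omega)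
    h.mem_right ?_
  intro h3 h4
  refine hn (by omega) ?_
  unfold F2
  convert h4 using 2 <;> omega

theorem partA (h : G.Cols K Q) {g : ℕ} (hg : 1 ≤ g) (hgM : g < G.M) (hf : G.Four K Q g) :
    (∀ i, ∃ a, a / 15 = g ∧ tcol a ∧ a < 15 * G.M ∧ 15 ≤ a ∧
      ∀ y, 18 * G.M ≤ y + 1 → y < 18 * G.M + 6 * G.N → Through (K i) a y) ∧
    (∃ e : Fin 4 → Fin 4, Function.Bijective e ∧
      ∀ i, G.F1 (K i) (15 * g + 3 * (e i).1) ∧ G.F2 (K i) (15 * g + 3 * (e i).1)) := by
  have hM := G.hM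
  have hlane : ∀ i, ∃ a, a / 15 = g ∧ tcol a ∧ a < 15 * G.M ∧ 15 ≤ a ∧
      ∀ y, 18 * G.M ≤ y + 1 → y < 18 * G.M + 6 * G.N → Through (K i) a y := by
    intro i
    obtain ⟨x, h1, h2, h3⟩ := hf.top i
    obtain ⟨x', e1, e2, e3, e4, e5⟩ := (h.hK i).top _ x rfl (by omega) (by omega) h2 h3
    -- the lane
    have hD : G.D x' (18 * G.M + 6 * G.N - 1) := by
      rcases arc_cases ((h.hK i).path.arc e5) with ⟨h, _⟩ | ⟨h, _⟩ | ⟨_, h, _⟩ | ⟨_, _, h⟩
      · omega
      · omega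
      · omega
      · exact h
    have hx : x' % 15 = 3 ∨ x' % 15 = 4 ∨ x' % 15 = 6 ∨ x' % 15 = 7 ∨ x' % 15 = 9 ∨
        x' % 15 = 10 := by
      rcases hD with hD | hD | hD <;> omega
    have hN : 18 * G.M + 6 * G.N - 1 + 1 = 18 * G.M + 6 * G.N := by omega
    have hc : tcol x' ∨ (tcol (x' - 1) ∧ x' - 1 + 1 = x' ∧ (x' - 1) / 15 = x' / 15 ∧
        15 ≤ x' - 1) := by
      simp only [tcol]; omega
    rcases hc with hc | ⟨hc, hc1, hc2, hc3⟩
    · refine ⟨x', by omega, hc, e3, e4, fun y hy1 hy2 => ?_⟩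
      refine (h.hK i).lane e4 e3 hc ?_ (18 * G.M + 6 * G.N - 1 - y) y (by omega) hy1
      left
      rw [hN]
      exact e5
    · refine ⟨x' - 1, by omega, hc, by omega, hc3, fun y hy1 hy2 => ?_⟩
      refine (h.hK i).lane hc3 (by omega) hc ?_ (18 * G.M + 6 * G.N - 1 - y) y (by omega) hy1
      right
      rw [hN, hc1]
      exact e5
  refine ⟨hlane, ?_⟩
  -- the exits
  have hexit : ∀ i, ∃ c, c % 3 = 0 ∧ c / 15 = g ∧ c % 15 ≤ 10 ∧
      PE (K i) (c, 18 * G.M - 1) (c, 18 * G.M - 2) := by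
    intro i
    obtain ⟨a, h1, h2, h3, h4, h5⟩ := hlane i
    have h2' : a % 15 = 3 ∨ a % 15 = 6 ∨ a % 15 = 9 := h2
    have h6 := h5 (18 * G.M - 1) (by omega) (by omega)
    rcases h6 with h6 | h6
    · obtain ⟨c, e1, e2, e3, e4⟩ := (h.hK i).bot _ a rfl h4 h3 h6.mem_right
        (by clear hf hlane; omega)
      exact ⟨c, e1, by omega, e3, e4⟩
    · obtain ⟨c, e1, e2, e3, e4⟩ := (h.hK i).bot _ (a + 1) rfl (by omega)
        (by clear hf hlane; omega) h6.mem_right
        (by clear hf hlane; omega)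
      exact ⟨c, e1, by clear hf hlane h5 h6 e4 h2; omega, e3, e4⟩
  choose c hc1 hc2 hc3 hc4 using hexit
  let e : Fin 4 → Fin 4 := fun i => ⟨(c i % 15) / 3, by have := hc3 i; omega⟩
  have hce : ∀ i, c i = 15 * g + 3 * (e i).1 := by
    intro i
    have := hc1 i
    have := hc2 i
    change c i = 15 * g + 3 * (c i % 15 / 3)
    omega
  have hinj : Function.Injective e := by
    intro i j hij
    by_contra hne
    have h1 : c i = c j := by rw [hce i, hce j, hij]
    have h2 := hc4 j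
    rw [← h1] at h2
    exact h.hKK i j hne _ _ (hc4 i) h2
  have hbij : Function.Bijective e := Finite.injective_iff_bijective.1 hinj
  have hf1 : ∀ i, G.F1 (K i) (15 * g + 3 * (e i).1) := by
    intro i
    rw [← hce i]
    have := hc1 i
    have := hc2 i
    exact (h.hK i).line1 (by omega) (by omega) (by omega) (by omega) (hc4 i)
  refine ⟨e, hbij, fun i => ⟨hf1 i, ?_⟩⟩
  have hlt : (e i).1 < 4 := (e i).2
  refine (h.hK i).f2_of (by omega) (by omega) (by omega) (hf1 i) ?_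
  intro h18 hno
  rcases Nat.eq_zero_or_pos (e i).1 with h0 | h0
  · have h2 : 2 ≤ g := by omega
    have h3 := hf.prev h2
    rw [h0, Nat.mul_zero, Nat.add_zero] at hno
    exact h.hKQ i _ _ hno h3
  · obtain ⟨j, hj⟩ := hbij.2 ⟨(e i).1 - 1, by omega⟩
    have hj' : (e j).1 = (e i).1 - 1 := by rw [hj]
    have hne : i ≠ j := by
      rintro rfl
      omega
    have h3 := hf1 j
    have h4 : 15 * g + 3 * (e j).1 = 15 * g + 3 * (e i).1 - 3 := by omega
    rw [h4] at h3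
    exact h.hKK i j hne _ _ hno h3

theorem partB (h : G.Cols K Q) {g : ℕ} (hg : 1 ≤ g) (hgM : g < G.M) (hf : G.Four K Q g)
    (hQ : (15 * g + 12, 18 * G.M + 6 * G.N) ∈ Q) :
    G.Four K Q (g + 1) ∧ G.F2 Q (15 * g + 12) := by
  have hM := G.hM
  obtain ⟨_, e, hbij, he⟩ := partA h hg hgM hf
  have hQ1 : G.F1 Q (15 * g + 12) := by
    refine h.hQ.line1 (by omega) (by omega) (by omega) (by omega)
      (h.hQ.dlane (a := 15 * g + 12) (by omega) (by omega) (by omega) hQ)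
  have hQ2 : G.F2 Q (15 * g + 12) := by
    refine h.hQ.f2_of (by omega) (by omega) (by omega) hQ1 ?_
    intro _ hno
    obtain ⟨j, hj⟩ := hbij.2 3
    have h3 := (he j).1
    rw [hj] at h3
    have h4 : 15 * g + 3 * ((3 : Fin 4) : ℕ) = 15 * g + 12 - 3 := by
      change 15 * g + 3 * 3 = _
      omega
    rw [h4] at h3
    exact h.hKQ j _ _ h3 hno
  refine ⟨⟨fun i => ?_, fun _ => ?_⟩, hQ2⟩
  · refine ⟨15 * g + 3 * (e i).1 + 15, ?_, ?_, ?_⟩
    · have : (e i).1 < 4 := (e i).2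
      omega
    · have : (e i).1 < 4 := (e i).2
      omega
    · have hlt : (e i).1 < 4 := (e i).2
      refine (h.hK i).next_of (by omega) (by omega) (by omega) (he i).2 ?_
      intro hlt2 hno
      rcases Nat.lt_or_ge (e i).1 3 with h3 | h3
      · obtain ⟨j, hj⟩ := hbij.2 ⟨(e i).1 + 1, by omega⟩
        have hj' : (e j).1 = (e i).1 + 1 := by rw [hj]
        have hne : i ≠ j := by
          rintro rfl
          omega
        have h3 := (he j).2
        have h4 : 15 * g + 3 * (e j).1 = 15 * g + 3 * (e i).1 + 3 := by omega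
        rw [h4] at h3
        exact h.hKK i j hne _ _ hno h3
      · have h4 : 15 * g + 3 * (e i).1 + 3 = 15 * g + 12 := by omega
        rw [h4] at hno
        exact h.hKQ i _ _ hno hQ2
  · have h4 : 15 * (g + 1) - 3 = 15 * g + 12 := by omega
    rw [h4]
    exact hQ1

theorem partC (h : G.Cols K Q) {g : ℕ} (hg : 1 ≤ g) (hgM : g < G.M) (hf : G.Four K Q g)
    (hQ : (15 * g + 12, 18 * G.M + 6 * G.N) ∈ Q) :
    (15 * (g + 1) + 12, 18 * G.M + 6 * G.N) ∈ Q := by
  have hM := G.hM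
  obtain ⟨hf', hQ2⟩ := partB h hg hgM hf hQ
  have := h.hQ.next_of (c := 15 * g + 12) (by omega) (by omega) (by omega) hQ2 ?_
  · rwa [show 15 * (g + 1) + 12 = 15 * g + 12 + 15 by omega]
  intro hlt hno
  obtain ⟨_, e, hbij, he⟩ := partA h (g := g + 1) (by omega) (by omega) hf'
  obtain ⟨j, hj⟩ := hbij.2 0
  have h3 := (he j).2
  rw [hj] at h3
  have h4 : 15 * (g + 1) + 3 * ((0 : Fin 4) : ℕ) = 15 * g + 12 + 3 := by
    change 15 * (g + 1) + 3 * 0 = _
    omega
  rw [h4] at h3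
  exact h.hKQ j _ _ h3 hno

theorem groups (h : G.Cols K Q) : ∀ g, 1 ≤ g → g ≤ G.M →
    G.Four K Q g ∧ (15 * g + 12, 18 * G.M + 6 * G.N) ∈ Q := by
  have hM := G.hM
  intro g hg
  induction g, hg using Nat.le_induction with
  | base =>
    intro _
    refine ⟨⟨fun i => ?_, fun h => by omega⟩, ?_⟩
    · have h1 := (h.hK i).path.mem_head
      have hlt : i.1 < 4 := i.2
      exact ⟨15 + 3 * i.1, by omega, by omega, h1⟩
    · exact h.hQ.path.mem_head
  | succ g hg ih =>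
    intro hgM
    obtain ⟨h1, h2⟩ := ih (by omega)
    exact ⟨(partB h hg (by omega) h1 h2).1, partC h hg (by omega) h1 h2⟩

/-- In every group of columns, each of the first four vertical paths passes all levels in the
two columns of one of the three tiles. -/
theorem lanes (h : G.Cols K Q) {g : ℕ} (hg : 1 ≤ g) (hgM : g < G.M) (i : Fin 4) :
    ∃ a, a / 15 = g ∧ tcol a ∧ ∀ y, 18 * G.M ≤ y + 1 → y < 18 * G.M + 6 * G.N →
      Through (K i) a y := by
  obtain ⟨a, h1, h2, _, _, h3⟩ := (partA h hg hgM (groups h g hg hgM.le).1).1 i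
  exact ⟨a, h1, h2, h3⟩

end Lay

end Pool.Agent.EPDP
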