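import Pool.Agent.Lib.MP_3cd67d_lc.Cols

/-!
# The return lines and the groups of columns
-/

namespace Pool.Agent.EPDP

namespace Lay

variable {G : Lay} {l l' : List (ℕ × ℕ)} {ρ : ℕ}

theorem ColPath.dlane (hl : G.ColPath l ρ) {a : ℕ} (h1 : 15 ≤ a) (h2 : a < 15 * G.M)
    (h3 : a % 15 = 12) (h : (a, 18 * G.M + 6 * G.N) ∈ l) :
    PE l (a, 18 * G.M - 1) (a, 18 * G.M - 2) := by
  have hM := G.hM
  have hg : good a := by simp only [good]; omega
  -- down to the bottom row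
  have key : ∀ k y, y + k = 18 * G.M + 6 * G.N → 18 * G.M ≤ y + 1 → (a, y) ∈ l := by
    intro k
    induction k with
    | zero =>
      intro y hy _
      have : y = 18 * G.M + 6 * G.N := by omega
      rwa [this]
    | succ k ih =>
      intro y hy hy2
      have h5 := ih (y + 1) (by omega) (by omega)
      obtain ⟨⟨p, q⟩, hw⟩ := hl.path.next h5 (by rw [Ne, Prod.mk.injEq]; omega)
      rcases Nat.eq_zero_or_pos k with rfl | hk
      · have hy3 : y + 1 = 18 * G.M + 6 * G.N := by omega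
        rw [hy3] at hw
        rcases top_out h1 h2 (hl.path.arc hw) with ⟨rfl, rfl, h4⟩ | ⟨rfl, h4, _⟩
        · omega
        · obtain rfl : y = q := by omega
          exact hw.mem_right
      · have h6 : y + 1 < 18 * G.M + 6 * G.N := by omega
        rcases arc_cases (hl.path.arc hw) with ⟨rfl, rfl, h7⟩ | ⟨h8, rfl, h7⟩ | ⟨rfl, rfl, h7⟩ |
          ⟨rfl, h8, h7⟩
        · exfalso
          have h9 := band_R h7 hy2 h6 (by omega)
          exact hl.right a (y + 1) (by omega) h2 hg hy2 h6 (by omega) hw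
        · exfalso
          obtain rfl : a = p + 1 := by omega
          have h9 := band_L h7 hy2 h6 (by omega)
          exact hl.left p (y + 1) (by omega) (by omega) hy2 h6 (by omega) hw
        · exfalso
          have := U_grid h7 (by omega) h2
          omega
        · obtain rfl : y = q := by omega
          exact hw.mem_right
  have hb := key (6 * G.N + 1) (18 * G.M - 1) (by omega) (by omega)
  obtain ⟨⟨p, q⟩, hw⟩ := hl.path.next hb (by rw [Ne, Prod.mk.injEq]; omega)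
  rcases bot_out h1 h2 (hl.path.arc hw) with ⟨rfl, rfl, h4, h5⟩ | ⟨rfl, rfl, h4⟩
  · omega
  · exact hw

/-- From the bottom of a column to the first guarded arc of its return line. -/
theorem ColPath.line1 (hl : G.ColPath l ρ) {c V : ℕ} (h0 : c % 3 = 0) (h1 : 15 ≤ c)
    (h2 : c < 15 * G.M) (hV : V + c = 30 * G.M + 30)
    (h : PE l (c, 18 * G.M - 1) (c, 18 * G.M - 2)) : PE l (V, V - 31) (V, V - 30) := by
  have hM := G.hM
  have hρ := hl.le
  have a1 := (hl.path.run_down (x := c) (y1 := 18 * G.M - 2) c h.mem_right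
    (fun y _ _ e => by rw [Prod.mk.injEq] at e; omega)
    (fun y w _ _ hw => by
      obtain ⟨a, b⟩ := w; rw [Prod.mk.injEq];
      (have hh := Lay.arc_num hw
       rcases hh with ⟨k1, k2, k3 | k3 | k3 | k3 | k3⟩ |
        ⟨k1, k2, k3 | k3 | k3 | k3 | k3⟩ | ⟨k1, k2, k3 | k3 | k3 | k3⟩ |
        ⟨k1, k2, k3 | k3 | k3⟩ <;> omega)) c le_rfl (by omega)).1
  have a2 := (hl.path.run_right (y := c) (x0 := c) V a1
    (fun y _ _ e => by rw [Prod.mk.injEq] at e; omega)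
    (fun y w _ _ hw => by
      obtain ⟨a, b⟩ := w; rw [Prod.mk.injEq];
      (have hh := Lay.arc_num hw
       rcases hh with ⟨k1, k2, k3 | k3 | k3 | k3 | k3⟩ |
        ⟨k1, k2, k3 | k3 | k3 | k3 | k3⟩ | ⟨k1, k2, k3 | k3 | k3 | k3⟩ |
        ⟨k1, k2, k3 | k3 | k3⟩ <;> omega)) V (by omega) le_rfl).1
  have a3 := (hl.path.run_up (x := V) (y0 := c) (V - 30) a2
    (fun y _ _ e => by rw [Prod.mk.injEq] at e; omega)
    (fun y w _ _ hw => by
      obtain ⟨a, b⟩ := w; rw [Prod.mk.injEq];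
      (have hh := Lay.arc_num hw
       rcases hh with ⟨k1, k2, k3 | k3 | k3 | k3 | k3⟩ |
        ⟨k1, k2, k3 | k3 | k3 | k3 | k3⟩ | ⟨k1, k2, k3 | k3 | k3 | k3⟩ |
        ⟨k1, k2, k3 | k3 | k3⟩ <;> omega)) (V - 31) (by omega) (by omega)).2
      (by omega)
  rwa [show V - 31 + 1 = V - 30 by omega] at a3

/-- From the first to the second guarded arc of a return line. -/
theorem ColPath.line2 (hl : G.ColPath l ρ) {V : ℕ} (h0 : V % 3 = 0) (h1 : 15 * G.M + 33 ≤ V)
    (h2 : V ≤ 30 * G.M + 15) (h : (V, V - 30) ∈ l)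
    (hn : V + 3 ≤ 30 * G.M + 15 → ¬ PE l (V + 3, V - 28) (V + 3, V - 27)) :
    PE l (V, 60 * G.M + 29 - V) (V, 60 * G.M + 30 - V) := by
  have hM := G.hM
  have hρ := hl.le
  obtain ⟨w, hw⟩ := hl.path.next h (by rw [Ne, Prod.mk.injEq]; omega)
  have hup : w = (V, V - 30 + 1) := by
    have hcase : w = (V, V - 30 + 1) ∨ (w = (V + 1, V - 30) ∧ V + 3 ≤ 30 * G.M + 15) := by
      have harc := hl.path.arc hw
      obtain ⟨a, b⟩ := w
      rw [Prod.mk.injEq, Prod.mk.injEq];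
      (have hh := Lay.arc_num harc
       rcases hh with ⟨k1, k2, k3 | k3 | k3 | k3 | k3⟩ |
        ⟨k1, k2, k3 | k3 | k3 | k3 | k3⟩ | ⟨k1, k2, k3 | k3 | k3 | k3⟩ |
        ⟨k1, k2, k3 | k3 | k3⟩ <;> omega)
    rcases hcase with rfl | ⟨rfl, hV⟩
    · rfl
    · exfalso
      have a2 := (hl.path.run_right (y := V - 30) (x0 := V + 1) (V + 3) hw.mem_right
        (fun y _ _ e => by rw [Prod.mk.injEq] at e; omega)
        (fun y w _ _ hw => by
          obtain ⟨a, b⟩ := w; rw [Prod.mk.injEq];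
          (have hh := Lay.arc_num hw
           rcases hh with ⟨k1, k2, k3 | k3 | k3 | k3 | k3⟩ |
            ⟨k1, k2, k3 | k3 | k3 | k3 | k3⟩ | ⟨k1, k2, k3 | k3 | k3 | k3⟩ |
            ⟨k1, k2, k3 | k3 | k3⟩ <;> omega)) (V + 3) (by omega) le_rfl).1
      have a3 := (hl.path.run_up (x := V + 3) (y0 := V - 30) (V - 27) a2
        (fun y _ _ e => by rw [Prod.mk.injEq] at e; omega)
        (fun y w _ _ hw => by
          obtain ⟨a, b⟩ := w; rw [Prod.mk.injEq];
          (have hh := Lay.arc_num hw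
           rcases hh with ⟨k1, k2, k3 | k3 | k3 | k3 | k3⟩ |
            ⟨k1, k2, k3 | k3 | k3 | k3 | k3⟩ | ⟨k1, k2, k3 | k3 | k3 | k3⟩ |
            ⟨k1, k2, k3 | k3 | k3⟩ <;> omega)) (V - 28) (by omega) (by omega)).2
          (by omega)
      rw [show V - 28 + 1 = V - 27 by omega] at a3
      exact hn hV a3
  subst hup
  have a3 := (hl.path.run_up (x := V) (y0 := V - 30 + 1) (60 * G.M + 30 - V) hw.mem_right
    (fun y _ _ e => by rw [Prod.mk.injEq] at e; omega)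
    (fun y w _ _ hw => by
      obtain ⟨a, b⟩ := w; rw [Prod.mk.injEq];
      (have hh := Lay.arc_num hw
       rcases hh with ⟨k1, k2, k3 | k3 | k3 | k3 | k3⟩ |
        ⟨k1, k2, k3 | k3 | k3 | k3 | k3⟩ | ⟨k1, k2, k3 | k3 | k3 | k3⟩ |
        ⟨k1, k2, k3 | k3 | k3⟩ <;> omega)) (60 * G.M + 29 - V) (by omega)
      (by omega)).2 (by omega)
  rwa [show 60 * G.M + 29 - V + 1 = 60 * G.M + 30 - V by omega] at a3

/-- From the second guarded arc of a return line to the top of the next group. -/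
theorem ColPath.line3 (hl : G.ColPath l ρ) {c V : ℕ} (h0 : V % 3 = 0)
    (h1 : 15 * G.M + 33 ≤ V) (h2 : V ≤ 30 * G.M + 15) (hV : V + c = 30 * G.M + 30)
    (h : (V, 60 * G.M + 30 - V) ∈ l)
    (hn : 15 * G.M + 36 ≤ V → ¬ PE l (V - 3, 60 * G.M + 32 - V) (V - 3, 60 * G.M + 33 - V)) :
    (c + 15, 18 * G.M + 6 * G.N) ∈ l := by
  have hM := G.hM
  have hρ := hl.le
  obtain ⟨w, hw⟩ := hl.path.next h (by rw [Ne, Prod.mk.injEq]; omega)
  have hup : w = (V, 60 * G.M + 30 - V + 1) := by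
    have hcase : w = (V, 60 * G.M + 30 - V + 1) ∨
        (w = (V - 1, 60 * G.M + 30 - V) ∧ 15 * G.M + 36 ≤ V) := by
      have harc := hl.path.arc hw
      obtain ⟨a, b⟩ := w
      rw [Prod.mk.injEq, Prod.mk.injEq];
      (have hh := Lay.arc_num harc
       rcases hh with ⟨k1, k2, k3 | k3 | k3 | k3 | k3⟩ |
        ⟨k1, k2, k3 | k3 | k3 | k3 | k3⟩ | ⟨k1, k2, k3 | k3 | k3 | k3⟩ |
        ⟨k1, k2, k3 | k3 | k3⟩ <;> omega)
    rcases hcase with rfl | ⟨rfl, hV'⟩
    · rfl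
    · exfalso
      have a2 := (hl.path.run_left (y := 60 * G.M + 30 - V) (x1 := V - 1) (V - 3) hw.mem_right
        (fun y _ _ e => by rw [Prod.mk.injEq] at e; omega)
        (fun y w _ _ hw => by
          obtain ⟨a, b⟩ := w; rw [Prod.mk.injEq];
          (have hh := Lay.arc_num hw
           rcases hh with ⟨k1, k2, k3 | k3 | k3 | k3 | k3⟩ |
            ⟨k1, k2, k3 | k3 | k3 | k3 | k3⟩ | ⟨k1, k2, k3 | k3 | k3 | k3⟩ |
            ⟨k1, k2, k3 | k3 | k3⟩ <;> omega)) (V - 3) le_rfl (by omega)).1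
      have a3 := (hl.path.run_up (x := V - 3) (y0 := 60 * G.M + 30 - V) (60 * G.M + 33 - V) a2
        (fun y _ _ e => by rw [Prod.mk.injEq] at e; omega)
        (fun y w _ _ hw => by
          obtain ⟨a, b⟩ := w; rw [Prod.mk.injEq];
          (have hh := Lay.arc_num hw
           rcases hh with ⟨k1, k2, k3 | k3 | k3 | k3 | k3⟩ |
            ⟨k1, k2, k3 | k3 | k3 | k3 | k3⟩ | ⟨k1, k2, k3 | k3 | k3 | k3⟩ |
            ⟨k1, k2, k3 | k3 | k3⟩ <;> omega)) (60 * G.M + 32 - V) (by omega)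
          (by omega)).2 (by omega)
      rw [show 60 * G.M + 32 - V + 1 = 60 * G.M + 33 - V by omega] at a3
      exact hn hV' a3
  subst hup
  have a3 := (hl.path.run_up (x := V) (y0 := 60 * G.M + 30 - V + 1)
    (60 * G.M + 6 * G.N - c) hw.mem_right
    (fun y _ _ e => by rw [Prod.mk.injEq] at e; omega)
    (fun y w _ _ hw => by
      obtain ⟨a, b⟩ := w; rw [Prod.mk.injEq];
      (have hh := Lay.arc_num hw
       rcases hh with ⟨k1, k2, k3 | k3 | k3 | k3 | k3⟩ |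
        ⟨k1, k2, k3 | k3 | k3 | k3 | k3⟩ | ⟨k1, k2, k3 | k3 | k3 | k3⟩ |
        ⟨k1, k2, k3 | k3 | k3⟩ <;> omega)) (60 * G.M + 6 * G.N - c) (by omega)
      le_rfl).1
  have a4 := (hl.path.run_left (y := 60 * G.M + 6 * G.N - c) (x1 := V) (c + 15) a3
    (fun y _ _ e => by rw [Prod.mk.injEq] at e; omega)
    (fun y w _ _ hw => by
      obtain ⟨a, b⟩ := w; rw [Prod.mk.injEq];
      (have hh := Lay.arc_num hw
       rcases hh with ⟨k1, k2, k3 | k3 | k3 | k3 | k3⟩ |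
        ⟨k1, k2, k3 | k3 | k3 | k3 | k3⟩ | ⟨k1, k2, k3 | k3 | k3 | k3⟩ |
        ⟨k1, k2, k3 | k3 | k3⟩ <;> omega)) (c + 15) le_rfl (by omega)).1
  exact (hl.path.run_down (x := c + 15) (y1 := 60 * G.M + 6 * G.N - c) (18 * G.M + 6 * G.N) a4
    (fun y _ _ e => by rw [Prod.mk.injEq] at e; omega)
    (fun y w _ _ hw => by
      obtain ⟨a, b⟩ := w; rw [Prod.mk.injEq];
      (have hh := Lay.arc_num hw
       rcases hh with ⟨k1, k2, k3 | k3 | k3 | k3 | k3⟩ |
        ⟨k1, k2, k3 | k3 | k3 | k3 | k3⟩ | ⟨k1, k2, k3 | k3 | k3 | k3⟩ |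
        ⟨k1, k2, k3 | k3 | k3⟩ <;> omega)) (18 * G.M + 6 * G.N) le_rfl
      (by omega)).1

end Lay

end Pool.Agent.EPDP
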