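import Mathlib

/-!
# Simple directed paths as lists
-/

namespace Pool.Agent.EPDP

variable {V : Type*}

/-- `l` is a simple directed path from `r` to `s` for the arc relation `A`. -/
structure IsDiPath (A : V → V → Prop) (l : List V) (r s : V) : Prop where
  chain : l.IsChain A
  nodup : l.Nodup
  head : l.head? = some r
  last : l.getLast? = some s

/-- The path `l` runs through the arc from `u` to `v`. -/
def PE (l : List V) (u v : V) : Prop := [u, v] <:+: l

theorem pe_iff {l : List V} {u v : V} :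
    PE l u v ↔ ∃ i, ∃ h : i + 1 < l.length, l[i] = u ∧ l[i + 1] = v := by
  constructor
  · rintro ⟨a, b, h⟩
    subst h
    refine ⟨a.length, by simp, ?_, ?_⟩ <;> simp
  · rintro ⟨i, h, h1, h2⟩
    refine ⟨l.take i, l.drop (i + 2), ?_⟩
    have e : l.drop i = u :: v :: l.drop (i + 2) := by
      rw [List.drop_eq_getElem_cons (by omega), List.drop_eq_getElem_cons (by omega), h1, h2]
    have : l = l.take i ++ l.drop i := (List.take_append_drop i l).symm
    rw [e] at this
    simpa using this.symm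

theorem PE.mem_left {l : List V} {u v : V} (h : PE l u v) : u ∈ l :=
  h.subset (by simp)

theorem PE.mem_right {l : List V} {u v : V} (h : PE l u v) : v ∈ l :=
  h.subset (by simp)

namespace IsDiPath

variable {A B : V → V → Prop} {l : List V} {r s u v w : V}

theorem mem_head (h : IsDiPath A l r s) : r ∈ l := List.mem_of_mem_head? (by simp [h.head])

theorem mem_last (h : IsDiPath A l r s) : s ∈ l := List.mem_of_getLast? h.last

theorem arc (h : IsDiPath A l r s) (e : PE l u v) : A u v := by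
  obtain ⟨i, hi, rfl, rfl⟩ := pe_iff.1 e
  exact List.isChain_iff_getElem.1 h.chain i hi

theorem mono (h : IsDiPath A l r s) (hAB : ∀ u v, A u v → B u v) : IsDiPath B l r s :=
  ⟨h.chain.imp hAB, h.nodup, h.head, h.last⟩

theorem get_zero (h : IsDiPath A l r s) : ∃ h0 : 0 < l.length, l[0] = r := by
  have := h.head
  rw [List.head?_eq_getElem?, List.getElem?_eq_some_iff] at this
  exact this

theorem get_last (h : IsDiPath A l r s) : ∃ h0 : l.length - 1 < l.length,
    l[l.length - 1] = s := by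
  have := h.last
  rw [List.getLast?_eq_getElem?, List.getElem?_eq_some_iff] at this
  exact this

theorem next (h : IsDiPath A l r s) (hv : v ∈ l) (hs : v ≠ s) : ∃ w, PE l v w := by
  obtain ⟨i, hi, rfl⟩ := List.getElem_of_mem hv
  obtain ⟨h0, h1⟩ := h.get_last
  by_cases hl : i + 1 < l.length
  · exact ⟨l[i + 1], pe_iff.2 ⟨i, hl, rfl, rfl⟩⟩
  · exact absurd (by
      have : i = l.length - 1 := by omega
      subst this
      exact h1) hs

theorem prev (h : IsDiPath A l r s) (hv : v ∈ l) (hr : v ≠ r) : ∃ u, PE l u v := by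
  obtain ⟨i, hi, rfl⟩ := List.getElem_of_mem hv
  obtain ⟨h0, h1⟩ := h.get_zero
  cases i with
  | zero => exact absurd h1 hr
  | succ i => exact ⟨l[i], pe_iff.2 ⟨i, hi, rfl, rfl⟩⟩

theorem right_unique (h : IsDiPath A l r s) (h1 : PE l u v) (h2 : PE l u w) : v = w := by
  obtain ⟨i, hi, a1, rfl⟩ := pe_iff.1 h1
  obtain ⟨j, hj, b1, rfl⟩ := pe_iff.1 h2
  have : i = j := (h.nodup.getElem_inj_iff).1 (a1.trans b1.symm)
  subst this; rfl

theorem left_unique (h : IsDiPath A l r s) (h1 : PE l u w) (h2 : PE l v w) : u = v := by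
  obtain ⟨i, hi, rfl, a1⟩ := pe_iff.1 h1
  obtain ⟨j, hj, rfl, b1⟩ := pe_iff.1 h2
  have : i + 1 = j + 1 := (h.nodup.getElem_inj_iff).1 (a1.trans b1.symm)
  have : i = j := by omega
  subst this; rfl

/-- A path which starts outside `S` and uses no arc entering `S` avoids `S`. -/
theorem no_entry (h : IsDiPath A l r s) (S : V → Prop) (hr : ¬ S r)
    (hS : ∀ u v, PE l u v → ¬ S u → ¬ S v) : ∀ v ∈ l, ¬ S v := by
  intro v hv
  obtain ⟨i, hi, rfl⟩ := List.getElem_of_mem hv
  obtain ⟨h0, h1⟩ := h.get_zero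
  induction i with
  | zero => rwa [h1]
  | succ i ih =>
    exact hS _ _ (pe_iff.2 ⟨i, hi, rfl, rfl⟩) (ih (by omega) (List.getElem_mem _))

/-- A path from outside `S` into `S` uses an arc entering `S`. -/
theorem crossing (h : IsDiPath A l r s) (S : V → Prop) (hr : ¬ S r) (hs : S s) :
    ∃ u v, PE l u v ∧ ¬ S u ∧ S v := by
  by_contra hc
  push Not at hc
  exact h.no_entry S hr (fun u v e hu => hc u v e hu) s h.mem_last hs

/-- If all arcs of the path which enter `S` end in `z`, then no arc of the path leaves `S`. -/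
theorem no_leave (h : IsDiPath A l r s) (S : V → Prop) {z : V} (hr : S r → r = z) (hs : S s)
    (hS : ∀ u v, PE l u v → ¬ S u → S v → v = z) : ∀ u v, PE l u v → S u → S v := by
  intro u v e hu
  by_contra hv
  obtain ⟨i, hi, rfl, rfl⟩ := pe_iff.1 e
  obtain ⟨h0, h1⟩ := h.get_zero
  obtain ⟨hl, h2⟩ := h.get_last
  -- after `i + 1` the path enters `S` through `z`
  have hafter : ∃ j, ∃ hj : j < l.length, i + 1 < j ∧ l[j] = z := by
    by_contra hc
    push Not at hc
    have key : ∀ j, i + 1 ≤ j → ∀ hj : j < l.length, ¬ S l[j] := by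
      intro j hij
      induction j, hij using Nat.le_induction with
      | base => intro _; exact hv
      | succ j hij ih =>
        intro hj hSj
        exact hc (j + 1) hj (by omega)
          (hS _ _ (pe_iff.2 ⟨j, hj, rfl, rfl⟩) (ih (by omega)) hSj)
    exact key (l.length - 1) (by omega) hl (by rw [h2]; exact hs)
  -- until `i` the path enters `S` through `z`
  have hbefore : ∃ j, ∃ hj : j < l.length, j ≤ i ∧ l[j] = z := by
    by_contra hc
    push Not at hc
    have key : ∀ j, j ≤ i → ∀ hj : j < l.length, ¬ S l[j] := by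
      intro j
      induction j with
      | zero =>
        intro _ hj hSj
        have := hr (by rw [← h1]; exact hSj)
        exact hc 0 hj (by omega) (h1.trans this)
      | succ j ih =>
        intro hij hj hSj
        exact hc (j + 1) hj hij
          (hS _ _ (pe_iff.2 ⟨j, hj, rfl, rfl⟩) (ih (by omega) (by omega)) hSj)
    exact key i le_rfl (by omega) hu
  obtain ⟨j, hj, hij, hjz⟩ := hafter
  obtain ⟨j', hj', hij', hjz'⟩ := hbefore
  have := (h.nodup.getElem_inj_iff (i := j) (j := j')).1 (hjz.trans hjz'.symm)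
  omega

end IsDiPath

/-- If `s` is reachable from `r`, then there is a simple path from `r` to `s`. -/
theorem exists_path {A : V → V → Prop} {r s : V} (h : Relation.ReflTransGen A r s) :
    ∃ l, IsDiPath A l r s := by
  classical
  induction h using Relation.ReflTransGen.head_induction_on with
  | refl => exact ⟨[s], by simp, by simp, rfl, rfl⟩
  | @head a b hab _ ih =>
    obtain ⟨l, hl⟩ := ih
    by_cases ha : a ∈ l
    · obtain ⟨l1, l2, rfl⟩ := List.append_of_mem ha
      refine ⟨a :: l2, ?_, ?_, rfl, ?_⟩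
      · exact hl.chain.suffix ⟨l1, rfl⟩
      · exact hl.nodup.sublist (List.sublist_append_right _ _)
      · have := hl.last
        simpa using this
    · cases l with
      | nil => simpa using hl.head
      | cons c l =>
        have hc : c = b := by simpa using hl.head
        subst hc
        refine ⟨a :: c :: l, ?_, ?_, rfl, ?_⟩
        · exact List.isChain_cons_cons.2 ⟨hab, hl.chain⟩
        · exact List.nodup_cons.2 ⟨ha, hl.nodup⟩
        · have := hl.last
          simpa using this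

/-! ### Straight runs in the grid -/

section Runs

variable {A : ℕ × ℕ → ℕ × ℕ → Prop} {l : List (ℕ × ℕ)} {r s : ℕ × ℕ}

theorem IsDiPath.step (h : IsDiPath A l r s) {v w : ℕ × ℕ} (hv : v ∈ l) (hs : v ≠ s)
    (ho : ∀ w', A v w' → w' = w) : PE l v w := by
  obtain ⟨w', hw⟩ := h.next hv hs
  rw [ho w' (h.arc hw)] at hw
  exact hw

theorem IsDiPath.back (h : IsDiPath A l r s) {v w : ℕ × ℕ} (hv : v ∈ l) (hr : v ≠ r)
    (ho : ∀ w', A w' v → w' = w) : PE l w v := by
  obtain ⟨w', hw⟩ := h.prev hv hr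
  rw [ho w' (h.arc hw)] at hw
  exact hw

theorem IsDiPath.run_up (h : IsDiPath A l r s) {x y0 : ℕ} (y1 : ℕ) (h0 : (x, y0) ∈ l)
    (hs : ∀ y, y0 ≤ y → y < y1 → (x, y) ≠ s)
    (ho : ∀ y w, y0 ≤ y → y < y1 → A (x, y) w → w = (x, y + 1)) :
    ∀ y, y0 ≤ y → y ≤ y1 → (x, y) ∈ l ∧ (y < y1 → PE l (x, y) (x, y + 1)) := by
  intro y hy
  induction y, hy using Nat.le_induction with
  | base => exact fun _ => ⟨h0, fun h1 => h.step h0 (hs _ le_rfl h1) (ho _ · le_rfl h1)⟩
  | succ y hy ih =>
    intro hy1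
    have h2 := (ih (by omega)).2 (by omega)
    exact ⟨h2.mem_right, fun h1 => h.step h2.mem_right (hs _ (by omega) h1)
      (ho _ · (by omega) h1)⟩

theorem IsDiPath.run_right (h : IsDiPath A l r s) {y x0 : ℕ} (x1 : ℕ) (h0 : (x0, y) ∈ l)
    (hs : ∀ x, x0 ≤ x → x < x1 → (x, y) ≠ s)
    (ho : ∀ x w, x0 ≤ x → x < x1 → A (x, y) w → w = (x + 1, y)) :
    ∀ x, x0 ≤ x → x ≤ x1 → (x, y) ∈ l ∧ (x < x1 → PE l (x, y) (x + 1, y)) := by
  intro x hx
  induction x, hx using Nat.le_induction with
  | base => exact fun _ => ⟨h0, fun h1 => h.step h0 (hs _ le_rfl h1) (ho _ · le_rfl h1)⟩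
  | succ x hx ih =>
    intro hx1
    have h2 := (ih (by omega)).2 (by omega)
    exact ⟨h2.mem_right, fun h1 => h.step h2.mem_right (hs _ (by omega) h1)
      (ho _ · (by omega) h1)⟩

theorem IsDiPath.run_down (h : IsDiPath A l r s) {x y1 : ℕ} (y0 : ℕ) (h0 : (x, y1) ∈ l)
    (hs : ∀ y, y0 ≤ y → y < y1 → (x, y + 1) ≠ s)
    (ho : ∀ y w, y0 ≤ y → y < y1 → A (x, y + 1) w → w = (x, y)) :
    ∀ y, y0 ≤ y → y ≤ y1 → (x, y) ∈ l ∧ (y < y1 → PE l (x, y + 1) (x, y)) := by
  have key : ∀ k y, y + k = y1 → y0 ≤ y → (x, y) ∈ l := by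
    intro k
    induction k with
    | zero => rintro y rfl _; exact h0
    | succ k ih =>
      intro y hy hy0
      have h1 := ih (y + 1) (by omega) (by omega)
      exact (h.step h1 (hs y hy0 (by omega)) (ho y · hy0 (by omega))).mem_right
  intro y hy0 hy1
  refine ⟨key (y1 - y) y (by omega) hy0, fun h1 => ?_⟩
  exact h.step (key (y1 - (y + 1)) (y + 1) (by omega) (by omega)) (hs y hy0 h1)
    (ho y · hy0 h1)

theorem IsDiPath.run_left (h : IsDiPath A l r s) {y x1 : ℕ} (x0 : ℕ) (h0 : (x1, y) ∈ l)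
    (hs : ∀ x, x0 ≤ x → x < x1 → (x + 1, y) ≠ s)
    (ho : ∀ x w, x0 ≤ x → x < x1 → A (x + 1, y) w → w = (x, y)) :
    ∀ x, x0 ≤ x → x ≤ x1 → (x, y) ∈ l ∧ (x < x1 → PE l (x + 1, y) (x, y)) := by
  have key : ∀ k x, x + k = x1 → x0 ≤ x → (x, y) ∈ l := by
    intro k
    induction k with
    | zero => rintro x rfl _; exact h0
    | succ k ih =>
      intro x hx hx0
      have h1 := ih (x + 1) (by omega) (by omega)
      exact (h.step h1 (hs x hx0 (by omega)) (ho x · hx0 (by omega))).mem_right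
  intro x hx0 hx1
  refine ⟨key (x1 - x) x (by omega) hx0, fun h1 => ?_⟩
  exact h.step (key (x1 - (x + 1)) (x + 1) (by omega) (by omega)) (hs x hx0 h1)
    (ho x · hx0 h1)

/-- Going backwards along an upward run. -/
theorem IsDiPath.back_up (h : IsDiPath A l r s) {x y1 : ℕ} (y0 : ℕ) (h0 : (x, y1) ∈ l)
    (hr : ∀ y, y0 ≤ y → y < y1 → (x, y + 1) ≠ r)
    (ho : ∀ y w, y0 ≤ y → y < y1 → A w (x, y + 1) → w = (x, y)) :
    ∀ y, y0 ≤ y → y ≤ y1 → (x, y) ∈ l ∧ (y < y1 → PE l (x, y) (x, y + 1)) := by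
  have key : ∀ k y, y + k = y1 → y0 ≤ y → (x, y) ∈ l := by
    intro k
    induction k with
    | zero => rintro y rfl _; exact h0
    | succ k ih =>
      intro y hy hy0
      have h1 := ih (y + 1) (by omega) (by omega)
      exact (h.back h1 (hr y hy0 (by omega)) (ho y · hy0 (by omega))).mem_left
  intro y hy0 hy1
  refine ⟨key (y1 - y) y (by omega) hy0, fun h1 => ?_⟩
  exact h.back (key (y1 - (y + 1)) (y + 1) (by omega) (by omega)) (hr y hy0 h1)
    (ho y · hy0 h1)

/-- Going backwards along a run to the left. -/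
theorem IsDiPath.back_left (h : IsDiPath A l r s) {y x0 : ℕ} (x1 : ℕ) (h0 : (x0, y) ∈ l)
    (hr : ∀ x, x0 ≤ x → x < x1 → (x, y) ≠ r)
    (ho : ∀ x w, x0 ≤ x → x < x1 → A w (x, y) → w = (x + 1, y)) :
    ∀ x, x0 ≤ x → x ≤ x1 → (x, y) ∈ l := by
  intro x hx
  induction x, hx using Nat.le_induction with
  | base => exact fun _ => h0
  | succ x hx ih =>
    intro hx1
    exact (h.back (ih (by omega)) (hr x hx (by omega)) (ho x · hx (by omega))).mem_left

end Runs

end Pool.Agent.EPDP
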