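import Pool.Agent.Lib.MP_3cd67d_lc.Reduction
import Pool.Agent.Lib.CookLevin.TableauPT
import Pool.Agent.Lib.PolyTime.ListOps

/-!
# The reduction is computable in polynomial time
-/

namespace Pool.Agent.EPDP

open Pool.Agent.PolyTime Pool.Agent.PathSys Pool.Agent.CookLevin

universe u
variable {α : Type u} [Rep α]

theorem PT.decCongr {p q : α → Prop} [DecidablePred p] [DecidablePred q]
    (h : PT (fun a => decide (p a))) (hpq : ∀ a, p a ↔ q a) : PT (fun a => decide (q a)) :=
  h.congr fun a => decide_eq_decide.2 (hpq a)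

theorem PT_nvar : PT nvar :=
  PT.succ (PT.sum (PT.map (g := fun (_ : CNF3) (c : Lit × (Lit × Lit)) =>
    c.1.1 + (c.2.1.1 + c.2.2.1)) PT.id
    (PT.add PT.id.snd.fst.fst (PT.add PT.id.snd.snd.fst.fst PT.id.snd.snd.snd.fst))))

theorem PT_litAt {c : α → Lit × (Lit × Lit)} {k : α → ℕ} (hc : PT c) (hk : PT k) :
    PT (fun a => litAt (c a) (k a)) :=
  PT.iteProp (PT.natEq hk (PT.const 1)) hc.fst
    (PT.iteProp (PT.natEq hk (PT.const 2)) hc.snd.fst hc.snd.snd)

variable {φ : α → CNF3} {x y : α → ℕ}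

theorem PT_M (hφ : PT φ) : PT (fun a => (layout (φ a)).M) :=
  PT.add (PT.length hφ) (PT.const 2)

theorem PT_N (hφ : PT φ) : PT (fun a => (layout (φ a)).N) := PT.comp (g := nvar) PT_nvar hφ

open Classical in
theorem PT_tl (hφ : PT φ) (hx : PT x) (hy : PT y) :
    PT (fun a => decide ((layout (φ a)).tl (x a) (y a))) := by
  have hM := PT_M hφ
  have hN := PT_N hφ
  refine PT.decCongr (p := fun a => (15 ≤ x a ∧ x a < 15 * (layout (φ a)).M ∧
    (x a % 15 = 3 ∨ x a % 15 = 6 ∨ x a % 15 = 9) ∧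
    18 * (layout (φ a)).M ≤ y a ∧ y a < 18 * (layout (φ a)).M + 6 * (layout (φ a)).N ∧
    (y a % 6 = 0 ∨ y a % 6 = 2)) ∧
  ((φ a)[x a / 15 - 1]?).map (fun c => litAt c (x a % 15 / 3)) =
    some (y a / 6 - 3 * (layout (φ a)).M, decide (y a % 6 = 0))) ?_ (fun a => Iff.rfl)
  have hx15 : PT (fun a => x a % 15) := PT.mod hx (PT.const 15)
  have hy6 : PT (fun a => y a % 6) := PT.mod hy (PT.const 6)
  have h18 : PT (fun a => 18 * (layout (φ a)).M) := PT.mul (PT.const 18) hM
  refine PT.decAnd (PT.decAnd (PT.le (PT.const 15) hx) (PT.decAnd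
    (PT.lt hx (PT.mul (PT.const 15) hM)) (PT.decAnd (PT.decOr (PT.natEq hx15 (PT.const 3))
    (PT.decOr (PT.natEq hx15 (PT.const 6)) (PT.natEq hx15 (PT.const 9)))) (PT.decAnd
    (PT.le h18 hy) (PT.decAnd (PT.lt hy (PT.add h18 (PT.mul (PT.const 6) hN)))
    (PT.decOr (PT.natEq hy6 (PT.const 0)) (PT.natEq hy6 (PT.const 2)))))))) ?_
  refine PT.decCongr (p := fun a => ((φ a)[x a / 15 - 1]?).map (fun c => litAt c (x a % 15 / 3)) =
    some (y a / 6 - 3 * (layout (φ a)).M, decide (y a % 6 = 0))) ?_ (fun a => Iff.rfl)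
  refine PT.eq ?_ ?_
  · refine PT.optionMap (g := fun (a : α) (c : Lit × (Lit × Lit)) => litAt c (x a % 15 / 3))
      (PT.getElem? hφ (PT.sub (PT.div hx (PT.const 15)) (PT.const 1))) ?_
    exact PT_litAt PT.id.snd (PT.div (hx15.comp PT.id.fst) (PT.const 3))
  · exact PT.some (PT.pair (PT.sub (PT.div hy (PT.const 6)) (PT.mul (PT.const 3) hM))
      (PT.natEq hy6 (PT.const 0)))

/-! ### Classical truth values -/

/-- The truth value of a proposition. -/
noncomputable def dc (p : Prop) : Bool := @decide p (Classical.propDecidable p)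

theorem dc_eq (p : Prop) [Decidable p] : dc p = decide p := decide_eq_decide.2 Iff.rfl

theorem PT.dcOr {p q : α → Prop} (hp : PT (fun a => dc (p a))) (hq : PT (fun a => dc (q a))) :
    PT (fun a => dc (p a ∨ q a)) :=
  (hp.or hq).congr fun a => by classical simp [dc]

theorem PT.dcAnd {p q : α → Prop} (hp : PT (fun a => dc (p a))) (hq : PT (fun a => dc (q a))) :
    PT (fun a => dc (p a ∧ q a)) :=
  (hp.and hq).congr fun a => by classical simp [dc]

theorem PT.dcNot {p : α → Prop} (hp : PT (fun a => dc (p a))) : PT (fun a => dc (¬ p a)) :=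
  hp.not.congr fun a => by classical simp [dc]

theorem PT.dcLe {f g : α → ℕ} (hf : PT f) (hg : PT g) : PT (fun a => dc (f a ≤ g a)) :=
  (PT.le hf hg).congr fun a => (dc_eq _).symm

theorem PT.dcLt {f g : α → ℕ} (hf : PT f) (hg : PT g) : PT (fun a => dc (f a < g a)) :=
  (PT.lt hf hg).congr fun a => (dc_eq _).symm

theorem PT.dcEq {f g : α → ℕ} (hf : PT f) (hg : PT g) : PT (fun a => dc (f a = g a)) :=
  (PT.natEq hf hg).congr fun a => (dc_eq _).symm

theorem PT_tl' (hφ : PT φ) (hx : PT x) (hy : PT y) :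
    PT (fun a => dc ((layout (φ a)).tl (x a) (y a))) := PT_tl hφ hx hy

theorem PT_R (hφ : PT φ) (hx : PT x) (hy : PT y) :
    PT (fun a => dc ((layout (φ a)).R (x a) (y a))) := by
  have hM := PT_M hφ
  have hN := PT_N hφ
  have t1 := PT_tl' hφ hx hy
  have t2 := PT_tl' hφ (hx.sub (PT.const 1)) hy
  have t3 := PT_tl' hφ (hx.sub (PT.const 1)) (hy.sub (PT.const 1))
  unfold Lay.R
  with_reducible repeat' first
    | exact hM | exact hN | exact hx | exact hy | exact t1 | exact t2 | exact t3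
    | apply PT.dcOr | apply PT.dcAnd | apply PT.dcNot | apply PT.dcLe | apply PT.dcLt
    | apply PT.dcEq | apply PT.const | apply PT.add | apply PT.mul | apply PT.mod

theorem PT_L (hφ : PT φ) (hx : PT x) (hy : PT y) :
    PT (fun a => dc ((layout (φ a)).L (x a) (y a))) := by
  have hM := PT_M hφ
  have hN := PT_N hφ
  unfold Lay.L
  with_reducible repeat' first
    | exact hM | exact hN | exact hx | exact hy
    | apply PT.dcOr | apply PT.dcAnd | apply PT.dcNot | apply PT.dcLe | apply PT.dcLt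
    | apply PT.dcEq | apply PT.const | apply PT.add | apply PT.mul | apply PT.mod

theorem PT_U (hφ : PT φ) (hx : PT x) (hy : PT y) :
    PT (fun a => dc ((layout (φ a)).U (x a) (y a))) := by
  have hM := PT_M hφ
  have hN := PT_N hφ
  have t1 := PT_tl' hφ (hx.sub (PT.const 2)) hy
  unfold Lay.U
  with_reducible repeat' first
    | exact hM | exact hN | exact hx | exact hy | exact t1
    | apply PT.dcOr | apply PT.dcAnd | apply PT.dcNot | apply PT.dcLe | apply PT.dcLt
    | apply PT.dcEq | apply PT.const | apply PT.add | apply PT.mul | apply PT.mod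

theorem PT_D (hφ : PT φ) (hx : PT x) (hy : PT y) :
    PT (fun a => dc ((layout (φ a)).D (x a) (y a))) := by
  have hM := PT_M hφ
  have hN := PT_N hφ
  unfold Lay.D
  with_reducible repeat' first
    | exact hM | exact hN | exact hx | exact hy
    | apply PT.dcOr | apply PT.dcAnd | apply PT.dcNot | apply PT.dcLe | apply PT.dcLt
    | apply PT.dcEq | apply PT.const | apply PT.add | apply PT.mul | apply PT.mod

/-! ### The list of the arcs -/

theorem PT_code {p : α → ℕ × ℕ} (hp : PT p) : PT (fun a => Lay.code (p a)) :=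
  PT.natPair hp.fst hp.snd

theorem PT_cells : PT (fun φ : CNF3 => (layout φ).cells) := by
  have hM : PT (fun φ : CNF3 => (layout φ).M) := PT_M PT.id
  have hN : PT (fun φ : CNF3 => (layout φ).N) := PT_N PT.id
  refine PT.flatMap (g := fun (φ : CNF3) (x : ℕ) =>
    (List.range (60 * (layout φ).M + 6 * (layout φ).N + 1)).map fun y => (x, y))
    (PT.range (PT.add (PT.mul (PT.const 30) hM) (PT.const 31))) ?_
  refine PT.map (α := CNF3 × ℕ) (g := fun p y => (p.2, y)) (PT.range ?_)
    (PT.pair PT.id.fst.snd PT.id.snd)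
  exact PT.add (PT.add (PT.mul (PT.const 60) (hM.comp PT.id.fst))
    (PT.mul (PT.const 6) (hN.comp PT.id.fst))) (PT.const 1)

theorem PT_arcs : PT (fun φ : CNF3 => (layout φ).arcs) := by
  have hφ : PT (fun p : CNF3 × (ℕ × ℕ) => p.1) := PT.id.fst
  have hx : PT (fun p : CNF3 × (ℕ × ℕ) => p.2.1) := PT.id.snd.fst
  have hy : PT (fun p : CNF3 × (ℕ × ℕ) => p.2.2) := PT.id.snd.snd
  have hc : PT (fun p : CNF3 × (ℕ × ℕ) => Lay.code p.2) := PT_code PT.id.snd
  have hr : PT (fun p : CNF3 × (ℕ × ℕ) => Lay.code (p.2.1 + 1, p.2.2)) :=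
    PT_code (PT.pair hx.succ hy)
  have hu : PT (fun p : CNF3 × (ℕ × ℕ) => Lay.code (p.2.1, p.2.2 + 1)) :=
    PT_code (PT.pair hx hy.succ)
  refine PT.append ?_ (PT.append ?_ (PT.append ?_ ?_))
  · exact PT.map (g := fun (_ : CNF3) (p : ℕ × ℕ) => (Lay.code p, Lay.code (p.1 + 1, p.2)))
      (PT.filter (g := fun (φ : CNF3) (p : ℕ × ℕ) => dc ((layout φ).R p.1 p.2)) PT_cells
        (PT_R hφ hx hy)) (PT.pair hc hr)
  · exact PT.map (g := fun (_ : CNF3) (p : ℕ × ℕ) => (Lay.code (p.1 + 1, p.2), Lay.code p))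
      (PT.filter (g := fun (φ : CNF3) (p : ℕ × ℕ) => dc ((layout φ).L p.1 p.2)) PT_cells
        (PT_L hφ hx hy)) (PT.pair hr hc)
  · exact PT.map (g := fun (_ : CNF3) (p : ℕ × ℕ) => (Lay.code p, Lay.code (p.1, p.2 + 1)))
      (PT.filter (g := fun (φ : CNF3) (p : ℕ × ℕ) => dc ((layout φ).U p.1 p.2)) PT_cells
        (PT_U hφ hx hy)) (PT.pair hc hu)
  · exact PT.map (g := fun (_ : CNF3) (p : ℕ × ℕ) => (Lay.code (p.1, p.2 + 1), Lay.code p))
      (PT.filter (g := fun (φ : CNF3) (p : ℕ × ℕ) => dc ((layout φ).D p.1 p.2)) PT_cells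
        (PT_D hφ hx hy)) (PT.pair hu hc)

theorem PT_size : PT (fun φ : CNF3 => (layout φ).size) := by
  have hM : PT (fun φ : CNF3 => (layout φ).M) := PT_M PT.id
  have hN : PT (fun φ : CNF3 => (layout φ).N) := PT_N PT.id
  exact PT.pow (PT.add (PT.add (PT.mul (PT.const 60) hM) (PT.mul (PT.const 6) hN))
    (PT.const 2)) 2

theorem PT_src (i : ℕ) : PT (fun φ : CNF3 => Lay.code ((layout φ).src i)) := by
  have hM : PT (fun φ : CNF3 => (layout φ).M) := PT_M PT.id
  have hN : PT (fun φ : CNF3 => (layout φ).N) := PT_N PT.id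
  refine PT_code ?_
  unfold Lay.src
  split_ifs
  all_goals
    with_reducible apply PT.pair
    all_goals with_reducible repeat' first
      | exact hM | exact hN | apply PT.const | apply PT.add | apply PT.mul | apply PT.sub

theorem PT_tgt (i : ℕ) : PT (fun φ : CNF3 => Lay.code ((layout φ).tgt i)) := by
  have hM : PT (fun φ : CNF3 => (layout φ).M) := PT_M PT.id
  have hN : PT (fun φ : CNF3 => (layout φ).N) := PT_N PT.id
  refine PT_code ?_
  unfold Lay.tgt
  split_ifs
  all_goals
    with_reducible apply PT.pair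
    all_goals with_reducible repeat' first
      | exact hM | exact hN | apply PT.const | apply PT.add | apply PT.mul | apply PT.sub

/-- A list of fixed length whose entries are computable. -/
theorem PT.finList {β : Type*} [Rep β] {k : ℕ} {F : Fin k → α → β} (h : ∀ i, PT (F i)) :
    PT (fun a => (List.finRange k).map fun i => F i a) := by
  generalize List.finRange k = l
  induction l with
  | nil => exact PT.const []
  | cons i l ih => exact PT.cons (h i) ih

theorem PT_data (k : ℕ) : PT (fun φ : CNF3 => (((layout φ).size, ((layout φ).arcs,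
    ((List.finRange k).map fun i : Fin k => Lay.code ((layout φ).src i.1),
    ((List.finRange k).map fun i : Fin k => Lay.code ((layout φ).tgt i.1),
    (List.finRange k).map fun i : Fin k => (List.finRange k).map fun j : Fin k =>
      decide (s(i, j) ∈ forbSet k))))) :
    ℕ × (List (ℕ × ℕ) × (List ℕ × (List ℕ × List (List Bool)))))) :=
  PT.pair PT_size (PT.pair PT_arcs (PT.pair (PT.finList fun i => PT_src i.1)
    (PT.pair (PT.finList fun i => PT_tgt i.1) (PT.const _))))

end Pool.Agent.EPDP
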