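import Pool.Agent.Lib.MP_3cd67d_lc.Reduction

/-!
# The routes of the eleven paths of a satisfying assignment
-/

namespace Pool.Agent.EPDP

theorem rules_mono {R L U D R' L' U' D' : ℕ → ℕ → Prop} (hR : ∀ x y, R x y → R' x y)
    (hL : ∀ x y, L x y → L' x y) (hU : ∀ x y, U x y → U' x y) (hD : ∀ x y, D x y → D' x y)
    {p q : ℕ × ℕ} (h : rules R L U D p q) : rules R' L' U' D' p q := by
  rcases h with ⟨h1, h2, h⟩ | ⟨h1, h2, h⟩ | ⟨h1, h2, h⟩ | ⟨h1, h2, h⟩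
  · exact Or.inl ⟨h1, h2, hR _ _ h⟩
  · exact Or.inr (Or.inl ⟨h1, h2, hL _ _ h⟩)
  · exact Or.inr (Or.inr (Or.inl ⟨h1, h2, hU _ _ h⟩))
  · exact Or.inr (Or.inr (Or.inr ⟨h1, h2, hD _ _ h⟩))

theorem rules_disj {R L U D R' L' U' D' : ℕ → ℕ → Prop} (hR : ∀ x y, R x y → ¬ R' x y)
    (hL : ∀ x y, L x y → ¬ L' x y) (hU : ∀ x y, U x y → ¬ U' x y) (hD : ∀ x y, D x y → ¬ D' x y)
    {p q : ℕ × ℕ} (h : rules R L U D p q) : ¬ rules R' L' U' D' p q := by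
  obtain ⟨x, y⟩ := p
  obtain ⟨a, b⟩ := q
  rcases h with ⟨h1, h2, h⟩ | ⟨h1, h2, h⟩ | ⟨h1, h2, h⟩ | ⟨h1, h2, h⟩ <;>
  rintro (⟨g1, g2, g⟩ | ⟨g1, g2, g⟩ | ⟨g1, g2, g⟩ | ⟨g1, g2, g⟩) <;>
  simp only at h1 h2 h g1 g2 g <;> first
    | (exfalso; omega)
    | exact hR _ _ h g
    | exact hL _ _ h g
    | exact hU _ _ h g
    | exact hD _ _ h g

namespace Lay

variable (G : Lay)

/-! ### Horizontal paths -/

/-- The row `y` is on the rail chosen by `τ`. -/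
def On (τ : ℕ → Prop) (y : ℕ) : Prop :=
  (y % 6 < 2 ∧ ¬ τ (y / 6 - 3 * G.M)) ∨ (2 ≤ y % 6 ∧ y % 6 < 4 ∧ τ (y / 6 - 3 * G.M))

def rowR (τ : ℕ → Prop) (σ X : Prop) (x y : ℕ) : Prop :=
  (18 * G.M ≤ y ∧ y < 18 * G.M + 6 * G.N ∧
    ((y % 6 = 1 ∧ 14 ≤ x ∧ x < 15 * G.M) ∨ (y % 6 = 3 ∧ 13 ≤ x ∧ x < 15 * G.M)) ∧ G.On τ y ∧
    ¬ (x % 3 = 1 ∧ G.tl (x - 1) (y - 1)) ∧ (X ∨ ¬ G.tl x (y - 1))) ∨
  (18 * G.M ≤ y ∧ y < 18 * G.M + 6 * G.N ∧ y % 6 = 3 ∧ x = 15 * G.M ∧ σ) ∨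
  (G.tl (x - 1) y ∧ G.On τ y) ∨ (¬ X ∧ G.tl x y ∧ G.On τ y)

def rowL (τ : ℕ → Prop) (σ : Prop) (x y : ℕ) : Prop :=
  (18 * G.M ≤ y ∧ y < 18 * G.M + 6 * G.N ∧ ((y % 6 = 4 ∧ ¬ σ ∧ 14 ≤ x ∧ x < 15 * G.M) ∨
    (y % 6 = 5 ∧ σ ∧ 14 ≤ x ∧ x ≤ 15 * G.M))) ∨
  (x = 13 ∧ y % 6 = 5 ∧ 18 * G.M ≤ y + 1 ∧ y + 1 < 18 * G.M + 6 * G.N ∧
    τ ((y + 1) / 6 - 3 * G.M))

def rowU (τ : ℕ → Prop) (σ : Prop) (x y : ℕ) : Prop :=
  (18 * G.M ≤ y ∧ y < 18 * G.M + 6 * G.N ∧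
    ((x = 15 * G.M ∧ 1 ≤ y % 6 ∧ y % 6 ≤ 2 ∧ ¬ τ (y / 6 - 3 * G.M)) ∨
    (x = 15 * G.M ∧ y % 6 = 3 ∧ ¬ σ) ∨
    (x = 15 * G.M + 1 ∧ 3 ≤ y % 6 ∧ y % 6 ≤ 4 ∧ σ) ∨ (x = 14 ∧ y % 6 = 4 ∧ ¬ σ))) ∨
  (18 * G.M ≤ y + 1 ∧
    ((x = 14 ∧ (y + 1) % 6 ≤ 1 ∧ y + 6 ≤ 18 * G.M + 6 * G.N ∧ ¬ τ ((y + 1) / 6 - 3 * G.M)) ∨
    (x = 13 ∧ (y + 1) % 6 ≤ 3 ∧ y + 4 ≤ 18 * G.M + 6 * G.N ∧ τ ((y + 1) / 6 - 3 * G.M)))) ∨
  (2 ≤ x ∧ G.tl (x - 2) y ∧ G.On τ y)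

def rowD (τ : ℕ → Prop) (X : Prop) (x y : ℕ) : Prop :=
  (X ∧ 1 ≤ x ∧ G.tl (x - 1) y ∧ G.On τ y) ∨ (¬ X ∧ G.tl x y ∧ G.On τ y)

/-- The arcs of a horizontal path. -/
def RowE (τ : ℕ → Prop) (σ X : Prop) : ℕ × ℕ → ℕ × ℕ → Prop :=
  rules (G.rowR τ σ X) (G.rowL τ σ) (G.rowU τ σ) (G.rowD τ X)

variable {G}

theorem rowR_sub {τ : ℕ → Prop} {σ X : Prop} {x y : ℕ} (h : G.rowR τ σ X x y) : G.R x y := by
  have hM := G.hM
  rcases h with ⟨h1, h2, h3, _, h4, _⟩ | ⟨h1, h2, h3, h4, _⟩ | ⟨h, _⟩ | ⟨_, h, _⟩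
  · refine Or.inr (Or.inl ⟨h1, h2, ?_, h4⟩)
    rcases h3 with h3 | h3
    · exact Or.inl h3
    · exact Or.inr ⟨h3.1, h3.2.1, h3.2.2.le⟩
  · refine Or.inr (Or.inl ⟨h1, h2, Or.inr ⟨h3, by omega, h4.le⟩, ?_⟩)
    rintro ⟨h5, _⟩
    omega
  · exact Or.inr (Or.inr (Or.inl (Or.inr h)))
  · exact Or.inr (Or.inr (Or.inl (Or.inl h)))

theorem rowL_sub {τ : ℕ → Prop} {σ : Prop} {x y : ℕ} (h : G.rowL τ σ x y) : G.L x y := by
  rcases h with ⟨h1, h2, h3 | h3⟩ | h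
  · exact Or.inr (Or.inl ⟨h1, h2, Or.inl ⟨h3.1, h3.2.2⟩⟩)
  · exact Or.inr (Or.inl ⟨h1, h2, Or.inr ⟨h3.1, h3.2.2⟩⟩)
  · exact Or.inr (Or.inr (Or.inl ⟨h.1, h.2.1, h.2.2.1, h.2.2.2.1⟩))

theorem rowU_sub {τ : ℕ → Prop} {σ : Prop} {x y : ℕ} (h : G.rowU τ σ x y) : G.U x y := by
  rcases h with ⟨h1, h2, h3 | h3 | h3 | h3⟩ | ⟨h1, h3 | h3⟩ | h
  · exact Or.inr (Or.inl ⟨h1, h2, Or.inl ⟨h3.1, h3.2.1, by omega⟩⟩)
  · exact Or.inr (Or.inl ⟨h1, h2, Or.inl ⟨h3.1, by omega, by omega⟩⟩)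
  · exact Or.inr (Or.inl ⟨h1, h2, Or.inr (Or.inl ⟨h3.1, h3.2.1, h3.2.2.1⟩)⟩)
  · exact Or.inr (Or.inl ⟨h1, h2, Or.inr (Or.inr ⟨h3.1, h3.2.1⟩)⟩)
  · exact Or.inr (Or.inr (Or.inl ⟨h1, Or.inl ⟨h3.1, h3.2.1, h3.2.2.1⟩⟩))
  · exact Or.inr (Or.inr (Or.inl ⟨h1, Or.inr ⟨h3.1, h3.2.1, h3.2.2.1⟩⟩))
  · exact Or.inr (Or.inr (Or.inr ⟨h.1, h.2.1⟩))

theorem rowD_sub {τ : ℕ → Prop} {X : Prop} {x y : ℕ} (h : G.rowD τ X x y) : G.D x y := by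
  have hM := G.hM
  rcases h with ⟨_, h0, h, _⟩ | ⟨_, h, _⟩
  · have := G.tile h
    left
    refine ⟨by omega, by omega, by omega, by omega, by omega⟩
  · have := G.tile h
    left
    refine ⟨by omega, by omega, by omega, by omega, by omega⟩

theorem RowE_sub {τ : ℕ → Prop} {σ X : Prop} {p q : ℕ × ℕ} (h : G.RowE τ σ X p q) :
    G.Arc p q :=
  rules_mono (fun _ _ => rowR_sub) (fun _ _ => rowL_sub) (fun _ _ => rowU_sub)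
    (fun _ _ => rowD_sub) h

/-! ### Vertical paths -/

variable (G)

/-- The lane used by the vertical path with number `ρ` in column `x`, where `ch` is the number
of the tile chosen in each group. -/
def laneOf (ch : ℕ → ℕ) (ρ x : ℕ) : Prop :=
  (ρ = 0 ∧ x % 15 = 3 * ch (x / 15) + 1) ∨ (ρ ≠ 0 ∧ x % 15 = ρ)

def colR (ch : ℕ → ℕ) (ρ x y : ℕ) : Prop :=
  (y % 15 = ρ ∧ 15 ≤ y ∧ y < 15 * G.M ∧ y ≤ x ∧ x + y < 30 * G.M + 30) ∨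
  (ρ = 0 ∧ y = 18 * G.M + 6 * G.N ∧ 15 ≤ x ∧ x < 15 * G.M ∧ x % 15 < 3 * ch (x / 15) + 1)

def colL (ch : ℕ → ℕ) (ρ x y : ℕ) : Prop :=
  ((60 * G.M + 6 * G.N - y) % 15 = ρ ∧ 45 * G.M + 6 * G.N < y ∧ y + 15 ≤ 60 * G.M + 6 * G.N ∧
    60 * G.M + 6 * G.N + 15 ≤ x + y ∧ x + 30 * G.M + 6 * G.N < y + 30) ∨
  (ρ = 0 ∧ y + 1 = 18 * G.M ∧ 15 ≤ x ∧ x < 15 * G.M ∧ x % 15 < 3 * ch (x / 15) + 1)

def colU (ρ x y : ℕ) : Prop :=
  (30 * G.M + 30 - x) % 15 = ρ ∧ 15 * G.M + 30 < x ∧ x ≤ 30 * G.M + 15 ∧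
    30 * G.M + 30 ≤ x + y ∧ y + 30 < x + 30 * G.M + 6 * G.N

def colD (ch : ℕ → ℕ) (ρ x y : ℕ) : Prop :=
  (15 ≤ x ∧ x < 15 * G.M ∧ 18 * G.M ≤ y + 1 ∧ y < 18 * G.M + 6 * G.N ∧ laneOf ch ρ x) ∨
  (x % 15 = ρ ∧ 15 ≤ x ∧ x < 15 * G.M ∧ x ≤ y ∧ y + 1 < 18 * G.M) ∨
  (x % 15 = ρ ∧ 30 ≤ x ∧ x < 15 * G.M + 15 ∧ 18 * G.M + 6 * G.N ≤ y ∧
    y + x < 60 * G.M + 6 * G.N + 15)

/-- The arcs of a vertical path. -/
def ColE (ch : ℕ → ℕ) (ρ : ℕ) : ℕ × ℕ → ℕ × ℕ → Prop :=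
  rules (G.colR ch ρ) (G.colL ch ρ) (G.colU ρ) (G.colD ch ρ)

variable {G}

/-- The conditions on `ch`. -/
def ChOk (G : Lay) (ch : ℕ → ℕ) : Prop := ∀ g, 1 ≤ g → g < G.M → 1 ≤ ch g ∧ ch g ≤ 3

theorem ColE_sub {ch : ℕ → ℕ} (hch : G.ChOk ch) {ρ : ℕ} (hρ : ρ % 3 = 0) (hρ' : ρ ≤ 12)
    {p q : ℕ × ℕ} (h : G.ColE ch ρ p q) : G.Arc p q := by
  have hM := G.hM
  refine rules_mono ?_ ?_ ?_ ?_ h
  · rintro x y (h | ⟨_, h1, h2, h3, h4⟩)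
    · exact Or.inl (by omega)
    · have := hch (x / 15) (by omega) (by omega)
      exact Or.inr (Or.inr (Or.inr (Or.inl ⟨h1, h2, h3, by omega⟩)))
  · rintro x y (h | ⟨_, h1, h2, h3, h4⟩)
    · exact Or.inl (by omega)
    · have := hch (x / 15) (by omega) (by omega)
      exact Or.inr (Or.inr (Or.inr (Or.inl ⟨h1, h2, h3, by omega⟩)))
  · rintro x y h
    refine Or.inl ?_
    simp only [colU] at h
    omega
  · rintro x y (⟨h1, h2, h3, h4, h5⟩ | h | h)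
    · refine Or.inl ⟨h1, h2, h3, h4, ?_⟩
      have := hch (x / 15) (by omega) (by omega)
      rcases h5 with ⟨_, h5⟩ | ⟨h6, h5⟩
      · omega
      · omega
    · exact Or.inr (Or.inl (by omega))
    · exact Or.inr (Or.inr (by omega))

/-! ### Guards -/

variable (G)

def g1R (x y : ℕ) : Prop :=
  y % 3 = 0 ∧ 15 * G.M < y ∧ y + 18 ≤ 30 * G.M ∧ y + 30 ≤ x ∧ x < y + 33

def g1U (x y : ℕ) : Prop :=
  x % 3 = 0 ∧ 15 * G.M + 30 < x ∧ x ≤ 30 * G.M + 15 ∧ x ≤ y + 33 ∧ y + 30 < x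

def g2L (x y : ℕ) : Prop :=
  y % 3 = 0 ∧ 30 * G.M + 15 ≤ y ∧ y + 3 < 45 * G.M ∧ 60 * G.M + 27 ≤ x + y ∧
    x + y < 60 * G.M + 30

def g2U (x y : ℕ) : Prop :=
  x % 3 = 0 ∧ 15 * G.M + 30 < x ∧ x ≤ 30 * G.M + 15 ∧ 60 * G.M + 27 ≤ x + y ∧
    x + y < 60 * G.M + 30

/-- The arcs of the guards. -/
def G1E : ℕ × ℕ → ℕ × ℕ → Prop :=
  rules G.g1R (fun _ _ => False) G.g1U (fun _ _ => False)

def G2E : ℕ × ℕ → ℕ × ℕ → Prop :=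
  rules (fun _ _ => False) G.g2L G.g2U (fun _ _ => False)

variable {G}

theorem G1E_sub {p q : ℕ × ℕ} (h : G.G1E p q) : G.Arc p q := by
  have hM := G.hM
  refine rules_mono ?_ ?_ ?_ ?_ h
  · intro x y h
    exact Or.inr (Or.inr (Or.inr (Or.inr h)))
  · exact fun _ _ h => h.elim
  · intro x y h
    simp only [g1U] at h
    exact Or.inl (by omega)
  · exact fun _ _ h => h.elim

theorem G2E_sub {p q : ℕ × ℕ} (h : G.G2E p q) : G.Arc p q := by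
  have hM := G.hM
  refine rules_mono ?_ ?_ ?_ ?_ h
  · exact fun _ _ h => h.elim
  · intro x y h
    exact Or.inr (Or.inr (Or.inr (Or.inr h)))
  · intro x y h
    simp only [g2U] at h
    exact Or.inl (by omega)
  · exact fun _ _ h => h.elim

/-! ### Disjointness -/

theorem on_not {τ : ℕ → Prop} {y : ℕ} (h : G.On τ y) : ¬ G.On (fun i => ¬ τ i) y := by
  rcases h with ⟨h1, h2⟩ | ⟨h1, h2, h3⟩ <;> rintro (⟨h4, h5⟩ | ⟨h4, h5, h6⟩)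
  · exact h5 h2
  · omega
  · omega
  · exact h6 h3

theorem row_row {τ : ℕ → Prop} {σ X X' : Prop} {p q : ℕ × ℕ} (h : G.RowE τ σ X p q) :
    ¬ G.RowE (fun i => ¬ τ i) (¬ σ) X' p q := by
  have hM := G.hM
  refine rules_disj ?_ ?_ ?_ ?_ h
  · rintro x y (⟨h1, h2, h3, h4, _⟩ | ⟨h1, h2, h3, h4, h5⟩ | ⟨h, h'⟩ | ⟨_, h, h'⟩) <;>
    rintro (⟨g1, g2, g3, g4, _⟩ | ⟨g1, g2, g3, g4, g5⟩ | ⟨g, g'⟩ | ⟨_, g, g'⟩)
    · exact on_not h4 g4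
    · omega
    · have := (G.tile g).2.2.2.2.2; omega
    · have := (G.tile g).2.2.2.2.2; omega
    · omega
    · exact g5 h5
    · have := (G.tile g).2.2.2.2.2; omega
    · have := (G.tile g).2.2.2.2.2; omega
    · have := (G.tile h).2.2.2.2.2; omega
    · have := (G.tile h).2.2.2.2.2; omega
    · exact on_not h' g'
    · exact on_not h' g'
    · have := (G.tile h).2.2.2.2.2; omega
    · have := (G.tile h).2.2.2.2.2; omega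
    · exact on_not h' g'
    · exact on_not h' g'
  · rintro x y (⟨h1, h2, h3 | h3⟩ | h) <;> rintro (⟨g1, g2, g3 | g3⟩ | g)
    · exact g3.2.1 h3.2.1
    · omega
    · omega
    · omega
    · exact g3.2.1 h3.2.1
    · omega
    · omega
    · omega
    · exact g.2.2.2.2 h.2.2.2.2
  · rintro x y (⟨h1, h2, h3 | h3 | h3 | h3⟩ | ⟨h1, h3 | h3⟩ | ⟨h1, h3, h4⟩) <;>
    rintro (⟨g1, g2, g3 | g3 | g3 | g3⟩ | ⟨g1, g3 | g3⟩ | ⟨g1, g3, g4⟩)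
    · exact g3.2.2.2 h3.2.2.2
    · omega
    · omega
    · omega
    · omega
    · omega
    · have := (G.tile g3).2.1; have := (G.tile g3).2.2.1; omega
    · omega
    · exact g3.2.2 h3.2.2
    · omega
    · omega
    · omega
    · omega
    · have := (G.tile g3).2.1; have := (G.tile g3).2.2.1; omega
    · omega
    · omega
    · exact g3.2.2.2 h3.2.2.2
    · omega
    · omega
    · omega
    · have := (G.tile g3).2.1; have := (G.tile g3).2.2.1; omega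
    · omega
    · omega
    · omega
    · exact g3.2.2 h3.2.2
    · omega
    · omega
    · have := (G.tile g3).1; omega
    · omega
    · omega
    · omega
    · omega
    · exact g3.2.2.2 h3.2.2.2
    · omega
    · have := (G.tile g3).1; omega
    · omega
    · omega
    · omega
    · omega
    · omega
    · exact g3.2.2.2 h3.2.2.2
    · have := (G.tile g3).1; omega
    · have := (G.tile h3).2.1; have := (G.tile h3).2.2.1; omega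
    · have := (G.tile h3).2.1; have := (G.tile h3).2.2.1; omega
    · have := (G.tile h3).2.1; have := (G.tile h3).2.2.1; omega
    · have := (G.tile h3).1; omega
    · have := (G.tile h3).1; omega
    · have := (G.tile h3).1; omega
    · exact on_not h4 g4
  · rintro x y (⟨_, _, h, h'⟩ | ⟨_, h, h'⟩) <;> rintro (⟨_, _, g, g'⟩ | ⟨_, g, g'⟩)
    all_goals exact on_not h' g'

/-- Numerical part of the arcs of a horizontal path. -/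
theorem row_num {τ : ℕ → Prop} {σ X : Prop} :
    (∀ x y, G.rowR τ σ X x y → 18 * G.M ≤ y ∧ y < 18 * G.M + 6 * G.N ∧ x ≤ 15 * G.M) ∧
    (∀ x y, G.rowL τ σ x y → 18 * G.M ≤ y + 1 ∧ y < 18 * G.M + 6 * G.N ∧ x ≤ 15 * G.M ∧
      (y + 1 = 18 * G.M → x = 13)) ∧
    (∀ x y, G.rowU τ σ x y → x ≤ 15 * G.M + 1) := by
  have hM := G.hM
  refine ⟨?_, ?_, ?_⟩
  · rintro x y (⟨h1, h2, h3, _⟩ | ⟨h1, h2, h3, h4, _⟩ | ⟨h, _⟩ | ⟨_, h, _⟩)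
    · omega
    · omega
    · have := G.tile h; omega
    · have := G.tile h; omega
  · rintro x y (⟨h1, h2, h3⟩ | h)
    · omega
    · omega
  · rintro x y (⟨h1, h2, h3⟩ | ⟨h1, h3⟩ | ⟨h1, h3, h4⟩)
    · omega
    · omega
    · have := G.tile h3; omega

theorem row_guard1 {τ : ℕ → Prop} {σ X : Prop} {p q : ℕ × ℕ} (h : G.RowE τ σ X p q) :
    ¬ G.G1E p q := by
  have hM := G.hM
  obtain ⟨n1, n2, n3⟩ := row_num (G := G) (τ := τ) (σ := σ) (X := X)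
  refine rules_disj ?_ ?_ ?_ ?_ h
  · intro x y h g
    have := n1 x y h
    simp only [g1R] at g
    omega
  · exact fun _ _ _ h => h
  · intro x y h g
    have := n3 x y h
    simp only [g1U] at g
    omega
  · exact fun _ _ _ h => h

theorem row_guard2 {τ : ℕ → Prop} {σ X : Prop} {p q : ℕ × ℕ} (h : G.RowE τ σ X p q) :
    ¬ G.G2E p q := by
  have hM := G.hM
  obtain ⟨n1, n2, n3⟩ := row_num (G := G) (τ := τ) (σ := σ) (X := X)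
  refine rules_disj ?_ ?_ ?_ ?_ h
  · exact fun _ _ _ h => h
  · intro x y h g
    have := n2 x y h
    simp only [g2L] at g
    omega
  · intro x y h g
    have := n3 x y h
    simp only [g2U] at g
    omega
  · exact fun _ _ _ h => h

theorem guard_guard {p q : ℕ × ℕ} (h : G.G1E p q) : ¬ G.G2E p q := by
  have hM := G.hM
  refine rules_disj ?_ ?_ ?_ ?_ h
  · exact fun _ _ _ h => h
  · exact fun _ _ h => h.elim
  · intro x y h g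
    simp only [g1U] at h
    simp only [g2U] at g
    omega
  · exact fun _ _ h => h.elim

theorem col_col {ch : ℕ → ℕ} (hch : G.ChOk ch) {ρ ρ' : ℕ} (hρ : ρ % 3 = 0) (hρ' : ρ' % 3 = 0)
    (hne : ρ ≠ ρ') {p q : ℕ × ℕ} (h : G.ColE ch ρ p q) : ¬ G.ColE ch ρ' p q := by
  have hM := G.hM
  refine rules_disj ?_ ?_ ?_ ?_ h
  · rintro x y (h | ⟨h0, h1, h2, h3, h4⟩) <;> rintro (g | ⟨g0, g1, g2, g3, g4⟩)
    · omega
    · omega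
    · omega
    · omega
  · rintro x y (h | ⟨h0, h1, h2, h3, h4⟩) <;> rintro (g | ⟨g0, g1, g2, g3, g4⟩)
    · omega
    · omega
    · omega
    · omega
  · rintro x y h g
    simp only [colU] at h g
    omega
  · rintro x y (⟨h1, h2, h3, h4, h5⟩ | h | h) <;> rintro (⟨g1, g2, g3, g4, g5⟩ | g | g)
    · have := hch (x / 15) (by omega) (by omega)
      simp only [laneOf] at h5 g5
      omega
    · omega
    · omega
    · omega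
    · omega
    · omega
    · omega
    · omega
    · omega

/-- A horizontal and a vertical path can only meet inside a tile. -/
theorem row_col {τ : ℕ → Prop} {σ X : Prop} {ch : ℕ → ℕ} {ρ : ℕ}
    (hD : ∀ x y, G.rowD τ X x y → 18 * G.M ≤ y → y < 18 * G.M + 6 * G.N → ¬ laneOf ch ρ x)
    {p q : ℕ × ℕ} (h : G.RowE τ σ X p q) : ¬ G.ColE ch ρ p q := by
  have hM := G.hM
  obtain ⟨n1, n2, n3⟩ := row_num (G := G) (τ := τ) (σ := σ) (X := X)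
  refine rules_disj ?_ ?_ ?_ ?_ h
  · intro x y h
    have := n1 x y h
    rintro (g | g) <;> omega
  · intro x y h
    have := n2 x y h
    rintro (g | g) <;> omega
  · intro x y h g
    have := n3 x y h
    simp only [colU] at g
    omega
  · intro x y h
    have hy : 18 * G.M ≤ y ∧ y < 18 * G.M + 6 * G.N := by
      rcases h with ⟨_, _, h, _⟩ | ⟨_, h, _⟩
      · have := G.tile h; exact ⟨this.2.2.2.1, this.2.2.2.2.1⟩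
      · have := G.tile h; exact ⟨this.2.2.2.1, this.2.2.2.2.1⟩
    rintro (g | g | g)
    · exact hD x y h hy.1 hy.2 g.2.2.2.2
    · omega
    · omega

end Lay

end Pool.Agent.EPDP
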