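import Pool.Agent.Lib.MP_3cd67d_lc.Enter

/-!
# The horizontal paths

Two disjoint horizontal paths which avoid the return lines occupy the two rails of every level.
-/

namespace Pool.Agent.EPDP

namespace Lay

variable {G : Lay} {l l' : List (ℕ × ℕ)}

/-- The end points of the horizontal paths. -/
def rRow (G : Lay) : ℕ × ℕ := (14, 18 * G.M - 1)
def sRow (G : Lay) : ℕ × ℕ := (14, 18 * G.M + 6 * G.N - 1)

/-- A horizontal path which avoids the arcs used by the first guard. -/
structure RowPath (G : Lay) (l : List (ℕ × ℕ)) : Prop where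
  path : IsDiPath G.Arc l G.rRow G.sRow
  avoid : ∀ x, x % 3 = 0 → 15 * G.M + 30 < x → x ≤ 30 * G.M + 15 →
    ¬ PE l (x, x - 31) (x, x - 30)

theorem RowPath.enter (hl : G.RowPath l) (P : ℕ → ℕ → Prop) {u v : ℕ × ℕ} (h : PE l u v)
    (h1 : ¬ G.Reg P u) (h2 : G.Reg P v) :
    u.1 < 15 * G.M + 30 ∧ v.1 < 15 * G.M + 30 ∧ ¬ P u.1 u.2 ∧ P v.1 v.2 := by
  obtain ⟨x, y⟩ := u
  obtain ⟨a, b⟩ := v
  rcases enter_gen P (hl.path.arc h) h1 h2 with ⟨h3, h4, h5, h6, h7, h8⟩ | h3
  · exfalso
    have := hl.avoid x h6 h7 h8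
    apply this
    convert h using 2 <;> omega
  · exact h3

theorem RowPath.cross (hl : G.RowPath l) (P : ℕ → ℕ → Prop) (hr : ¬ G.Reg P G.rRow)
    (hs : G.Reg P G.sRow) : ∃ x y a b, PE l (x, y) (a, b) ∧ x < 15 * G.M + 30 ∧
      a < 15 * G.M + 30 ∧ ¬ P x y ∧ P a b := by
  obtain ⟨⟨x, y⟩, ⟨a, b⟩, h1, h2, h3⟩ := hl.path.crossing (G.Reg P) hr hs
  exact ⟨x, y, a, b, h1, hl.enter P h1 h2 h3⟩

theorem RowPath.leaveL (hl : G.RowPath l) {i : ℕ} (hi : i ≤ G.N) {u v : ℕ × ℕ} (h : PE l u v)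
    (hu : G.Reg (G.PL i) u) : G.Reg (G.PL i) v := by
  have hM := G.hM
  refine hl.path.no_leave (G.Reg (G.PL i)) (z := (14, 18 * G.M + 6 * i - 1)) ?_ ?_ ?_ u v h hu
  · intro h
    simp only [rRow, Reg, PL] at h
    rw [rRow, Prod.mk.injEq]
    exact ⟨rfl, by omega⟩
  · simp only [sRow, Reg, PL]
    omega
  · intro u v h1 h2 h3
    obtain ⟨h4, h5, h6, h7⟩ := hl.enter _ h1 h2 h3
    obtain ⟨x, y⟩ := u
    obtain ⟨a, b⟩ := v
    have := enter_PL hi (hl.path.arc h1) h4 h5 h6 h7
    rw [Prod.mk.injEq]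
    omega

theorem RowPath.leaveR (hl : G.RowPath l) {i : ℕ} (hi : i < G.N) {u v : ℕ × ℕ} (h : PE l u v)
    (hu : G.Reg (G.PR i) u) : G.Reg (G.PR i) v := by
  have hM := G.hM
  refine hl.path.no_leave (G.Reg (G.PR i)) (z := (15 * G.M, 18 * G.M + 6 * i + 3))
    ?_ ?_ ?_ u v h hu
  · intro h
    simp only [rRow, Reg, PR] at h
    omega
  · simp only [sRow, Reg, PR]
    omega
  · intro u v h1 h2 h3
    obtain ⟨h4, h5, h6, h7⟩ := hl.enter _ h1 h2 h3
    obtain ⟨x, y⟩ := u
    obtain ⟨a, b⟩ := v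
    have := enter_PR hi (hl.path.arc h1) h4 h5 h6 h7
    rw [Prod.mk.injEq]
    omega

/-- The path uses the lower rail of level `i` right of column `x`. -/
def onF (G : Lay) (l : List (ℕ × ℕ)) (i x : ℕ) : Prop :=
  PE l (x, 18 * G.M + 6 * i) (x + 1, 18 * G.M + 6 * i) ∨
  PE l (x, 18 * G.M + 6 * i + 1) (x + 1, 18 * G.M + 6 * i + 1)

/-- The path uses the upper rail of level `i` right of column `x`. -/
def onT (G : Lay) (l : List (ℕ × ℕ)) (i x : ℕ) : Prop :=
  PE l (x, 18 * G.M + 6 * i + 2) (x + 1, 18 * G.M + 6 * i + 2) ∨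
  PE l (x, 18 * G.M + 6 * i + 3) (x + 1, 18 * G.M + 6 * i + 3)

theorem RowPath.on (hl : G.RowPath l) {i x : ℕ} (hi : i < G.N) (hx : 14 ≤ x)
    (hx' : x < 15 * G.M) : G.onF l i x ∨ G.onT l i x := by
  have hM := G.hM
  obtain ⟨x1, y, a, b, h1, h2, h3, h4, h5⟩ := hl.cross (G.PC i x)
    (by simp only [rRow, Reg, PC]; omega) (by simp only [sRow, Reg, PC]; omega)
  obtain ⟨rfl, rfl, rfl, h6, h7⟩ := enter_PC hi hx hx' (hl.path.arc h1) h2 h3 h4 h5
  have hc : b = 18 * G.M + 6 * i ∨ b = 18 * G.M + 6 * i + 1 ∨ b = 18 * G.M + 6 * i + 2 ∨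
    b = 18 * G.M + 6 * i + 3 := by omega
  rcases hc with rfl | rfl | rfl | rfl
  · exact Or.inl (Or.inl h1)
  · exact Or.inl (Or.inr h1)
  · exact Or.inr (Or.inl h1)
  · exact Or.inr (Or.inr h1)

theorem RowPath.back (hl : G.RowPath l) {i x : ℕ} (hi : i < G.N) (hx : 14 ≤ x)
    (hx' : x < 15 * G.M) :
    PE l (x + 1, 18 * G.M + 6 * i + 4) (x, 18 * G.M + 6 * i + 4) ∨
    PE l (x + 1, 18 * G.M + 6 * i + 5) (x, 18 * G.M + 6 * i + 5) := by
  have hM := G.hM
  obtain ⟨x1, y, a, b, h1, h2, h3, h4, h5⟩ := hl.cross (G.PD i x)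
    (by simp only [rRow, Reg, PD]; omega) (by simp only [sRow, Reg, PD]; omega)
  obtain ⟨rfl, rfl, rfl, rfl | rfl⟩ := enter_PD hi hx hx' (hl.path.arc h1) h2 h3 h4 h5
  · exact Or.inl h1
  · exact Or.inr h1

/-- Columns which are not the first column of a tile. -/
def good (x : ℕ) : Prop := x % 15 ≠ 3 ∧ x % 15 ≠ 6 ∧ x % 15 ≠ 9

theorem R_excl {x y : ℕ} (hx : good x) (h1 : 14 ≤ x) (h2 : x < 15 * G.M) (h3 : 18 * G.M ≤ y)
    (h4 : y < 18 * G.M + 6 * G.N) (hy : y % 6 = 0 ∨ y % 6 = 2) (h : G.R x y)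
    (h' : G.R x (y + 1)) : False := by
  have hM := G.hM
  obtain ⟨g1, g2, g3⟩ := hx
  have ht : G.tl (x - 1) y := by
    rcases h with h | h | (h | h) | h | h
    · exfalso; omega
    · exfalso; obtain ⟨_, _, h, _⟩ := h; omega
    · exfalso; have := (G.tile h).2.2.1; omega
    · exact h
    · exfalso; omega
    · exfalso; omega
  have ht' := (G.tile ht).2.2.1
  have ht2 := (G.tile ht).1
  rcases h' with h' | h' | (h' | h') | h' | h'
  · omega
  · exact h'.2.2.2 ⟨by omega, by simpa using ht⟩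
  · have := (G.tile h').2.2.2.2.2; omega
  · have := (G.tile h').2.2.2.2.2; omega
  · omega
  · omega

theorem onF_onF (hl : G.RowPath l) (hl' : G.RowPath l') (hd : Disj l l') {i x : ℕ}
    (hi : i < G.N) (hx : 14 ≤ x) (hx' : x < 15 * G.M) (hg : good x) (h : G.onF l i x)
    (h' : G.onF l' i x) : False := by
  rcases h with h | h <;> rcases h' with h' | h'
  · exact hd _ _ h h'
  · exact R_excl hg hx hx' (by omega) (by omega) (by omega)
      (arc_right (hl.path.arc h)) (arc_right (hl'.path.arc h'))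
  · exact R_excl hg hx hx' (by omega) (by omega) (by omega)
      (arc_right (hl'.path.arc h')) (arc_right (hl.path.arc h))
  · exact hd _ _ h h'

theorem onT_onT (hl : G.RowPath l) (hl' : G.RowPath l') (hd : Disj l l') {i x : ℕ}
    (hi : i < G.N) (hx : 14 ≤ x) (hx' : x < 15 * G.M) (hg : good x) (h : G.onT l i x)
    (h' : G.onT l' i x) : False := by
  rcases h with h | h <;> rcases h' with h' | h'
  · exact hd _ _ h h'
  · exact R_excl hg hx hx' (by omega) (by omega) (by omega)
      (arc_right (hl.path.arc h)) (arc_right (hl'.path.arc h'))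
  · exact R_excl hg hx hx' (by omega) (by omega) (by omega)
      (arc_right (hl'.path.arc h')) (arc_right (hl.path.arc h))
  · exact hd _ _ h h'

/-- The two rails of a level are used by exactly one of two disjoint horizontal paths. -/
theorem rails (hl : G.RowPath l) (hl' : G.RowPath l') (hd : Disj l l') {i x : ℕ}
    (hi : i < G.N) (hx : 14 ≤ x) (hx' : x < 15 * G.M) (hg : good x) :
    (G.onF l i x ∧ G.onT l' i x ∧ ¬ G.onT l i x ∧ ¬ G.onF l' i x) ∨
    (G.onT l i x ∧ G.onF l' i x ∧ ¬ G.onF l i x ∧ ¬ G.onT l' i x) := by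
  have a := onF_onF hl hl' hd hi hx hx' hg
  have b := onT_onT hl hl' hd hi hx hx' hg
  have c := hl.on hi hx hx'
  have d := hl'.on hi hx hx'
  tauto

/-- Every arc to the right in a level is used by one of two disjoint horizontal paths. -/
theorem occ_right (hl : G.RowPath l) (hl' : G.RowPath l') (hd : Disj l l') {x y : ℕ}
    (hx : 14 ≤ x) (hx' : x < 15 * G.M) (hg : good x) (h1 : 18 * G.M ≤ y)
    (h2 : y < 18 * G.M + 6 * G.N) (h3 : y % 6 < 4) (h : G.R x y) :
    PE l (x, y) (x + 1, y) ∨ PE l' (x, y) (x + 1, y) := by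
  have hi : (y - 18 * G.M) / 6 < G.N := by omega
  generalize hidef : (y - 18 * G.M) / 6 = i at hi
  have e0 : ∀ z, z % 6 = 0 ∨ z % 6 = 2 → 18 * G.M ≤ z → z < 18 * G.M + 6 * G.N →
      ∀ k k', IsDiPath G.Arc k G.rRow G.sRow → IsDiPath G.Arc k' G.rRow G.sRow →
      PE k (x, z) (x + 1, z) → PE k' (x, z + 1) (x + 1, z + 1) → False := by
    intro z hz hz1 hz2 k k' hk hk' h1 h2
    exact R_excl hg hx hx' hz1 hz2 hz (arc_right (hk.arc h1)) (arc_right (hk'.arc h2))
  have hc : y = 18 * G.M + 6 * i ∨ y = 18 * G.M + 6 * i + 1 ∨ y = 18 * G.M + 6 * i + 2 ∨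
    y = 18 * G.M + 6 * i + 3 := by omega
  have hF : G.onF l i x ∨ G.onF l' i x := by
    rcases rails hl hl' hd hi hx hx' hg with h | h
    · exact Or.inl h.1
    · exact Or.inr h.2.1
  have hT : G.onT l i x ∨ G.onT l' i x := by
    rcases rails hl hl' hd hi hx hx' hg with h | h
    · exact Or.inr h.2.1
    · exact Or.inl h.1
  rcases hc with rfl | rfl | rfl | rfl
  · rcases hF with (hF | hF) | (hF | hF)
    · exact Or.inl hF
    · exact (R_excl hg hx hx' h1 h2 (by omega) h (arc_right (hl.path.arc hF))).elim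
    · exact Or.inr hF
    · exact (R_excl hg hx hx' h1 h2 (by omega) h (arc_right (hl'.path.arc hF))).elim
  · rcases hF with (hF | hF) | (hF | hF)
    · exact (R_excl hg hx hx' (by omega) (by omega) (by omega)
        (arc_right (hl.path.arc hF)) h).elim
    · exact Or.inl hF
    · exact (R_excl hg hx hx' (by omega) (by omega) (by omega)
        (arc_right (hl'.path.arc hF)) h).elim
    · exact Or.inr hF
  · rcases hT with (hT | hT) | (hT | hT)
    · exact Or.inl hT
    · exact (R_excl hg hx hx' h1 h2 (by omega) h (arc_right (hl.path.arc hT))).elim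
    · exact Or.inr hT
    · exact (R_excl hg hx hx' h1 h2 (by omega) h (arc_right (hl'.path.arc hT))).elim
  · rcases hT with (hT | hT) | (hT | hT)
    · exact (R_excl hg hx hx' (by omega) (by omega) (by omega)
        (arc_right (hl.path.arc hT)) h).elim
    · exact Or.inl hT
    · exact (R_excl hg hx hx' (by omega) (by omega) (by omega)
        (arc_right (hl'.path.arc hT)) h).elim
    · exact Or.inr hT

/-- Every arc to the left in a level is used by one of two disjoint horizontal paths. -/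
theorem occ_left (hl : G.RowPath l) (hl' : G.RowPath l') (hd : Disj l l') {x y : ℕ}
    (hx : 14 ≤ x) (hx' : x < 15 * G.M) (h1 : 18 * G.M ≤ y)
    (h2 : y < 18 * G.M + 6 * G.N) (h3 : 4 ≤ y % 6) :
    PE l (x + 1, y) (x, y) ∨ PE l' (x + 1, y) (x, y) := by
  have hi : (y - 18 * G.M) / 6 < G.N := by omega
  generalize hidef : (y - 18 * G.M) / 6 = i at hi
  have hc : y = 18 * G.M + 6 * i + 4 ∨ y = 18 * G.M + 6 * i + 5 := by omega
  have a := hl.back hi hx hx'
  have b := hl'.back hi hx hx'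
  have c := hd (x + 1, 18 * G.M + 6 * i + 4) (x, 18 * G.M + 6 * i + 4)
  have d := hd (x + 1, 18 * G.M + 6 * i + 5) (x, 18 * G.M + 6 * i + 5)
  rcases hc with rfl | rfl <;> tauto

/-- A path on the lower rail stays on the lower rail. -/
theorem RowPath.stay (hl : G.RowPath l) {i x x' : ℕ} (hi : i < G.N) (hx : 14 ≤ x)
    (hxx : x ≤ x') (hx' : x' < 15 * G.M) (h : ¬ G.onT l i x) : ¬ G.onT l i x' := by
  rcases Nat.eq_or_lt_of_le hxx with rfl | hxx
  · exact h
  have hM := G.hM
  have key := hl.path.no_entry (fun p => x < p.1 ∧ p.1 < 15 * G.M ∧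
    18 * G.M + 6 * i + 2 ≤ p.2 ∧ p.2 ≤ 18 * G.M + 6 * i + 3)
    (by simp only [rRow]; omega) (by
      rintro ⟨x1, y1⟩ ⟨a, b⟩ h1 h2 h3
      rcases enter_ST hi hx (by omega) (hl.path.arc h1) h2 h3 with
        ⟨rfl, rfl, rfl, rfl | rfl⟩ | ⟨rfl, rfl, rfl, h4⟩
      · exact h (Or.inl h1)
      · exact h (Or.inr h1)
      · have := hl.leaveR hi h1 (by simp only [Reg, PR]; omega)
        simp only [Reg, PR] at this
        omega)
  rintro (h1 | h1)
  · exact key _ h1.mem_left (by simp only; omega)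
  · exact key _ h1.mem_left (by simp only; omega)

/-- The rail used by a path does not depend on the column. -/
theorem onT_iff (hl : G.RowPath l) (hl' : G.RowPath l') (hd : Disj l l') {i x : ℕ}
    (hi : i < G.N) (hx : 14 ≤ x) (hx' : x < 15 * G.M) (hg : good x) :
    G.onT l i 14 ↔ G.onT l i x := by
  have hM := G.hM
  have a := rails hl hl' hd hi (x := 14) le_rfl (by omega) (by simp [good])
  have b := rails hl hl' hd hi hx hx' hg
  have c := hl.stay hi le_rfl hx hx'
  have d := hl'.stay hi le_rfl hx hx'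
  constructor
  · intro h
    rcases a with a | a
    · exact absurd h a.2.2.1
    · rcases b with b | b
      · exact absurd b.2.1 (d a.2.2.2)
      · exact b.1
  · intro h
    by_contra h'
    exact c h' h

/-- The path passes through the tile in column `a` and rows `y0`, `y0 + 1`. -/
def Through (l : List (ℕ × ℕ)) (a y0 : ℕ) : Prop :=
  PE l (a, y0 + 1) (a, y0) ∨ PE l (a + 1, y0 + 1) (a + 1, y0)

theorem RowPath.through (hl : G.RowPath l) {i a y0 : ℕ} (hi : i < G.N) (ht : G.tl a y0)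
    (hy : y0 = 18 * G.M + 6 * i ∨ y0 = 18 * G.M + 6 * i + 2) :
    Through l a y0 ∨ (y0 = 18 * G.M + 6 * i ∧ G.onT l i (a + 1)) ∨
      (y0 = 18 * G.M + 6 * i + 2 ∧ G.onF l i (a + 1)) := by
  have hM := G.hM
  have ht1 := (G.tile ht).1
  have ht2 := (G.tile ht).2.1
  have ht3 := (G.tile ht).2.2.1
  obtain ⟨x, y, a', b, h1, h2, h3, h4, h5⟩ := hl.cross (G.PS i a y0)
    (by
      simp only [rRow, Reg, PS]
      rcases hy with rfl | rfl <;> omega)
    (by simp only [sRow, Reg, PS]; omega)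
  rcases enter_PS hi ht hy (hl.path.arc h1) h2 h3 h4 h5 with
    ⟨rfl, rfl, rfl, rfl⟩ | ⟨rfl, rfl, rfl, rfl⟩ | ⟨rfl, rfl, rfl, h6, h7, h8⟩
  · exact Or.inl (Or.inl h1)
  · exact Or.inl (Or.inr h1)
  · right
    have hR := arc_right (hl.path.arc h1)
    have hne : b ≠ y0 + 1 := by
      rintro rfl
      have ht6 := (G.tile ht).2.2.2.2.2
      rcases hR with h | h | (h | h) | h | h
      · omega
      · exact h.2.2.2 ⟨by omega, by simpa using ht⟩
      · have := (G.tile h).2.2.1; omega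
      · have := (G.tile h).2.2.2.2.2; omega
      · omega
      · omega
    rcases hy with rfl | rfl
    · left
      refine ⟨rfl, ?_⟩
      have hc : b = 18 * G.M + 6 * i + 2 ∨ b = 18 * G.M + 6 * i + 3 := by omega
      rcases hc with rfl | rfl
      · exact Or.inl h1
      · exact Or.inr h1
    · right
      refine ⟨rfl, ?_⟩
      have hc : b = 18 * G.M + 6 * i ∨ b = 18 * G.M + 6 * i + 1 := by omega
      rcases hc with rfl | rfl
      · exact Or.inl h1
      · exact Or.inr h1

/-- A tile on the lower rail is passed by the path on the lower rail. -/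
theorem tile_F (hl : G.RowPath l) (hl' : G.RowPath l') (hd : Disj l l') {i a : ℕ}
    (hi : i < G.N) (ht : G.tl a (18 * G.M + 6 * i)) :
    (G.onT l i 14 → Through l' a (18 * G.M + 6 * i)) ∧
    (¬ G.onT l i 14 → Through l a (18 * G.M + 6 * i)) := by
  have ht1 := (G.tile ht).1
  have ht2 := (G.tile ht).2.1
  have ht3 := (G.tile ht).2.2.1
  have hg : good (a + 1) := by simp only [good]; omega
  have e := onT_iff hl hl' hd hi (x := a + 1) (by omega) (by omega) hg
  have r := rails hl hl' hd hi (x := a + 1) (by omega) (by omega) hg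
  constructor
  · intro h
    rw [e] at h
    rcases r with r | r
    · exact absurd h r.2.2.1
    · rcases hl'.through hi ht (Or.inl rfl) with h1 | ⟨_, h1⟩ | ⟨h1, _⟩
      · exact h1
      · exact absurd h1 r.2.2.2
      · omega
  · intro h
    rw [e] at h
    rcases hl.through hi ht (Or.inl rfl) with h1 | ⟨_, h1⟩ | ⟨h1, _⟩
    · exact h1
    · exact absurd h1 h
    · omega

/-- A tile on the upper rail is passed by the path on the upper rail. -/
theorem tile_T (hl : G.RowPath l) (hl' : G.RowPath l') (hd : Disj l l') {i a : ℕ}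
    (hi : i < G.N) (ht : G.tl a (18 * G.M + 6 * i + 2)) :
    (G.onT l i 14 → Through l a (18 * G.M + 6 * i + 2)) ∧
    (¬ G.onT l i 14 → Through l' a (18 * G.M + 6 * i + 2)) := by
  have ht1 := (G.tile ht).1
  have ht2 := (G.tile ht).2.1
  have ht3 := (G.tile ht).2.2.1
  have hg : good (a + 1) := by simp only [good]; omega
  have e := onT_iff hl hl' hd hi (x := a + 1) (by omega) (by omega) hg
  have r := rails hl hl' hd hi (x := a + 1) (by omega) (by omega) hg
  constructor
  · intro h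
    rw [e] at h
    rcases r with r | r
    · exact absurd h r.2.2.1
    · rcases hl.through hi ht (Or.inr rfl) with h1 | ⟨h1, _⟩ | ⟨_, h1⟩
      · exact h1
      · omega
      · exact absurd h1 r.2.2.1
  · intro h
    rw [e] at h
    rcases r with r | r
    · rcases hl'.through hi ht (Or.inr rfl) with h1 | ⟨h1, _⟩ | ⟨_, h1⟩
      · exact h1
      · omega
      · exact absurd h1 r.2.2.2
    · exact absurd r.1 h

end Lay

end Pool.Agent.EPDP
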