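import Pool.Agent.Lib.MP_3cd67d_lc.Routes

/-!
# The routes lead from the starting points to the end points
-/

namespace Pool.Agent.EPDP

open Relation (ReflTransGen)

section Reach

variable {R L U D : ℕ → ℕ → Prop}

theorem reach_right {y x0 x1 : ℕ} (h : x0 ≤ x1) (hR : ∀ x, x0 ≤ x → x < x1 → R x y) :
    ReflTransGen (rules R L U D) (x0, y) (x1, y) := by
  induction x1, h using Nat.le_induction with
  | base => exact .refl
  | succ x hx ih =>
    exact (ih fun x' h1 h2 => hR x' h1 (by omega)).tail (Or.inl ⟨rfl, rfl, hR x hx (by omega)⟩)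

theorem reach_up {x y0 y1 : ℕ} (h : y0 ≤ y1) (hU : ∀ y, y0 ≤ y → y < y1 → U x y) :
    ReflTransGen (rules R L U D) (x, y0) (x, y1) := by
  induction y1, h using Nat.le_induction with
  | base => exact .refl
  | succ y hy ih =>
    exact (ih fun y' h1 h2 => hU y' h1 (by omega)).tail
      (Or.inr (Or.inr (Or.inl ⟨rfl, rfl, hU y hy (by omega)⟩)))

theorem reach_left {y x0 x1 : ℕ} (h : x0 ≤ x1) (hL : ∀ x, x0 ≤ x → x < x1 → L x y) :
    ReflTransGen (rules R L U D) (x1, y) (x0, y) := by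
  induction x1, h using Nat.le_induction with
  | base => exact .refl
  | succ x hx ih =>
    exact ReflTransGen.head (b := (x, y)) (Or.inr (Or.inl ⟨rfl, rfl, hL x hx (by omega)⟩))
      (ih fun x' h1 h2 => hL x' h1 (by omega))

theorem reach_down {x y0 y1 : ℕ} (h : y0 ≤ y1) (hD : ∀ y, y0 ≤ y → y < y1 → D x y) :
    ReflTransGen (rules R L U D) (x, y1) (x, y0) := by
  induction y1, h using Nat.le_induction with
  | base => exact .refl
  | succ y hy ih =>
    exact ReflTransGen.head (b := (x, y))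
      (Or.inr (Or.inr (Or.inr ⟨rfl, rfl, hD y hy (by omega)⟩)))
      (ih fun y' h1 h2 => hD y' h1 (by omega))

end Reach

namespace Lay

variable {G : Lay}

/-! ### The guards -/

theorem walk_g1 : ∀ t x, x = 15 * G.M + 33 + 3 * t → x ≤ 30 * G.M + 15 →
    ReflTransGen G.G1E (15 * G.M + 33, 15 * G.M) (x, x - 30) := by
  have hM := G.hM
  intro t
  induction t with
  | zero =>
    intro x hx hx2
    have e : (15 * G.M + 33, 15 * G.M) = (x, 15 * G.M) := by rw [hx]
    rw [e]
    refine reach_up (by omega) fun y h1 h2 => ?_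
    simp only [g1U]; omega
  | succ t ih =>
    intro x' hx' hx2
    obtain ⟨x, rfl⟩ : ∃ x, x' = x + 3 := ⟨x' - 3, by omega⟩
    refine (ih x (by omega) (by omega)).trans ?_
    refine ReflTransGen.trans (b := (x + 3, x - 30)) ?_ ?_
    · refine reach_right (by omega) fun z h1 h2 => ?_
      simp only [g1R]; omega
    · refine reach_up (by omega) fun y h1 h2 => ?_
      simp only [g1U]; omega

theorem walk_g2 : ∀ t x, x + 3 * t = 30 * G.M + 15 → 15 * G.M + 33 ≤ x →
    ReflTransGen G.G2E (30 * G.M + 15, 30 * G.M + 12) (x, 60 * G.M + 30 - x) := by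
  have hM := G.hM
  intro t
  induction t with
  | zero =>
    intro x hx hx2
    have e : (30 * G.M + 15, 30 * G.M + 12) = (x, 30 * G.M + 12) := by rw [← hx]; rfl
    rw [e]
    refine reach_up (by omega) fun y h1 h2 => ?_
    simp only [g2U]; omega
  | succ t ih =>
    intro x hx hx2
    refine (ih (x + 3) (by omega) (by omega)).trans ?_
    refine ReflTransGen.trans (b := (x, 60 * G.M + 30 - (x + 3))) ?_ ?_
    · refine reach_left (by omega) fun z h1 h2 => ?_
      simp only [g2L]; omega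
    · refine reach_up (by omega) fun y h1 h2 => ?_
      simp only [g2U]; omega

/-! ### The vertical paths -/

theorem walk_line {ch : ℕ → ℕ} {ρ c : ℕ} (hρ : c % 15 = ρ) (hρ3 : c % 3 = 0) (h1 : 15 ≤ c)
    (h2 : c < 15 * G.M) :
    ReflTransGen (G.ColE ch ρ) (c, 18 * G.M - 1) (c + 15, 18 * G.M + 6 * G.N) := by
  have hM := G.hM
  refine ReflTransGen.trans (b := (c, c)) ?_ ?_
  · refine reach_down (by omega) fun y h3 h4 => ?_
    exact Or.inr (Or.inl (by omega))
  refine ReflTransGen.trans (b := (30 * G.M + 30 - c, c)) ?_ ?_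
  · refine reach_right (by omega) fun x h3 h4 => ?_
    exact Or.inl (by omega)
  refine ReflTransGen.trans (b := (30 * G.M + 30 - c, 60 * G.M + 6 * G.N - c)) ?_ ?_
  · refine reach_up (by omega) fun y h3 h4 => ?_
    simp only [colU]; omega
  refine ReflTransGen.trans (b := (c + 15, 60 * G.M + 6 * G.N - c)) ?_ ?_
  · refine reach_left (by omega) fun x h3 h4 => ?_
    exact Or.inl (by omega)
  · refine reach_down (by omega) fun y h3 h4 => ?_
    exact Or.inr (Or.inr (by omega))

theorem walk_group {ch : ℕ → ℕ} (hch : G.ChOk ch) {ρ g : ℕ} (hρ : ρ % 3 = 0) (hρ' : ρ ≤ 12)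
    (h1 : 1 ≤ g) (h2 : g < G.M) :
    ReflTransGen (G.ColE ch ρ) (15 * g + ρ, 18 * G.M + 6 * G.N)
      (15 * (g + 1) + ρ, 18 * G.M + 6 * G.N) := by
  have hM := G.hM
  have hl := walk_line (G := G) (ch := ch) (ρ := ρ) (c := 15 * g + ρ) (by omega) (by omega)
    (by omega) (by omega)
  have hc := hch g h1 h2
  rw [show 15 * g + ρ + 15 = 15 * (g + 1) + ρ by omega] at hl
  refine ReflTransGen.trans ?_ hl
  rcases Nat.eq_zero_or_pos ρ with rfl | h0
  · refine ReflTransGen.trans (b := (15 * g + 3 * ch g + 1, 18 * G.M + 6 * G.N)) ?_ ?_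
    · refine reach_right (by omega) fun x h3 h4 => ?_
      have e : x / 15 = g := by omega
      exact Or.inr ⟨rfl, rfl, by omega, by omega, by rw [e]; omega⟩
    refine ReflTransGen.trans (b := (15 * g + 3 * ch g + 1, 18 * G.M - 1)) ?_ ?_
    · refine reach_down (by omega) fun y h3 h4 => ?_
      have e : (15 * g + 3 * ch g + 1) / 15 = g := by omega
      exact Or.inl ⟨by omega, by omega, by omega, by omega, Or.inl ⟨rfl, by rw [e]; omega⟩⟩
    · refine reach_left (by omega) fun x h3 h4 => ?_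
      have e : x / 15 = g := by omega
      exact Or.inr ⟨rfl, by omega, by omega, by omega, by rw [e]; omega⟩
  · refine reach_down (by omega) fun y h3 h4 => ?_
    exact Or.inl ⟨by omega, by omega, by omega, by omega, Or.inr ⟨by omega, by omega⟩⟩

theorem walk_col {ch : ℕ → ℕ} (hch : G.ChOk ch) {ρ : ℕ} (hρ : ρ % 3 = 0) (hρ' : ρ ≤ 12) :
    ReflTransGen (G.ColE ch ρ) (15 + ρ, 18 * G.M + 6 * G.N)
      (15 * G.M + ρ, 18 * G.M + 6 * G.N) := by
  have hM := G.hM
  have key : ∀ g, 1 ≤ g → g ≤ G.M → ReflTransGen (G.ColE ch ρ) (15 + ρ, 18 * G.M + 6 * G.N)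
      (15 * g + ρ, 18 * G.M + 6 * G.N) := by
    intro g hg
    induction g, hg using Nat.le_induction with
    | base => intro _; exact .refl
    | succ g hg ih =>
      intro hgM
      exact (ih (by omega)).trans (walk_group hch hρ hρ' hg (by omega))
  exact key G.M (by omega) le_rfl

/-! ### The horizontal paths -/

variable {τ : ℕ → Prop} {σ X : Prop}

theorem On.pred {y : ℕ} (hy : y % 6 = 1 ∨ y % 6 = 3) (h : G.On τ y) : G.On τ (y - 1) := by
  have e : (y - 1) / 6 = y / 6 := by omega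
  rcases h with ⟨h1, h2⟩ | ⟨h1, h2, h3⟩
  · left
    rw [e]
    exact ⟨by omega, h2⟩
  · right
    rw [e]
    exact ⟨by omega, by omega, h3⟩

theorem walk_slot {x y : ℕ} (h1 : 18 * G.M ≤ y) (h2 : y < 18 * G.M + 6 * G.N)
    (hy : y % 6 = 1 ∨ y % 6 = 3) (hon : G.On τ y) (hx : x % 3 = 2) (h3 : 14 ≤ x)
    (h4 : x + 3 < 15 * G.M) : ReflTransGen (G.RowE τ σ X) (x, y) (x + 3, y) := by
  have hM := G.hM
  have hon' := hon.pred hy
  have ht0 : ¬ G.tl x (y - 1) := fun h => by have := (G.tile h).2.2.1; omega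
  have hup : ∀ x', 14 ≤ x' → x' < 15 * G.M → (y % 6 = 1 ∧ 14 ≤ x' ∧ x' < 15 * G.M) ∨
      (y % 6 = 3 ∧ 13 ≤ x' ∧ x' < 15 * G.M) := fun x' _ _ => by omega
  have s1 : ReflTransGen (G.RowE τ σ X) (x, y) (x + 1, y) :=
    .single (Or.inl ⟨rfl, rfl, Or.inl ⟨h1, h2, hup x h3 (by omega), hon,
      fun h => by omega, Or.inr ht0⟩⟩)
  refine s1.trans ?_
  have e1 : x + 2 - 1 = x + 1 := rfl
  have ey : y - 1 + 1 = y := by omega
  by_cases ht : G.tl (x + 1) (y - 1)
  · have ht' : G.tl (x + 2 - 1) (y - 1) := ht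
    have s4 : ReflTransGen (G.RowE τ σ X) (x + 2, y - 1) (x + 3, y - 1) :=
      .single (Or.inl ⟨rfl, rfl, Or.inr (Or.inr (Or.inl ⟨ht', hon'⟩))⟩)
    have s5 : ReflTransGen (G.RowE τ σ X) (x + 3, y - 1) (x + 3, y) :=
      .single (Or.inr (Or.inr (Or.inl ⟨rfl, ey.symm, Or.inr (Or.inr ⟨by simp only; omega,
        ht, hon'⟩)⟩)))
    refine ReflTransGen.trans (b := (x + 2, y - 1)) ?_ (s4.trans s5)
    by_cases hX : X
    · have s2 : ReflTransGen (G.RowE τ σ X) (x + 1, y) (x + 2, y) :=
        .single (Or.inl ⟨rfl, rfl, Or.inl ⟨h1, h2, hup (x + 1) (by omega) (by omega), hon,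
          fun h => by omega, Or.inl hX⟩⟩)
      have s3 : ReflTransGen (G.RowE τ σ X) (x + 2, y) (x + 2, y - 1) :=
        .single (Or.inr (Or.inr (Or.inr ⟨rfl, ey.symm, Or.inl ⟨hX, by simp only; omega,
          ht', hon'⟩⟩)))
      exact s2.trans s3
    · have s2 : ReflTransGen (G.RowE τ σ X) (x + 1, y) (x + 1, y - 1) :=
        .single (Or.inr (Or.inr (Or.inr ⟨rfl, ey.symm, Or.inr ⟨hX, ht, hon'⟩⟩)))
      have s3 : ReflTransGen (G.RowE τ σ X) (x + 1, y - 1) (x + 2, y - 1) :=
        .single (Or.inl ⟨rfl, rfl, Or.inr (Or.inr (Or.inr ⟨hX, ht, hon'⟩))⟩)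
      exact s2.trans s3
  · have s2 : ReflTransGen (G.RowE τ σ X) (x + 1, y) (x + 2, y) :=
      .single (Or.inl ⟨rfl, rfl, Or.inl ⟨h1, h2, hup (x + 1) (by omega) (by omega), hon,
        fun h => by omega, Or.inr ht⟩⟩)
    have s3 : ReflTransGen (G.RowE τ σ X) (x + 2, y) (x + 3, y) :=
      .single (Or.inl ⟨rfl, rfl, Or.inl ⟨h1, h2, hup (x + 2) (by omega) (by omega), hon,
        fun h => ht h.2, Or.inr fun h => by have := (G.tile h).2.2.1; omega⟩⟩)
    exact s2.trans s3

theorem walk_across {y : ℕ} (h1 : 18 * G.M ≤ y) (h2 : y < 18 * G.M + 6 * G.N)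
    (hy : y % 6 = 1 ∨ y % 6 = 3) (hon : G.On τ y) :
    ReflTransGen (G.RowE τ σ X) (14, y) (15 * G.M, y) := by
  have hM := G.hM
  have key : ∀ k, 14 + 3 * k < 15 * G.M →
      ReflTransGen (G.RowE τ σ X) (14, y) (14 + 3 * k, y) := by
    intro k
    induction k with
    | zero => intro _; exact .refl
    | succ k ih =>
      intro hk
      exact (ih (by omega)).trans
        (walk_slot h1 h2 hy hon (by omega) (by omega) (by omega))
  have h := key (5 * (G.M - 1)) (by omega)
  rw [show 14 + 3 * (5 * (G.M - 1)) = 15 * G.M - 1 by omega] at h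
  refine h.tail (Or.inl ⟨by simp only; omega, rfl, Or.inl ⟨h1, h2, ?_, hon, ?_, Or.inr ?_⟩⟩)
  · simp only; omega
  · simp only; rintro ⟨h, _⟩; omega
  · intro h
    have := (G.tile h).2.2.1
    omega

theorem walk_level {i : ℕ} (hi : i < G.N) :
    ReflTransGen (G.RowE τ σ X) (14, 18 * G.M + 6 * i - 1) (14, 18 * G.M + 6 * i + 5) := by
  have hM := G.hM
  have e1 : (18 * G.M + 6 * i) / 6 - 3 * G.M = i := by omega
  have e2 : (18 * G.M + 6 * i + 1) / 6 - 3 * G.M = i := by omega
  have e3 : (18 * G.M + 6 * i + 3) / 6 - 3 * G.M = i := by omega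
  -- to the right junction
  have a1 : ReflTransGen (G.RowE τ σ X) (14, 18 * G.M + 6 * i - 1)
      (15 * G.M, 18 * G.M + 6 * i + 3) := by
    by_cases hτ : τ i
    · refine ReflTransGen.trans (b := (13, 18 * G.M + 6 * i - 1)) ?_ ?_
      · refine reach_left (by omega) fun x h3 h4 => ?_
        refine Or.inr ⟨by omega, by omega, by omega, by omega, ?_⟩
        rwa [show (18 * G.M + 6 * i - 1 + 1) / 6 - 3 * G.M = i by omega]
      refine ReflTransGen.trans (b := (13, 18 * G.M + 6 * i + 3)) ?_ ?_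
      · refine reach_up (by omega) fun y h3 h4 => ?_
        refine Or.inr (Or.inl ⟨by omega, Or.inr ⟨rfl, by omega, by omega, ?_⟩⟩)
        rwa [show (y + 1) / 6 - 3 * G.M = i by omega]
      have hon : G.On τ (18 * G.M + 6 * i + 3) :=
        Or.inr ⟨by omega, by omega, by rwa [e3]⟩
      refine ReflTransGen.trans (b := (14, 18 * G.M + 6 * i + 3)) ?_
        (walk_across (by omega) (by omega) (by omega) hon)
      refine reach_right (by omega) fun x h3 h4 => ?_
      obtain rfl : x = 13 := by omega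
      exact Or.inl ⟨by omega, by omega, Or.inr ⟨by omega, by omega, by omega⟩, hon,
        fun h => by have := (G.tile h.2).1; omega,
        Or.inr fun h => by have := (G.tile h).1; omega⟩
    · refine ReflTransGen.trans (b := (14, 18 * G.M + 6 * i + 1)) ?_ ?_
      · refine reach_up (by omega) fun y h3 h4 => ?_
        refine Or.inr (Or.inl ⟨by omega, Or.inl ⟨rfl, by omega, by omega, ?_⟩⟩)
        rwa [show (y + 1) / 6 - 3 * G.M = i by omega]
      have hon : G.On τ (18 * G.M + 6 * i + 1) :=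
        Or.inl ⟨by omega, by rwa [e2]⟩
      refine (walk_across (by omega) (by omega) (by omega) hon).trans ?_
      refine reach_up (by omega) fun y h3 h4 => ?_
      refine Or.inl ⟨by omega, by omega, Or.inl ⟨rfl, by omega, by omega, ?_⟩⟩
      rwa [show y / 6 - 3 * G.M = i by omega]
  refine a1.trans ?_
  by_cases hσ : σ
  · refine ReflTransGen.trans (b := (15 * G.M + 1, 18 * G.M + 6 * i + 3)) ?_ ?_
    · refine reach_right (by omega) fun x h3 h4 => ?_
      exact Or.inr (Or.inl ⟨by omega, by omega, by omega, by omega, hσ⟩)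
    refine ReflTransGen.trans (b := (15 * G.M + 1, 18 * G.M + 6 * i + 5)) ?_ ?_
    · refine reach_up (by omega) fun y h3 h4 => ?_
      exact Or.inl ⟨by omega, by omega, Or.inr (Or.inr (Or.inl ⟨rfl, by omega, by omega, hσ⟩))⟩
    · refine reach_left (by omega) fun x h3 h4 => ?_
      exact Or.inl ⟨by omega, by omega, Or.inr ⟨by omega, hσ, by omega, by omega⟩⟩
  · refine ReflTransGen.trans (b := (15 * G.M, 18 * G.M + 6 * i + 4)) ?_ ?_
    · refine reach_up (by omega) fun y h3 h4 => ?_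
      exact Or.inl ⟨by omega, by omega, Or.inr (Or.inl ⟨rfl, by omega, hσ⟩)⟩
    refine ReflTransGen.trans (b := (14, 18 * G.M + 6 * i + 4)) ?_ ?_
    · refine reach_left (by omega) fun x h3 h4 => ?_
      exact Or.inl ⟨by omega, by omega, Or.inl ⟨by omega, hσ, by omega, by omega⟩⟩
    · refine reach_up (by omega) fun y h3 h4 => ?_
      exact Or.inl ⟨by omega, by omega, Or.inr (Or.inr (Or.inr ⟨rfl, by omega, hσ⟩))⟩

theorem walk_row : ReflTransGen (G.RowE τ σ X) (14, 18 * G.M - 1)
    (14, 18 * G.M + 6 * G.N - 1) := by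
  have hM := G.hM
  have key : ∀ i, i ≤ G.N → ReflTransGen (G.RowE τ σ X) (14, 18 * G.M - 1)
      (14, 18 * G.M + 6 * i - 1) := by
    intro i
    induction i with
    | zero => intro _; exact .refl
    | succ i ih =>
      intro hi
      have := walk_level (G := G) (τ := τ) (σ := σ) (X := X) (i := i) (by omega)
      rw [show 18 * G.M + 6 * i + 5 = 18 * G.M + 6 * (i + 1) - 1 by omega] at this
      exact (ih (by omega)).trans this
  exact key G.N le_rfl

end Lay

end Pool.Agent.EPDP
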